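import Pool.Agent.H80.PT.Defs

/-!
[H80 PT MV]  From low twists to pairs, and the translation by a point of order 2.

`tw_of_low`: exactly the first part of the proof of `red` (Pool/Agent/H12/EH/Red.lean): `pair_of_pt`, `htb`.
`mv`: if `q ∤ s` take `(r, s)` itself.  Otherwise let `δ = (e 0 - e 1)(e 0 - e 2)`, `r₁ = e 0 (r - e 0 s) + δ s`, `s₁ = r - e 0 s`,
`s₁ ≠ 0`.  Then `r₁ - e 0 s₁ = δ s`, `r₁ - e 1 s₁ = (e 0 - e 1)(r - e 2 s)`, `r₁ - e 2 s₁ = (e 0 - e 2)(r - e 1 s)`, so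
`s₁ G(r₁, s₁) = δ² s G(r, s) = δ² d w²` (`G = ∏ (r - e_i s)` from `Gf_prod`, see `fac3`).  Divide `(r₁, s₁)` by
`g = ± gcd(r₁, s₁)` (sign such that `s' > 0`): `s' G(r', s') g⁴ = d (δ w)²`, so `s' G(r', s') = d (δ w / g²)²` in `ℚ`, and
`δ w / g²` is an integer by `int_of_sq`.  `q ∣ s` and `gcd(s, s₁) = 1` (`Fac_lin`) give `q ∤ s₁`, so `q ∤ s'`.
`|r'| ≤ |r₁| ≤ (|e 0| (1 + |e 0|) + |δ|) H`, `s' ≤ |s₁| ≤ (1 + |e 0|) H`.
-/

set_option autoImplicit false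

namespace Pool.Agent.H80.PT

open Pool.Agent.H12.EH

theorem tw_of_low (A B : ℤ) (hD : 4 * A ^ 3 + 27 * B ^ 2 ≠ 0) : ∃ C : ℝ, 1 ≤ C ∧ ∀ X Y : ℝ, 0 < Y →
    ∀ d ∈ low A B X Y, ∃ r s : ℤ, Tw A B (C * Y ^ 2) d r s := by
  obtain ⟨C₀, hC₀, hb⟩ := htb A B hD
  refine ⟨Real.exp C₀, Real.one_le_exp hC₀, ?_⟩
  rintro X Y hY d ⟨hdX, hd, P, hP, hPY⟩
  obtain ⟨r, s, w, hc, hs, hw, he, h1, h2⟩ := pair_of_pt hd P hP
  have hexp : Real.exp (hx P) ≤ Real.exp C₀ * Y ^ 2 := by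
    calc Real.exp (hx P) ≤ Real.exp (2 * canHeight P + C₀) :=
          Real.exp_le_exp.mpr (hb d (Nat.pos_of_ne_zero hd.ne_zero) P hP)
      _ = Real.exp C₀ * Real.exp (canHeight P) ^ 2 := by
          rw [Real.exp_add, ← Real.exp_nat_mul, mul_comm]
          norm_num
      _ ≤ Real.exp C₀ * Y ^ 2 := by
          apply mul_le_mul_of_nonneg_left _ (Real.exp_pos _).le
          exact pow_le_pow_left₀ (Real.exp_pos _).le hPY 2
  exact ⟨r, s, hc, hs, h1.trans hexp, h2.trans hexp, w, hw, he⟩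

private theorem mv_norm {r₁ s₁ : ℤ} (h : s₁ ≠ 0) : ∃ r' s' g : ℤ, IsCoprime r' s' ∧ 0 < s' ∧ g ≠ 0 ∧
    r₁ = r' * g ∧ s₁ = s' * g := by
  have hg : 0 < Int.gcd r₁ s₁ := Int.gcd_pos_of_ne_zero_right _ h
  obtain ⟨g, m, n, hg0, hmn, hm, hn⟩ := Int.exists_gcd_one' hg
  have hc : IsCoprime m n := Int.isCoprime_iff_gcd_eq_one.mpr hmn
  have hgz : (g : ℤ) ≠ 0 := by positivity
  rcases lt_trichotomy n 0 with hn0 | hn0 | hn0
  · refine ⟨-m, -n, -(g : ℤ), hc.neg_neg, by omega, neg_ne_zero.mpr hgz, ?_, ?_⟩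
    · rw [hm]; ring
    · rw [hn]; ring
  · exfalso
    apply h
    rw [hn, hn0, zero_mul]
  · exact ⟨m, n, g, hc, hn0, hgz, hm, hn⟩

private theorem mv_abs {a b g : ℤ} (hg : g ≠ 0) (h : a = b * g) : |(b : ℝ)| ≤ |(a : ℝ)| := by
  have h1 : (1 : ℝ) ≤ |(g : ℝ)| := by
    have := Int.one_le_abs hg
    exact_mod_cast this
  rw [h, Int.cast_mul, abs_mul]
  exact le_mul_of_one_le_right (abs_nonneg _) h1

theorem mv {A B : ℤ} {e : Fin 3 → ℤ} (hρ : Roots A B (fun v => (e v : ℂ))) : ∃ K : ℝ, 1 ≤ K ∧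
    ∀ (H : ℝ) (d : ℕ) (r s : ℤ) (q : ℕ), Squarefree d → q.Prime → Tw A B H d r s →
      ∃ r' s' : ℤ, Tw A B (K * H) d r' s' ∧ ¬ (q : ℤ) ∣ s' := by
  have hGf : ∀ r s : ℤ, Gf A B r s = (r - e 0 * s) * (r - e 1 * s) * (r - e 2 * s) := by
    intro r s
    have h := Gf_prod hρ r s
    exact_mod_cast h
  have hne : ∀ u v : Fin 3, u ≠ v → e u - e v ≠ 0 := by
    intro u v huv h
    apply hρ.ne u v huv
    have : e u = e v := by linarith
    simp only [this]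
  set δ : ℤ := (e 0 - e 1) * (e 0 - e 2) with hδ
  have hδ0 : δ ≠ 0 := mul_ne_zero (hne 0 1 (by decide)) (hne 0 2 (by decide))
  set a : ℝ := |(e 0 : ℝ)| with ha
  set b : ℝ := |(δ : ℝ)| with hb
  have ha0 : 0 ≤ a := abs_nonneg _
  have hb0 : 0 ≤ b := abs_nonneg _
  refine ⟨a * (1 + a) + b + (1 + a), by nlinarith [mul_nonneg ha0 (by linarith : (0 : ℝ) ≤ 1 + a)], ?_⟩
  rintro H d r s q hd hq ⟨hc, hs, hr1, hs1, w, hw, he⟩
  have hsR : (0 : ℝ) < s := by exact_mod_cast hs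
  have hH : 0 < H := lt_of_lt_of_le hsR hs1
  have haH : 0 ≤ a * H := by positivity
  have haaH : 0 ≤ a * (a * H) := by positivity
  have hbH : 0 ≤ b * H := by positivity
  by_cases hqs : (q : ℤ) ∣ s
  · set s₁ : ℤ := r - e 0 * s with hs₁
    set r₁ : ℤ := e 0 * s₁ + δ * s with hr₁
    have hd0 : (d : ℤ) ≠ 0 := by exact_mod_cast hd.ne_zero
    have hs₁0 : s₁ ≠ 0 := by
      intro h0
      have h1 : s * Gf A B r s = 0 := by
        rw [hGf, ← hs₁, h0]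
        ring
      rw [h1] at he
      exact (mul_ne_zero hd0 (pow_ne_zero 2 hw)) he.symm
    have hid : s₁ * Gf A B r₁ s₁ = δ ^ 2 * (s * Gf A B r s) := by
      rw [hGf, hGf, hr₁, hs₁, hδ]
      ring
    obtain ⟨r', s', g, hc', hs', hg, hrg, hsg⟩ := mv_norm (r₁ := r₁) hs₁0
    have hgq : (g : ℚ) ≠ 0 := by exact_mod_cast hg
    have hid2 : g ^ 4 * (s' * Gf A B r' s') = d * (δ * w) ^ 2 := by
      have h1 : g ^ 4 * (s' * Gf A B r' s') = s₁ * Gf A B r₁ s₁ := by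
        rw [hrg, hsg]
        unfold Gf
        ring
      rw [h1, hid, he]
      ring
    have hq2 : ((s' * Gf A B r' s' : ℤ) : ℚ) = d * ((δ * w : ℤ) / (g : ℚ) ^ 2) ^ 2 := by
      have h1 : (g : ℚ) ^ 4 * ((s' * Gf A B r' s' : ℤ) : ℚ) = d * ((δ * w : ℤ) : ℚ) ^ 2 := by
        exact_mod_cast hid2
      field_simp
      linear_combination h1
    obtain ⟨n, hn⟩ := int_of_sq hd hq2
    have hn0 : n ≠ 0 := by
      intro h0
      rw [h0, Int.cast_zero, div_eq_zero_iff] at hn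
      rcases hn with hn | hn
      · exact (mul_ne_zero hδ0 hw) (by exact_mod_cast hn)
      · exact (pow_ne_zero 2 hgq) hn
    rw [hn] at hq2
    have hs₁R : |(s₁ : ℝ)| ≤ (1 + a) * H := by
      rw [hs₁]
      push_cast
      have h1 : |(r : ℝ) - e 0 * s| ≤ |(r : ℝ)| + |(e 0 : ℝ) * s| := abs_sub _ _
      rw [abs_mul, abs_of_pos hsR, ← ha] at h1
      have h2 := mul_le_mul_of_nonneg_left hs1 ha0
      linarith
    have hr₁R : |(r₁ : ℝ)| ≤ (a * (1 + a) + b) * H := by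
      rw [hr₁]
      push_cast
      have h1 : |(e 0 : ℝ) * s₁ + δ * s| ≤ |(e 0 : ℝ) * s₁| + |(δ : ℝ) * s| := abs_add_le _ _
      rw [abs_mul, abs_mul, abs_of_pos hsR, ← ha, ← hb] at h1
      have h2 := mul_le_mul_of_nonneg_left hs1 hb0
      have h3 := mul_le_mul_of_nonneg_left hs₁R ha0
      linarith
    refine ⟨r', s', ⟨hc', hs', ?_, ?_, n, hn0, by exact_mod_cast hq2⟩, ?_⟩
    · have h1 := mv_abs hg hrg
      nlinarith
    · have h1 := mv_abs hg hsg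
      have h2 := le_abs_self (s' : ℝ)
      nlinarith
    · intro hqs'
      have h1 : (q : ℤ) ∣ s₁ := by
        rw [hsg]
        exact hqs'.mul_right g
      have h2 := (Fac_lin hc (e 0)).isUnit_of_dvd' hqs h1
      exact (Nat.prime_iff_prime_int.mp hq).not_isUnit h2
  · refine ⟨r, s, ⟨hc, hs, ?_, ?_, w, hw, he⟩, hqs⟩
    · nlinarith
    · nlinarith

end Pool.Agent.H80.PT
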