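import Pool.Agent.H80.PT.Defs

/-!
[H80 PT ALG]  The divisibility behind the spacing.

`lcm1` (pure arithmetic, `N = z²`).  Put `A = y₁ b₀ - b₁ y₀`, `A' = y₁' b₀ - b₁ y₀'`, `S = y₁ b₀ + b₁ y₀`, `S'` alike
(`b` = base point).  `d₋ = gcd(N, A) = gcd(N, A')`, `d₊ = gcd(N, S) = gcd(N, S')`, `M = lcm(d₋, d₊) ∣ N`.
`y₀' A - y₀ A' = b₀ (y₁ y₀' - y₁' y₀) = y₀' S - y₀ S'` and `gcd(b₀, N) = 1`, so `M ∣ y₁ y₀' - y₁' y₀`.
`N ∣ a A S`, so `N = gcd(N, a A S) ∣ gcd(N, a) d₋ d₊` (`Nat.gcd_mul_dvd_mul_gcd`-like), `d₋ d₊ = gcd(d₋, d₊) M`, and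
`gcd(d₋, d₊) ∣ A + S = 2 y₁ b₀` is coprime to `b₀`, so it divides `gcd(N, 2 y₁)`, which is `≤ E`.  So `N ≤ F E M` if `gcd(N, a) ≤ F`.
`gcdA`: `gcd(z², a)` divides `r - e_o s` and `r - e_u s`, so it divides `e_o - e_u`.
`gcdE`: `gcd(z², 2 y) ∣ 2 gcd(z, y)²` and `gcd(z, y)²` divides `r - e_o s` and `r - e_u s`, so (`gcd(r, s) = 1`) it divides `e_o - e_u`
(`Fac_gcd2`).
`Bdvd`: `M = gcd(M₁, M₂)`; `c_v = frw e o.succ v * a v`; `y_v y_0' - y_v' y_0 = M x_v` for all `v` (`v = 0` trivial), and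
`∑ c_v (y_v y_0' - y_v' y_0)² = - 2 y_0 y_0' B(y, y')` by `B_self` (twice), where `B = (lab3r e o.succ a).B`, so
`M² ∣ 2 y_0 y_0' B`, and `gcd(M, y_0) = gcd(M, y_0') = 1`.
-/

set_option autoImplicit false

namespace Pool.Agent.H80.PT

open Pool.Agent.H12.EH

theorem lcm1 {N E F : ℕ} {a y0 y0' b0 y1 y1' b1 : ℤ} (hN : 0 < N)
    (hb : IsCoprime b0 (N : ℤ)) (h1 : (N : ℤ) ∣ a * (y1 ^ 2 * b0 ^ 2 - b1 ^ 2 * y0 ^ 2))
    (hE : Int.gcd N (2 * y1) ≤ E) (hF : Int.gcd N a ≤ F)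
    (hA : Int.gcd N (y1 * b0 - b1 * y0) = Int.gcd N (y1' * b0 - b1 * y0'))
    (hS : Int.gcd N (y1 * b0 + b1 * y0) = Int.gcd N (y1' * b0 + b1 * y0')) :
    ∃ M : ℕ, M ∣ N ∧ (M : ℤ) ∣ y1 * y0' - y1' * y0 ∧ N ≤ M * (F * E) := by
  have hN0 : (N : ℤ) ≠ 0 := by exact_mod_cast hN.ne'
  obtain ⟨dm, hdm⟩ : ∃ d : ℕ, d = Int.gcd N (y1 * b0 - b1 * y0) := ⟨_, rfl⟩
  obtain ⟨dp, hdp⟩ : ∃ d : ℕ, d = Int.gcd N (y1 * b0 + b1 * y0) := ⟨_, rfl⟩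
  have m1 : dm ∣ N := by
    rw [hdm]
    exact_mod_cast Int.gcd_dvd_left (N : ℤ) (y1 * b0 - b1 * y0)
  have m2 : dp ∣ N := by
    rw [hdp]
    exact_mod_cast Int.gcd_dvd_left (N : ℤ) (y1 * b0 + b1 * y0)
  have q1 : (dm : ℤ) ∣ y1 * b0 - b1 * y0 := by rw [hdm]; exact Int.gcd_dvd_right _ _
  have q1' : (dm : ℤ) ∣ y1' * b0 - b1 * y0' := by rw [hdm, hA]; exact Int.gcd_dvd_right _ _
  have q2 : (dp : ℤ) ∣ y1 * b0 + b1 * y0 := by rw [hdp]; exact Int.gcd_dvd_right _ _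
  have q2' : (dp : ℤ) ∣ y1' * b0 + b1 * y0' := by rw [hdp, hS]; exact Int.gcd_dvd_right _ _
  have cop : ∀ d : ℕ, d ∣ N → IsCoprime (d : ℤ) b0 := fun d hd =>
    (hb.of_isCoprime_of_dvd_right (Int.natCast_dvd_natCast.mpr hd)).symm
  have k1 : (dm : ℤ) ∣ y1 * y0' - y1' * y0 := by
    have e1 : b0 * (y1 * y0' - y1' * y0) = y0' * (y1 * b0 - b1 * y0) - y0 * (y1' * b0 - b1 * y0') := by ring
    have e2 : (dm : ℤ) ∣ b0 * (y1 * y0' - y1' * y0) := by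
      rw [e1]
      exact dvd_sub (q1.mul_left _) (q1'.mul_left _)
    exact (cop dm m1).dvd_of_dvd_mul_left e2
  have k2 : (dp : ℤ) ∣ y1 * y0' - y1' * y0 := by
    have e1 : b0 * (y1 * y0' - y1' * y0) = y0' * (y1 * b0 + b1 * y0) - y0 * (y1' * b0 + b1 * y0') := by ring
    have e2 : (dp : ℤ) ∣ b0 * (y1 * y0' - y1' * y0) := by
      rw [e1]
      exact dvd_sub (q2.mul_left _) (q2'.mul_left _)
    exact (cop dp m2).dvd_of_dvd_mul_left e2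
  refine ⟨Nat.lcm dm dp, Nat.lcm_dvd m1 m2, ?_, ?_⟩
  · rw [Int.natCast_dvd]
    exact Nat.lcm_dvd (Int.natCast_dvd.mp k1) (Int.natCast_dvd.mp k2)
  · have hlcm := Nat.gcd_mul_lcm dm dp
    have hdm0 : 0 < dm := Nat.pos_of_dvd_of_pos m1 hN
    have hdp0 : 0 < dp := Nat.pos_of_dvd_of_pos m2 hN
    -- the gcd
    have hg : Nat.gcd dm dp ≤ E := by
      have h2 : ((Nat.gcd dm dp : ℕ) : ℤ) ∣ 2 * y1 := by
        have h3 : ((Nat.gcd dm dp : ℕ) : ℤ) ∣ (2 * y1) * b0 := by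
          have h4 : (2 * y1) * b0 = (y1 * b0 - b1 * y0) + (y1 * b0 + b1 * y0) := by ring
          rw [h4]
          exact dvd_add ((Int.natCast_dvd_natCast.mpr (Nat.gcd_dvd_left dm dp)).trans q1)
            ((Int.natCast_dvd_natCast.mpr (Nat.gcd_dvd_right dm dp)).trans q2)
        exact (cop _ ((Nat.gcd_dvd_left dm dp).trans m1)).dvd_of_dvd_mul_right h3
      have h5 : Nat.gcd dm dp ∣ Int.gcd N (2 * y1) := by
        apply Int.dvd_gcd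
        · exact Int.natCast_dvd_natCast.mpr ((Nat.gcd_dvd_left dm dp).trans m1)
        · exact h2
      refine (Nat.le_of_dvd ?_ h5).trans hE
      exact Int.gcd_pos_of_ne_zero_left _ hN0
    have hdiv : N ∣ Int.gcd N a * (dm * dp) := by
      have h2 : N ∣ a.natAbs * ((y1 * b0 - b1 * y0).natAbs * (y1 * b0 + b1 * y0).natAbs) := by
        have h3 : a * (y1 ^ 2 * b0 ^ 2 - b1 ^ 2 * y0 ^ 2) =
            a * ((y1 * b0 - b1 * y0) * (y1 * b0 + b1 * y0)) := by ring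
        rw [h3] at h1
        have h4 := Int.natCast_dvd.mp h1
        rwa [Int.natAbs_mul, Int.natAbs_mul] at h4
      have h3 : Nat.gcd N (a.natAbs * ((y1 * b0 - b1 * y0).natAbs * (y1 * b0 + b1 * y0).natAbs)) = N :=
        Nat.gcd_eq_left h2
      have h4 := Nat.gcd_mul_right_dvd_mul_gcd N a.natAbs
        ((y1 * b0 - b1 * y0).natAbs * (y1 * b0 + b1 * y0).natAbs)
      rw [h3] at h4
      have h5 := Nat.gcd_mul_right_dvd_mul_gcd N (y1 * b0 - b1 * y0).natAbs (y1 * b0 + b1 * y0).natAbs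
      have h6 : Nat.gcd N (y1 * b0 - b1 * y0).natAbs = dm := by rw [hdm]; rfl
      have h7 : Nat.gcd N (y1 * b0 + b1 * y0).natAbs = dp := by rw [hdp]; rfl
      rw [h6, h7] at h5
      exact h4.trans (mul_dvd_mul (dvd_refl _) h5)
    have ha0 : 0 < Int.gcd N a := Int.gcd_pos_of_ne_zero_left _ hN0
    have hle : N ≤ Int.gcd N a * (dm * dp) := Nat.le_of_dvd (by positivity) hdiv
    rw [← hlcm] at hle
    refine hle.trans ?_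
    calc Int.gcd N a * (Nat.gcd dm dp * Nat.lcm dm dp) ≤ F * (E * Nat.lcm dm dp) := by gcongr
      _ = Nat.lcm dm dp * (F * E) := by ring

theorem lcm2 {N M₁ M₂ c₁ c₂ : ℕ} (hN : 0 < N) (h1 : M₁ ∣ N) (h2 : M₂ ∣ N) (h3 : N ≤ M₁ * c₁) (h4 : N ≤ M₂ * c₂) :
    N ≤ Nat.gcd M₁ M₂ * (c₁ * c₂) := by
  have h5 : Nat.lcm M₁ M₂ ≤ N := Nat.le_of_dvd hN (Nat.lcm_dvd h1 h2)
  have h6 := Nat.gcd_mul_lcm M₁ M₂
  have h7 : N * N ≤ (Nat.gcd M₁ M₂ * (c₁ * c₂)) * N := by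
    calc N * N ≤ (M₁ * c₁) * (M₂ * c₂) := Nat.mul_le_mul h3 h4
      _ = (M₁ * M₂) * (c₁ * c₂) := by ring
      _ = (Nat.gcd M₁ M₂ * Nat.lcm M₁ M₂) * (c₁ * c₂) := by rw [h6]
      _ ≤ (Nat.gcd M₁ M₂ * N) * (c₁ * c₂) := by gcongr
      _ = (Nat.gcd M₁ M₂ * (c₁ * c₂)) * N := by ring
  exact Nat.le_of_mul_le_mul_right h7 hN

theorem gcdE {e : Fin 3 → ℤ} {o u : Fin 3} (hou : e o ≠ e u) {z : ℕ} (hz : 0 < z) {r s a y : ℤ} (hrs : IsCoprime r s)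
    (_hy : 0 < y) (h1 : r - e u * s = a * y ^ 2) (h2 : (z : ℤ) ^ 2 ∣ r - e o * s) :
    Int.gcd ((z ^ 2 : ℕ) : ℤ) (2 * y) ≤ 2 * (e o - e u).natAbs := by
  have hne : 0 < (e o - e u).natAbs := Int.natAbs_pos.mpr (sub_ne_zero.mpr hou)
  set c : ℕ := Nat.gcd z y.natAbs with hc
  have hc1 : ((c ^ 2 : ℕ) : ℤ) ∣ r - e o * s := by
    refine dvd_trans ?_ h2
    push_cast
    exact pow_dvd_pow_of_dvd (Int.natCast_dvd_natCast.mpr (Nat.gcd_dvd_left _ _)) 2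
  have hc2 : ((c ^ 2 : ℕ) : ℤ) ∣ r - e u * s := by
    rw [h1]
    refine dvd_trans ?_ (Dvd.intro_left a rfl)
    push_cast
    exact pow_dvd_pow_of_dvd (Int.natCast_dvd.mpr (Nat.gcd_dvd_right _ _)) 2
  have hc3 : c ^ 2 ∣ (e o - e u).natAbs := (Int.dvd_gcd hc1 hc2).trans (Fac_gcd2 hrs (e o) (e u))
  have h3 : Int.gcd ((z ^ 2 : ℕ) : ℤ) (2 * y) ∣ 2 * c ^ 2 := by
    have e1 : Int.gcd ((z ^ 2 : ℕ) : ℤ) (2 * y) = Nat.gcd (z ^ 2) (2 * y.natAbs) := by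
      rw [Int.gcd_eq_natAbs, Int.natAbs_mul]
      rfl
    rw [e1]
    refine (Nat.gcd_mul_right_dvd_mul_gcd (z ^ 2) 2 y.natAbs).trans (mul_dvd_mul (Nat.gcd_dvd_right _ _) ?_)
    rw [Nat.gcd_comm, pow_two]
    refine (Nat.gcd_mul_right_dvd_mul_gcd y.natAbs z z).trans ?_
    rw [Nat.gcd_comm y.natAbs z, ← pow_two]
  have h4 : 2 * c ^ 2 ≤ 2 * (e o - e u).natAbs := Nat.mul_le_mul_left 2 (Nat.le_of_dvd hne hc3)
  have hc0 : 0 < c := Nat.gcd_pos_of_pos_left _ hz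
  exact (Nat.le_of_dvd (by positivity) h3).trans h4

theorem gcdA {e : Fin 3 → ℤ} {o u : Fin 3} (hou : e o ≠ e u) {z : ℕ} {r s a y : ℤ} (hrs : IsCoprime r s)
    (h1 : r - e u * s = a * y ^ 2) (h2 : (z : ℤ) ^ 2 ∣ r - e o * s) :
    Int.gcd ((z ^ 2 : ℕ) : ℤ) a ≤ (e o - e u).natAbs := by
  have hne : 0 < (e o - e u).natAbs := Int.natAbs_pos.mpr (sub_ne_zero.mpr hou)
  have e1 : ((Int.gcd ((z ^ 2 : ℕ) : ℤ) a : ℕ) : ℤ) ∣ r - e o * s := by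
    refine (Int.gcd_dvd_left _ _).trans ?_
    push_cast
    exact h2
  have e2 : ((Int.gcd ((z ^ 2 : ℕ) : ℤ) a : ℕ) : ℤ) ∣ r - e u * s := by
    rw [h1]
    exact (Int.gcd_dvd_right _ _).mul_right _
  exact Nat.le_of_dvd hne ((Int.dvd_gcd e1 e2).trans (Fac_gcd2 hrs (e o) (e u)))

/-- the other two forms of the label -/
theorem sa (o i : Fin 3) (hi : i ≠ 0) : ∃ u : Fin 3, u ≠ o ∧ o.succ.succAbove i = u.succ := by
  revert o i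
  decide

theorem frm_succ (e : Fin 3 → ℤ) (u : Fin 3) (r s : ℤ) : frm e u.succ r s = r - e u * s := by
  fin_cases u <;> rfl

theorem cop0 {e : Fin 3 → ℤ} {o : Fin 3} {a : Fin 3 → ℤ} {z : ℕ} {r s : ℤ} {y : Fin 3 → ℤ}
    (h : Sp e o a z r s y) {M : ℕ} (hM : M ∣ z ^ 2) : IsCoprime (M : ℤ) (y 0) := by
  obtain ⟨h1, h2, h3, h4, h5⟩ := h
  have h6 := h4 0
  have h7 : o.succ.succAbove 0 = 0 := Fin.succ_succAbove_zero o
  rw [h7] at h6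
  have h8 : s = a 0 * y 0 ^ 2 := by
    have : frm e 0 r s = s := rfl
    rw [← this]
    exact h6
  have h9 : IsCoprime s (r - e o * s) := Fac_lin h1 (e o)
  have h10 : IsCoprime (y 0) (r - e o * s) := by
    refine h9.of_isCoprime_of_dvd_left ?_
    rw [h8]
    exact Dvd.intro_left (a 0 * y 0) (by ring)
  have h11 : (M : ℤ) ∣ r - e o * s := by
    refine dvd_trans ?_ h5
    have := Int.natCast_dvd_natCast.mpr hM
    push_cast at this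
    exact this
  exact (h10.of_isCoprime_of_dvd_right h11).symm

theorem Bdvd {e : Fin 3 → ℤ} (he : ∀ i j, i ≠ j → e i ≠ e j) {o : Fin 3} {a : Fin 3 → ℤ} (ha : ∀ i, a i ≠ 0) {z : ℕ}
    {r s r' s' : ℤ} {y y' : Fin 3 → ℤ} (h : Sp e o a z r s y) (h' : Sp e o a z r' s' y') {M : ℕ} (hM : M ∣ z ^ 2)
    (h1 : (M : ℤ) ∣ y 1 * y' 0 - y' 1 * y 0) (h2 : (M : ℤ) ∣ y 2 * y' 0 - y' 2 * y 0) :
    (M : ℤ) ^ 2 ∣ 2 * (lab3r e o.succ a).B y y' := by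
  have hok := lab3r_ok he o.succ ha
  have b1 : (lab3r e o.succ a).B y y = 0 := Lab.B_self hok (lab3r_pt o.succ h.2.2.2.1)
  have b2 : (lab3r e o.succ a).B y' y' = 0 := Lab.B_self hok (lab3r_pt o.succ h'.2.2.2.1)
  have hB : ∀ ζ ζ' : Fin 3 → ℤ, (lab3r e o.succ a).B ζ ζ' =
      ∑ v, frw e o.succ v * a v * ζ v * ζ' v := by
    intro ζ ζ'
    unfold Lab.B
    simp only [lab3r, Matrix.mulVec_diagonal, dotProduct]
    refine Finset.sum_congr rfl fun v _ => ?_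
    ring
  rw [hB, Fin.sum_univ_three] at b1 b2
  obtain ⟨x1, hx1⟩ := h1
  obtain ⟨x2, hx2⟩ := h2
  have c1 := cop0 h hM
  have c2 := cop0 h' hM
  have key : (M : ℤ) ^ 2 ∣ (2 * (lab3r e o.succ a).B y y') * (y 0 * y' 0) := by
    refine ⟨-(frw e o.succ 1 * a 1 * x1 ^ 2 + frw e o.succ 2 * a 2 * x2 ^ 2), ?_⟩
    rw [hB, Fin.sum_univ_three]
    have e1 : (M : ℤ) ^ 2 * -(frw e o.succ 1 * a 1 * x1 ^ 2 + frw e o.succ 2 * a 2 * x2 ^ 2) =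
        -(frw e o.succ 1 * a 1 * (M * x1) ^ 2 + frw e o.succ 2 * a 2 * (M * x2) ^ 2) := by ring
    rw [e1, ← hx1, ← hx2]
    linear_combination (y' 0 ^ 2) * b1 + (y 0 ^ 2) * b2
  have c3 : IsCoprime ((M : ℤ) ^ 2) (y 0 * y' 0) := (IsCoprime.mul_right c1 c2).pow_left
  exact c3.dvd_of_dvd_mul_right key

theorem Sp.s0 {e : Fin 3 → ℤ} {o : Fin 3} {a : Fin 3 → ℤ} {z : ℕ} {r s : ℤ} {y : Fin 3 → ℤ}
    (h : Sp e o a z r s y) : s = a 0 * y 0 ^ 2 := by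
  have h6 := h.2.2.2.1 0
  have h7 : o.succ.succAbove 0 = 0 := Fin.succ_succAbove_zero o
  rw [h7] at h6
  have : frm e 0 r s = s := rfl
  rw [← this]
  exact h6

theorem Sp.si {e : Fin 3 → ℤ} {o : Fin 3} {a : Fin 3 → ℤ} {z : ℕ} {r s : ℤ} {y : Fin 3 → ℤ}
    (h : Sp e o a z r s y) {i u : Fin 3} (hu : o.succ.succAbove i = u.succ) : r - e u * s = a i * y i ^ 2 := by
  have h6 := h.2.2.2.1 i
  rw [hu, frm_succ] at h6
  exact h6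

/-- the congruence of two points with the same `z` and the same label -/
theorem dvdA {e : Fin 3 → ℤ} {o : Fin 3} {a : Fin 3 → ℤ} {z : ℕ} {r s r' s' : ℤ} {y b : Fin 3 → ℤ}
    (h : Sp e o a z r s y) (h' : Sp e o a z r' s' b) {i : Fin 3} (hi : i ≠ 0) :
    ((z ^ 2 : ℕ) : ℤ) ∣ a i * (y i ^ 2 * b 0 ^ 2 - b i ^ 2 * y 0 ^ 2) := by
  obtain ⟨u, -, hu⟩ := sa o i hi
  have h1 := h.si hu
  have h2 := h'.si hu
  obtain ⟨c, hc⟩ := h.2.2.2.2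
  obtain ⟨c', hc'⟩ := h'.2.2.2.2
  have h3 := h.s0
  have h4 := h'.s0
  refine ⟨c * b 0 ^ 2 - c' * y 0 ^ 2, ?_⟩
  push_cast
  linear_combination (-(b 0 ^ 2)) * h1 + (y 0 ^ 2) * h2 + (b 0 ^ 2) * hc - (y 0 ^ 2) * hc' +
    ((e o - e u) * b 0 ^ 2) * h3 - ((e o - e u) * y 0 ^ 2) * h4

/-- `M` is coprime to the part `g` of the label -/
theorem copMg {e : Fin 3 → ℤ} {o : Fin 3} {a : Fin 3 → ℤ} {z : ℕ} {r s : ℤ} {y : Fin 3 → ℤ}
    (h : Sp e o a z r s y) {M g : ℕ} (hM : M ∣ z ^ 2) (hga : ∀ q : ℕ, q.Prime → q ∣ g → ∃ i, (q : ℤ) ∣ a i)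
    (hgw : ∀ q : ℕ, q.Prime → q ∣ g → ∀ (o : Fin 4) (v : Fin 3), ¬ (q : ℤ) ∣ frw e o v) : Nat.Coprime M g := by
  refine Nat.coprime_of_dvd ?_
  intro q hq hqM hqg
  have hqp : Prime (q : ℤ) := Nat.prime_iff_prime_int.mp hq
  have h1 : (q : ℤ) ∣ r - e o * s := by
    refine dvd_trans ?_ h.2.2.2.2
    have := Int.natCast_dvd_natCast.mpr (hqM.trans hM)
    push_cast at this
    exact this
  obtain ⟨i, hi⟩ := hga q hq hqg
  by_cases hi0 : i = 0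
  · subst hi0
    have h2 : (q : ℤ) ∣ s := by
      rw [h.s0]
      exact hi.mul_right _
    exact hqp.not_isUnit ((Fac_lin h.1 (e o)).isUnit_of_dvd' h2 h1)
  · obtain ⟨u, huo, hu⟩ := sa o i hi0
    have h2 : (q : ℤ) ∣ r - e u * s := by
      rw [h.si hu]
      exact hi.mul_right _
    have h3 : (q : ℤ) ∣ e o - e u := by
      have h4 := (Int.dvd_gcd h1 h2).trans (Fac_gcd2 h.1 (e o) (e u))
      exact Int.natCast_dvd.mpr h4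
    have h5 : ∃ v : Fin 3, frw e 0 v = e o - e u ∨ frw e 0 v = -(e o - e u) := by
      have h6 : (∃ v : Fin 3, o = v + 1 ∧ u = v + 2) ∨ (∃ v : Fin 3, u = v + 1 ∧ o = v + 2) := by
        have h7 : ∀ o u : Fin 3, u ≠ o →
            (∃ v : Fin 3, o = v + 1 ∧ u = v + 2) ∨ (∃ v : Fin 3, u = v + 1 ∧ o = v + 2) := by decide
        exact h7 o u huo
      have h8 : ∀ v : Fin 3, frw e 0 v = e (v + 1) - e (v + 2) := by
        intro v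
        fin_cases v <;> simp [frw, frl, frk] <;> ring
      rcases h6 with ⟨v, h9, h10⟩ | ⟨v, h9, h10⟩
      · exact ⟨v, Or.inl (by rw [h8, ← h9, ← h10])⟩
      · exact ⟨v, Or.inr (by rw [h8, ← h9, ← h10]; ring)⟩
    obtain ⟨v, hv⟩ := h5
    rcases hv with hv | hv
    · exact hgw q hq hqg 0 v (hv ▸ h3)
    · exact hgw q hq hqg 0 v (by rw [hv]; exact (dvd_neg).mpr h3)

/-- `(∏ |e_i - e_j|)` -/
def Del (e : Fin 3 → ℤ) : ℕ := (e 0 - e 1).natAbs * (e 0 - e 2).natAbs * (e 1 - e 2).natAbs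

theorem Del_pos {e : Fin 3 → ℤ} (he : ∀ i j, i ≠ j → e i ≠ e j) : 0 < Del e := by
  have h1 := Int.natAbs_pos.mpr (sub_ne_zero.mpr (he 0 1 (by decide)))
  have h2 := Int.natAbs_pos.mpr (sub_ne_zero.mpr (he 0 2 (by decide)))
  have h3 := Int.natAbs_pos.mpr (sub_ne_zero.mpr (he 1 2 (by decide)))
  unfold Del
  positivity

theorem le_Del {e : Fin 3 → ℤ} (he : ∀ i j, i ≠ j → e i ≠ e j) {o u : Fin 3} (h : u ≠ o) :
    (e o - e u).natAbs ≤ Del e := by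
  refine Nat.le_of_dvd (Del_pos he) ?_
  have hc : ∀ i j : Fin 3, (e i - e j).natAbs = (e j - e i).natAbs := fun i j => by
    rw [← Int.natAbs_neg, neg_sub]
  unfold Del
  fin_cases o <;> fin_cases u <;> first | exact absurd rfl h | skip
  · exact ⟨(e 0 - e 2).natAbs * (e 1 - e 2).natAbs, by simp; ring⟩
  · exact ⟨(e 0 - e 1).natAbs * (e 1 - e 2).natAbs, by simp; ring⟩
  · exact ⟨(e 0 - e 2).natAbs * (e 1 - e 2).natAbs, by simp [hc 1 0]; ring⟩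
  · exact ⟨(e 0 - e 1).natAbs * (e 0 - e 2).natAbs, by simp; ring⟩
  · exact ⟨(e 0 - e 1).natAbs * (e 1 - e 2).natAbs, by simp [hc 2 0]; ring⟩
  · exact ⟨(e 0 - e 1).natAbs * (e 0 - e 2).natAbs, by simp [hc 2 1]; ring⟩

/-- everything for two points of one class (base point `b`) -/
theorem pairM {e : Fin 3 → ℤ} (he : ∀ i j, i ≠ j → e i ≠ e j) {o : Fin 3} {a : Fin 3 → ℤ} (ha : ∀ i, a i ≠ 0) {z : ℕ}
    (hz : 0 < z) {r s r' s' rb sb : ℤ} {y y' b : Fin 3 → ℤ} (h : Sp e o a z r s y) (h' : Sp e o a z r' s' y')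
    (hb : Sp e o a z rb sb b)
    (hA : ∀ i : Fin 3, Int.gcd ((z ^ 2 : ℕ) : ℤ) (y i * b 0 - b i * y 0) =
      Int.gcd ((z ^ 2 : ℕ) : ℤ) (y' i * b 0 - b i * y' 0))
    (hS : ∀ i : Fin 3, Int.gcd ((z ^ 2 : ℕ) : ℤ) (y i * b 0 + b i * y 0) =
      Int.gcd ((z ^ 2 : ℕ) : ℤ) (y' i * b 0 + b i * y' 0)) :
    ∃ M : ℕ, M ∣ z ^ 2 ∧ (M : ℤ) ^ 2 ∣ 2 * (lab3r e o.succ a).B y y' ∧ z ^ 2 ≤ M * (2 * Del e ^ 2) ^ 2 := by
  have hz2 : 0 < z ^ 2 := by positivity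
  have hcb : IsCoprime (b 0) ((z ^ 2 : ℕ) : ℤ) := (cop0 hb (dvd_refl (z ^ 2))).symm
  have key : ∀ i : Fin 3, i ≠ 0 → ∃ M : ℕ, M ∣ z ^ 2 ∧ (M : ℤ) ∣ y i * y' 0 - y' i * y 0 ∧
      z ^ 2 ≤ M * (Del e * (2 * Del e)) := by
    intro i hi
    obtain ⟨u, huo, hu⟩ := sa o i hi
    have hne : e o ≠ e u := he o u (Ne.symm huo)
    have hE := gcdE hne hz h.1 (h.2.2.1 i) (h.si hu) h.2.2.2.2
    have hF := gcdA hne h.1 (h.si hu) h.2.2.2.2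
    have hle := le_Del he huo
    exact lcm1 hz2 hcb (dvdA h hb hi) (hE.trans (Nat.mul_le_mul_left 2 hle)) (hF.trans hle) (hA i) (hS i)
  obtain ⟨M₁, m1, n1, k1⟩ := key 1 (by decide)
  obtain ⟨M₂, m2, n2, k2⟩ := key 2 (by decide)
  refine ⟨Nat.gcd M₁ M₂, (Nat.gcd_dvd_left _ _).trans m1, ?_, ?_⟩
  · apply Bdvd he ha h h' ((Nat.gcd_dvd_left _ _).trans m1)
    · exact (Int.natCast_dvd_natCast.mpr (Nat.gcd_dvd_left _ _)).trans n1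
    · exact (Int.natCast_dvd_natCast.mpr (Nat.gcd_dvd_right _ _)).trans n2
  · have := lcm2 hz2 m1 m2 k1 k2
    refine this.trans (le_of_eq ?_)
    ring

end Pool.Agent.H80.PT
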