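import Pool.Agent.H80.PT.Alg
import Pool.Agent.H92.DivBound

/-!
[H80 PT CNT]  The number of pairs with given `o, a, z` in a fiber (NEW, stronger statement, 20:20).

Model: `Lab.lcnt` (Pool/Agent/H12/EH/Lcnt.lean) and its use in `acnt3_one` (Pool/Agent/H12/EH/Acnt3.lean): take over from there `K`, `W`,
`α`, `g` (squarefree, odd, prime to `K`, `L ≤ g K³`, `g ≤ 2 L`) for the label `lab3r e o.succ a`.
`T = ∅` is trivial; choose `y p` for `p ∈ T` and a base point `p₀ ∈ T`, `b = y p₀`, `N = z²`.  Class of `p`: the four divisors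
`gcd(N, y_i b_0 ∓ b_i y_0)`, `i = 1, 2`, of `N` and `gcd(g, |B(b, y)|)` (`τ(N)⁴ τ(g)` classes, divisor bound
`H5.W.divisor_bound`, small exponent).  Two different points `p, p'` of one class: with `i = 1, 2` let `u` be the index with
`o.succ.succAbove i = u.succ`, `u ≠ o` (the form is `r - e_u s = a_i y_i²`), while `o.succ.succAbove 0 = 0`, the form
`s = a_0 y_0²`.  `a_i y_i² = (r - e_o s) + (e_o - e_u) s ≡ (e_o - e_u) a_0 y_0²  (mod N)`, the same for `p₀`, so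
`N ∣ a_i (y_i² b_0² - b_i² y_0²)`.  `lcm1` (with `cop0`, `gcdE`, `gcdA`, `E = 2 ∏_{i<j} |e_i - e_j|`, `F = E`), `lcm2`:
`M = gcd(M₁, M₂)`, `N ≤ M (F E)²`, and `Bdvd`: `M² ∣ 2 B`.  `g ∣ B` by `Lab.cls` exactly as in `lcnt`.  `gcd(M, g) = 1`: a prime
`q ∣ g` divides some `a_i` and does not divide `K`; if `q ∣ z` then `q ∣ r - e_o s` and `q ∣ frm e (o.succ.succAbove i) r s`, so `q` divides
`e_o - e_u` (or 1): `copMg`.  So `M² g ∣ 2 B`, `B ≠ 0` (`B_ne`, `cross_ne`), `M² g ≤ 2 |B| ≤ W (x - x')² S / lam` (`Lab.B_le` with `m = 1`,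
all `y > 0`; `√(s s') ≤ 2 S`).  So `|x - x'| ≥ M √(g lam / (W S))` and `spc` with `L = 4 lam`, `a = e_v - 2 lam` gives at most
`1 + 4 √(W S lam / g) / M ≤ 1 + C √(S lam / L) / z²` points in the class.
-/

set_option autoImplicit false

namespace Pool.Agent.H80.PT

open Pool.Agent.H12.EH

/-- the number of points, in terms of the divisor numbers -/
private theorem cnt_aux {e : Fin 3 → ℤ} (he : ∀ i j, i ≠ j → e i ≠ e j) {W : ℝ}
    (hWdef : W = 1 + ∑ o : Fin 4, ∑ v : Fin 3, ‖((frw e o v : ℤ) : ℂ)‖ *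
      ‖((frl (o.succAbove v) : ℤ) : ℂ)‖ ^ 2)
    {o v : Fin 3} {S lam : ℝ} (hS : 0 < S) (hlam : 0 < lam) {a : Fin 3 → ℤ} (ha : ∀ i, a i ≠ 0)
    {g : ℕ} (hg0 : 0 < g) (hgsq : Squarefree g) (hodd : ¬ 2 ∣ g)
    (hga : ∀ q : ℕ, q.Prime → q ∣ g → ∃ i, (q : ℤ) ∣ a i)
    (hgw : ∀ q : ℕ, q.Prime → q ∣ g → ∀ (o : Fin 4) (v : Fin 3), ¬ (q : ℤ) ∣ frw e o v)
    {z : ℕ} (hz : 0 < z) (T : Finset (ℤ × ℤ))
    (hT : ∀ p ∈ T, Fib (fun v => (e v : ℂ)) v S lam p.1 p.2 ∧ ∃ y : Fin 3 → ℤ, Sp e o a z p.1 p.2 y) :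
    (T.card : ℝ) ≤ ((z ^ 2).divisors.card : ℝ) ^ 6 * g.divisors.card *
      (1 + 4 * (((2 * Del e ^ 2) ^ 2 : ℕ) : ℝ) * √(W * S * lam / g) / (z : ℝ) ^ 2) := by
  classical
  have hW0 : 0 < W := by
    have : 0 ≤ ∑ o : Fin 4, ∑ v : Fin 3, ‖((frw e o v : ℤ) : ℂ)‖ *
      ‖((frl (o.succAbove v) : ℤ) : ℂ)‖ ^ 2 :=
      Finset.sum_nonneg (fun o _ => Finset.sum_nonneg (fun v _ => by positivity))
    linarith
  have hzR : (0 : ℝ) < (z : ℝ) := by exact_mod_cast hz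
  have hgR : (0 : ℝ) < (g : ℝ) := by exact_mod_cast hg0
  rcases T.eq_empty_or_nonempty with hTe | ⟨p0, hp0⟩
  · rw [hTe, Finset.card_empty, Nat.cast_zero]
    positivity
  have hWo : ∑ v : Fin 3, ‖(lab3r e o.succ a).w v‖ * ‖(lab3r e o.succ a).l v‖ ^ 2 ≤ W := by
    have h1 : ∑ v : Fin 3, ‖((frw e o.succ v : ℤ) : ℂ)‖ * ‖((frl (o.succ.succAbove v) : ℤ) : ℂ)‖ ^ 2 ≤
        ∑ o : Fin 4, ∑ v : Fin 3, ‖((frw e o v : ℤ) : ℂ)‖ *
          ‖((frl (o.succAbove v) : ℤ) : ℂ)‖ ^ 2 :=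
      Finset.single_le_sum (f := fun o : Fin 4 => ∑ v : Fin 3, ‖((frw e o v : ℤ) : ℂ)‖ *
          ‖((frl (o.succAbove v) : ℤ) : ℂ)‖ ^ 2)
        (fun o _ => Finset.sum_nonneg (fun v _ => by positivity)) (Finset.mem_univ o.succ)
    have h2 : ∑ v : Fin 3, ‖(lab3r e o.succ a).w v‖ * ‖(lab3r e o.succ a).l v‖ ^ 2 =
        ∑ v : Fin 3, ‖((frw e o.succ v : ℤ) : ℂ)‖ *
          ‖((frl (o.succ.succAbove v) : ℤ) : ℂ)‖ ^ 2 := rfl
    rw [h2]
    linarith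
  have hok := lab3r_ok he o.succ ha
  have hm1 : ((lab3r e o.succ a).m : ℝ) = 1 := by
    show (((1 : ℕ)) : ℝ) = 1
    norm_num
  have hex : ∀ p ∈ T, ∃ y : Fin 3 → ℤ, Sp e o a z p.1 p.2 y := fun p hp => (hT p hp).2
  choose! y hy using hex
  obtain ⟨N, hNdef⟩ : ∃ N : ℕ, N = z ^ 2 := ⟨_, rfl⟩
  have hN : 0 < N := by rw [hNdef]; positivity
  -- the classes
  obtain ⟨κ, hκ⟩ : ∃ κ : ℤ × ℤ → (Fin 3 → ℕ × ℕ) × ℕ, κ = fun p =>
      (fun i => (Int.gcd ((z ^ 2 : ℕ) : ℤ) (y p i * y p0 0 - y p0 i * y p 0),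
        Int.gcd ((z ^ 2 : ℕ) : ℤ) (y p i * y p0 0 + y p0 i * y p 0)),
        Nat.gcd g ((lab3r e o.succ a).B (y p0) (y p)).natAbs) := ⟨_, rfl⟩
  obtain ⟨U, hU⟩ : ∃ U : Finset ((Fin 3 → ℕ × ℕ) × ℕ),
      U = (Fintype.piFinset fun _ => N.divisors ×ˢ N.divisors) ×ˢ g.divisors := ⟨_, rfl⟩
  have hUc : (U.card : ℝ) = (N.divisors.card : ℝ) ^ 6 * g.divisors.card := by
    rw [hU, Finset.card_product, Fintype.card_piFinset_const, Finset.card_product]
    push_cast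
    ring
  have hgd : ∀ x : ℤ, Int.gcd ((z ^ 2 : ℕ) : ℤ) x ∈ N.divisors := by
    intro x
    rw [hNdef]
    refine Nat.mem_divisors.2 ⟨?_, by positivity⟩
    exact_mod_cast Int.gcd_dvd_left ((z ^ 2 : ℕ) : ℤ) x
  have hmap : T.image κ ⊆ U := by
    intro c hc
    obtain ⟨p, -, rfl⟩ := Finset.mem_image.1 hc
    rw [hU, Finset.mem_product, hκ]
    refine ⟨Fintype.mem_piFinset.2 fun i => Finset.mem_product.2 ⟨hgd _, hgd _⟩, ?_⟩
    exact Nat.mem_divisors.2 ⟨Nat.gcd_dvd_left _ _, hg0.ne'⟩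
  obtain ⟨D, hDdef⟩ : ∃ D : ℕ, D = (2 * Del e ^ 2) ^ 2 := ⟨_, rfl⟩
  have hD0 : 0 < D := by
    have := Del_pos he
    rw [hDdef]
    positivity
  rw [← hDdef]
  have hDR : (0 : ℝ) < (D : ℝ) := by exact_mod_cast hD0
  obtain ⟨M0, hM0def⟩ : ∃ M0 : ℝ, M0 = (z : ℝ) ^ 2 / (D : ℝ) := ⟨_, rfl⟩
  have hM0 : 0 < M0 := by rw [hM0def]; positivity
  obtain ⟨σ, hσdef⟩ : ∃ σ : ℝ, σ = M0 * √(g * lam / (W * S)) := ⟨_, rfl⟩
  have hσ : 0 < σ := by
    rw [hσdef]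
    exact mul_pos hM0 (Real.sqrt_pos.2 (by positivity))
  have hinv : 4 * lam / σ = 4 * (D : ℝ) * √(W * S * lam / g) / (z : ℝ) ^ 2 := by
    have h1 : √(g * lam / (W * S)) * √(W * S * lam / g) = lam := by
      rw [← Real.sqrt_mul (by positivity)]
      have h2 : g * lam / (W * S) * (W * S * lam / g) = lam ^ 2 := by
        field_simp
      rw [h2, Real.sqrt_sq hlam.le]
    rw [div_eq_iff hσ.ne', hσdef, hM0def]
    have h4 : 4 * (D : ℝ) * √(W * S * lam / g) / (z : ℝ) ^ 2 *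
        ((z : ℝ) ^ 2 / (D : ℝ) * √(g * lam / (W * S))) =
        4 * (√(g * lam / (W * S)) * √(W * S * lam / g)) := by
      field_simp
    rw [h4, h1]
  have hfib : ∀ c : (Fin 3 → ℕ × ℕ) × ℕ, ((T.filter fun p => κ p = c).card : ℝ) ≤
      1 + 4 * (D : ℝ) * √(W * S * lam / g) / (z : ℝ) ^ 2 := by
    intro c
    rw [← hinv]
    refine spc _ (fun p : ℤ × ℤ => (p.1 : ℝ) / p.2) ((e v : ℝ) - 2 * lam) (4 * lam) σ hσ (by positivity) ?_ ?_
    · intro p hp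
      have hp1 := (Finset.mem_filter.1 hp).1
      obtain ⟨hf, -⟩ := hT p hp1
      obtain ⟨f1, f2, f3, f4⟩ := hf
      have hs : 0 < p.2 := (hy p hp1).2.1
      have hs' : (0 : ℝ) < (p.2 : ℝ) := by exact_mod_cast hs
      have hre : |(p.1 : ℝ) - e v * p.2| ≤ 2 * lam * p.2 := by
        have h1 : ‖(p.1 : ℂ) - (e v : ℂ) * p.2‖ = |(p.1 : ℝ) - e v * p.2| := by
          rw [← Real.norm_eq_abs, ← Complex.norm_real]
          push_cast
          rfl
        rw [← h1]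
        exact f4
      have hre2 : |(p.1 : ℝ) / p.2 - e v| ≤ 2 * lam := by
        have h1 : (p.1 : ℝ) / p.2 - e v = ((p.1 : ℝ) - e v * p.2) / p.2 := by
          field_simp
        rw [h1, abs_div, abs_of_pos hs', div_le_iff₀ hs']
        exact hre
      rw [abs_le] at hre2
      constructor
      · linarith [hre2.1]
      · linarith [hre2.2]
    · intro p hp p' hp' hne
      rw [Finset.mem_filter] at hp hp'
      obtain ⟨hp1, hp2⟩ := hp
      obtain ⟨hp1', hp2'⟩ := hp'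
      have hκ' : κ p = κ p' := hp2.trans hp2'.symm
      rw [hκ] at hκ'
      have hfn := congrArg Prod.fst hκ'
      have hgc : Nat.gcd g ((lab3r e o.succ a).B (y p0) (y p)).natAbs =
          Nat.gcd g ((lab3r e o.succ a).B (y p0) (y p')).natAbs := congrArg Prod.snd hκ'
      have hA : ∀ i : Fin 3, Int.gcd ((z ^ 2 : ℕ) : ℤ) (y p i * y p0 0 - y p0 i * y p 0) =
          Int.gcd ((z ^ 2 : ℕ) : ℤ) (y p' i * y p0 0 - y p0 i * y p' 0) :=
        fun i => congrArg Prod.fst (congrFun hfn i)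
      have hSg : ∀ i : Fin 3, Int.gcd ((z ^ 2 : ℕ) : ℤ) (y p i * y p0 0 + y p0 i * y p 0) =
          Int.gcd ((z ^ 2 : ℕ) : ℤ) (y p' i * y p0 0 + y p0 i * y p' 0) :=
        fun i => congrArg Prod.snd (congrFun hfn i)
      have hyp := hy p hp1
      have hyp' := hy p' hp1'
      have hy0 := hy p0 hp0
      obtain ⟨M, hMz, hMd, hMl⟩ := pairM he ha hz hyp hyp' hy0 hA hSg
      have hcop : Nat.Coprime M g := copMg hyp hMz hga hgw
      obtain ⟨c1, c2, c3, c4, c5⟩ := hyp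
      obtain ⟨d1, d2, d3, d4, d5⟩ := hyp'
      obtain ⟨b1, b2, b3, b4, b5⟩ := hy0
      obtain ⟨-, f2, f3, -⟩ := (hT p hp1).1
      obtain ⟨-, g2, g3, -⟩ := (hT p' hp1').1
      have hpt := lab3r_pt (e := e) o.succ c4
      have hpt' := lab3r_pt (e := e) o.succ d4
      have hpt0 := lab3r_pt (e := e) o.succ b4
      have hBne : (lab3r e o.succ a).B (y p) (y p') ≠ 0 :=
        Lab.B_ne hok hpt hpt' (cross_ne c1 d1 c2 d2 hne)
      have hgB : (g : ℤ) ∣ (lab3r e o.succ a).B (y p) (y p') :=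
        Lab.cls hok hgsq hodd
          (by
            intro q hq hqg
            obtain ⟨i, hi⟩ := hga q hq hqg
            exact hi.trans (lab3r_det o.succ a i))
          (Lab.B_self hok hpt0) (Lab.B_self hok hpt) (Lab.B_self hok hpt')
          (by
            intro q hq hqg
            exact lab3r_ne o.succ b1 b4 hq (hgw q hq hqg o.succ))
          hgc
      obtain ⟨β, hβ⟩ : ∃ β : ℤ, β = (lab3r e o.succ a).B (y p) (y p') := ⟨_, rfl⟩
      rw [← hβ] at hBne hgB hMd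
      have hMg : ((M : ℤ) ^ 2 * (g : ℤ)) ∣ 2 * β := by
        have h1 : IsCoprime ((M : ℤ) ^ 2) (g : ℤ) := (Nat.isCoprime_iff_coprime.mpr hcop).pow_left
        exact h1.mul_dvd hMd (hgB.mul_left 2)
      have hMB : (M : ℝ) ^ 2 * g ≤ 2 * |(β : ℝ)| := by
        have h1 : (M : ℤ) ^ 2 * (g : ℤ) ≤ |2 * β| :=
          Int.le_of_dvd (abs_pos.2 (mul_ne_zero two_ne_zero hBne)) ((dvd_abs _ _).2 hMg)
        have h2 : (((M : ℤ) ^ 2 * (g : ℤ) : ℤ) : ℝ) ≤ ((|2 * β| : ℤ) : ℝ) := by exact_mod_cast h1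
        push_cast at h2
        rw [abs_mul, abs_two] at h2
        exact h2
      have hform : ∀ (q : ℤ × ℤ), (∀ u, lam * q.2 ≤ ‖(q.1 : ℂ) - (e u : ℂ) * q.2‖) →
          ∀ u, (lab3r e o.succ a).l u ≠ 0 →
          lam * q.2 ≤ ‖(lab3r e o.succ a).l u * (q.1 : ℂ) + (lab3r e o.succ a).k u * (q.2 : ℂ)‖ := by
        intro q hq u hu
        have hu' : frl (o.succ.succAbove u) ≠ 0 := by
          intro h
          apply hu
          show ((frl (o.succ.succAbove u) : ℤ) : ℂ) = 0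
          rw [h]
          simp
        obtain ⟨w, hw1, hw2⟩ := acnt3_form e _ hu'
        have h1 : (lab3r e o.succ a).l u * (q.1 : ℂ) + (lab3r e o.succ a).k u * (q.2 : ℂ) =
            (q.1 : ℂ) - (e w : ℂ) * q.2 := by
          show ((frl (o.succ.succAbove u) : ℤ) : ℂ) * (q.1 : ℂ) +
            ((frk e (o.succ.succAbove u) : ℤ) : ℂ) * (q.2 : ℂ) = _
          rw [hw1, hw2]
          push_cast
          ring
        rw [h1]
        exact hq w
      have hu : ∀ (ζ : Fin 3 → ℤ) (v : Fin 3), (lab3r e o.succ a).u ζ v = (ζ v : ℂ) := by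
        intro ζ v
        unfold Lab.u
        simp [lab3r]
      have hre : ∀ v, 0 ≤ ((lab3r e o.succ a).u (y p) v *
          (starRingEnd ℂ) ((lab3r e o.succ a).u (y p') v)).re := by
        intro v
        rw [hu, hu]
        have h1 : ((y p v : ℤ) : ℂ) * (starRingEnd ℂ) ((y p' v : ℤ) : ℂ) =
            (((y p v * y p' v : ℤ) : ℝ) : ℂ) := by
          rw [map_intCast]
          push_cast
          ring
        rw [h1, Complex.ofReal_re]
        have h2 : 0 ≤ y p v * y p' v := (mul_pos (c3 v) (d3 v)).le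
        exact_mod_cast h2
      have hB := Lab.B_le hok hpt hpt' c2 d2 hre hlam (hform p f3) (hform p' g3)
      rw [← hβ, hm1, one_pow, mul_one] at hB
      have c2R : (0 : ℝ) < (p.2 : ℝ) := by exact_mod_cast c2
      have d2R : (0 : ℝ) < (p'.2 : ℝ) := by exact_mod_cast d2
      have hsq : √((p.2 : ℝ) * p'.2) ≤ 2 * S := by
        rw [show (2 * S) = √((2 * S) * (2 * S)) from (Real.sqrt_mul_self (by positivity)).symm]
        refine Real.sqrt_le_sqrt ?_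
        exact mul_le_mul f2 g2 d2R.le (by positivity)
      obtain ⟨x, hx⟩ : ∃ x : ℝ, x = (p.1 : ℝ) / p.2 := ⟨_, rfl⟩
      obtain ⟨x', hx'⟩ : ∃ x' : ℝ, x' = (p'.1 : ℝ) / p'.2 := ⟨_, rfl⟩
      rw [← hx, ← hx'] at hB
      have hle : (M : ℝ) ^ 2 * g ≤ W * (x - x') ^ 2 * S / lam := by
        have h1 : |(β : ℝ)| ≤ W * (x - x') ^ 2 * (2 * S) / (4 * lam) := by
          refine hB.trans (div_le_div_of_nonneg_right ?_ (by positivity))
          refine mul_le_mul ?_ hsq (Real.sqrt_nonneg _) (by positivity)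
          exact mul_le_mul_of_nonneg_right hWo (sq_nonneg _)
        have h2 : 2 * (W * (x - x') ^ 2 * (2 * S) / (4 * lam)) = W * (x - x') ^ 2 * S / lam := by
          field_simp
          ring
        linarith
      have hM0M : M0 ≤ M := by
        rw [hM0def, div_le_iff₀ hDR]
        have h1 : ((z ^ 2 : ℕ) : ℝ) ≤ ((M * D : ℕ) : ℝ) := by
          rw [hDdef]
          exact_mod_cast hMl
        push_cast at h1
        exact h1
      have hle2 : M0 ^ 2 * (g * lam / (W * S)) ≤ (x - x') ^ 2 := by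
        have h1 : M0 ^ 2 * g ≤ W * (x - x') ^ 2 * S / lam := by
          refine le_trans ?_ hle
          exact mul_le_mul_of_nonneg_right (pow_le_pow_left₀ hM0.le hM0M 2) hgR.le
        rw [le_div_iff₀ hlam] at h1
        rw [← mul_div_assoc, div_le_iff₀ (by positivity)]
        linarith
      show σ ≤ |(p.1 : ℝ) / p.2 - (p'.1 : ℝ) / p'.2|
      rw [← hx, ← hx', ← Real.sqrt_sq_eq_abs, hσdef]
      have h5 : M0 * √(g * lam / (W * S)) = √(M0 ^ 2 * (g * lam / (W * S))) := by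
        rw [Real.sqrt_mul (by positivity), Real.sqrt_sq hM0.le]
      rw [h5]
      exact Real.sqrt_le_sqrt hle2
  have h1 : (T.card : ℝ) = ∑ c ∈ T.image κ, ((T.filter fun p => κ p = c).card : ℝ) := by
    rw [Finset.card_eq_sum_card_image κ T, Nat.cast_sum]
  rw [h1, ← hNdef, ← hUc]
  refine (Finset.sum_le_sum fun c _ => hfib c).trans ?_
  rw [Finset.sum_const, nsmul_eq_mul]
  refine mul_le_mul_of_nonneg_right ?_ (by positivity)
  exact_mod_cast Finset.card_le_card hmap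

theorem cnt {e : Fin 3 → ℤ} (he : ∀ i j, i ≠ j → e i ≠ e j) (ε : ℝ) (hε : 0 < ε) : ∃ C : ℝ, 0 < C ∧
    ∀ (o v : Fin 3) (S lam L : ℝ), 0 < S → 0 < lam → 1 ≤ L → ∀ (a : Fin 3 → ℤ), (∀ i, Squarefree (a i)) →
    L ≤ |((∏ i, a i : ℤ) : ℝ)| → |((∏ i, a i : ℤ) : ℝ)| ≤ 2 * L → ∀ z : ℕ, 0 < z →
    ∀ T : Finset (ℤ × ℤ), (∀ p ∈ T, Fib (fun v => (e v : ℂ)) v S lam p.1 p.2 ∧ ∃ y : Fin 3 → ℤ, Sp e o a z p.1 p.2 y) →
    (T.card : ℝ) ≤ C * L ^ ε * (z : ℝ) ^ ε * (1 + √(S * lam / L) / (z : ℝ) ^ 2) := by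
  classical
  obtain ⟨C1, hC1, hdiv⟩ := Pool.Agent.H5.W.divisor_bound (ε / 12) (by positivity)
  obtain ⟨C2, hC2, hdiv2⟩ := Pool.Agent.H5.W.divisor_bound ε hε
  set K : ℕ := 2 * ∏ o : Fin 4, ∏ v : Fin 3, (frw e o v).natAbs with hK
  have hK0 : 0 < K := by
    rw [hK]
    refine Nat.mul_pos two_pos (Finset.prod_pos (fun o _ => Finset.prod_pos (fun v _ => ?_)))
    exact Int.natAbs_pos.mpr (frw_ne he o v)
  have hKd : ∀ (o : Fin 4) (v : Fin 3), frw e o v ∣ (K : ℤ) := by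
    intro o v
    rw [← Int.natAbs_dvd_natAbs, Int.natAbs_natCast, hK]
    exact ((Finset.dvd_prod_of_mem (fun v => (frw e o v).natAbs) (Finset.mem_univ v)).trans
      (Finset.dvd_prod_of_mem (fun o => ∏ v : Fin 3, (frw e o v).natAbs)
        (Finset.mem_univ o))).trans (Dvd.intro_left _ rfl)
  obtain ⟨W, hW⟩ : ∃ W : ℝ, W = 1 + ∑ o : Fin 4, ∑ v : Fin 3, ‖((frw e o v : ℤ) : ℂ)‖ *
    ‖((frl (o.succAbove v) : ℤ) : ℂ)‖ ^ 2 := ⟨_, rfl⟩
  have hW0 : 0 < W := by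
    have : 0 ≤ ∑ o : Fin 4, ∑ v : Fin 3, ‖((frw e o v : ℤ) : ℂ)‖ *
      ‖((frl (o.succAbove v) : ℤ) : ℂ)‖ ^ 2 :=
      Finset.sum_nonneg (fun o _ => Finset.sum_nonneg (fun v _ => by positivity))
    linarith
  obtain ⟨D, hD⟩ : ∃ D : ℝ, D = (((2 * Del e ^ 2) ^ 2 : ℕ) : ℝ) := ⟨_, rfl⟩
  have hD0 : 0 ≤ D := by rw [hD]; positivity
  refine ⟨C1 ^ 6 * (C2 * 2 ^ ε) * (1 + 4 * D * √(W * (K : ℝ) ^ 3)), by positivity, ?_⟩
  intro o v S lam L hS hlam hL a hsq hLa haL z hz T hT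
  rcases T.eq_empty_or_nonempty with hTe | ⟨p0, hp0⟩
  · rw [hTe, Finset.card_empty, Nat.cast_zero]
    positivity
  have hL0 : 0 < L := by linarith
  have hzR : (0 : ℝ) < (z : ℝ) := by exact_mod_cast hz
  set α : Fin 3 → ℕ := fun i => (a i).natAbs / Nat.gcd (a i).natAbs K with hα
  set g : ℕ := ∏ i, α i with hg
  have ha0 : ∀ i, (a i).natAbs ≠ 0 := fun i => Int.natAbs_ne_zero.mpr (hsq i).ne_zero
  have hsqn : ∀ i, Squarefree (a i).natAbs := fun i => Int.squarefree_natAbs.mpr (hsq i)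
  have hF1 : ∀ i, α i * Nat.gcd (a i).natAbs K = (a i).natAbs := fun i =>
    Nat.div_mul_cancel (Nat.gcd_dvd_left _ _)
  have hαd : ∀ i, α i ∣ (a i).natAbs := fun i => ⟨_, (hF1 i).symm⟩
  have hα0 : ∀ i, 0 < α i := fun i => Nat.pos_of_ne_zero (fun h => ha0 i (by
    rw [← hF1 i, h, zero_mul]))
  have hF2 : ∀ i (q : ℕ), q.Prime → q ∣ α i → ¬ q ∣ K := by
    intro i q hq hqi hqK
    have h1 : q ∣ Nat.gcd (a i).natAbs K := Nat.dvd_gcd (hqi.trans (hαd i)) hqK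
    have h2 : q * q ∣ (a i).natAbs := by
      rw [← hF1 i]
      exact mul_dvd_mul hqi h1
    have := hsqn i q h2
    exact hq.one_lt.ne' (Nat.isUnit_iff.mp this)
  have hqw : ∀ q : ℕ, ¬ q ∣ K → ∀ (o : Fin 4) (v : Fin 3), ¬ (q : ℤ) ∣ frw e o v := by
    intro q hq o v h
    exact hq (Int.natCast_dvd_natCast.mp (h.trans (hKd o v)))
  have hqa : ∀ i (q : ℕ), q ∣ α i → (q : ℤ) ∣ a i := by
    intro i q h
    exact Int.natCast_dvd.mpr (h.trans (hαd i))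
  have hcop : ∀ i j, i ≠ j → Nat.Coprime (α i) (α j) := by
    intro i j hij
    refine Nat.Coprime.symm (Nat.coprime_of_dvd ?_)
    intro q hq hqj hqi
    obtain ⟨_, y, hrs, _, _, hy, _⟩ := hT p0 hp0
    refine lab3r_gcd o.succ hrs hy hq (hqw q (hF2 i q hq hqi) o.succ) hij ?_ ?_
    · rw [hy i]
      exact (hqa i q hqi).mul_right _
    · rw [hy j]
      exact (hqa j q hqj).mul_right _
  have hg3 : g = α 0 * α 1 * α 2 := by rw [hg, Fin.prod_univ_three]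
  have hg0 : 0 < g := by
    rw [hg]
    exact Finset.prod_pos (fun i _ => hα0 i)
  have hgsq : Squarefree g := by
    rw [hg3, Nat.squarefree_mul (Nat.Coprime.mul_left (hcop 0 2 (by decide)) (hcop 1 2 (by decide))),
      Nat.squarefree_mul (hcop 0 1 (by decide))]
    exact ⟨⟨(hsqn 0).squarefree_of_dvd (hαd 0), (hsqn 1).squarefree_of_dvd (hαd 1)⟩,
      (hsqn 2).squarefree_of_dvd (hαd 2)⟩
  have hprime : ∀ q : ℕ, q.Prime → q ∣ g → ∃ i, q ∣ α i := by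
    intro q hq hqg
    rw [hg] at hqg
    obtain ⟨i, _, hi⟩ := (hq.prime.dvd_finsetProd_iff _).mp hqg
    exact ⟨i, hi⟩
  have hodd : ¬ 2 ∣ g := by
    intro h2
    obtain ⟨i, hi⟩ := hprime 2 Nat.prime_two h2
    exact hF2 i 2 Nat.prime_two hi (hK ▸ Dvd.intro _ rfl)
  have habs : |((∏ i, a i : ℤ) : ℝ)| = (((a 0).natAbs * (a 1).natAbs * (a 2).natAbs : ℕ) : ℝ) := by
    rw [Fin.prod_univ_three]
    push_cast
    rw [abs_mul, abs_mul]
    simp only [Nat.cast_natAbs, Int.cast_abs]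
  have hgK : L ≤ g * (K : ℝ) ^ 3 := by
    refine hLa.trans ?_
    rw [habs]
    have h1 : (a 0).natAbs * (a 1).natAbs * (a 2).natAbs ≤ g * K ^ 3 := by
      rw [← hF1 0, ← hF1 1, ← hF1 2, hg3]
      have h2 : ∀ i, Nat.gcd (a i).natAbs K ≤ K := fun i => Nat.gcd_le_right _ hK0
      calc α 0 * Nat.gcd (a 0).natAbs K * (α 1 * Nat.gcd (a 1).natAbs K) *
            (α 2 * Nat.gcd (a 2).natAbs K)
          = (α 0 * α 1 * α 2) * (Nat.gcd (a 0).natAbs K * Nat.gcd (a 1).natAbs K *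
              Nat.gcd (a 2).natAbs K) := by ring
        _ ≤ (α 0 * α 1 * α 2) * (K * K * K) :=
            Nat.mul_le_mul_left _ (Nat.mul_le_mul (Nat.mul_le_mul (h2 0) (h2 1)) (h2 2))
        _ = _ := by ring
    exact_mod_cast h1
  have hg2L : (g : ℝ) ≤ 2 * L := by
    refine le_trans ?_ haL
    rw [habs]
    have h1 : g ≤ (a 0).natAbs * (a 1).natAbs * (a 2).natAbs := by
      rw [hg3]
      exact Nat.mul_le_mul (Nat.mul_le_mul (Nat.le_of_dvd (Nat.pos_of_ne_zero (ha0 0)) (hαd 0))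
        (Nat.le_of_dvd (Nat.pos_of_ne_zero (ha0 1)) (hαd 1)))
        (Nat.le_of_dvd (Nat.pos_of_ne_zero (ha0 2)) (hαd 2))
    exact_mod_cast h1
  have hane : ∀ i, a i ≠ 0 := fun i => (hsq i).ne_zero
  have hmain := cnt_aux he hW (o := o) (v := v) hS hlam hane hg0 hgsq hodd
    (by
      intro q hq hqg
      obtain ⟨i, hi⟩ := hprime q hq hqg
      exact ⟨i, hqa i q hi⟩)
    (by
      intro q hq hqg
      obtain ⟨i, hi⟩ := hprime q hq hqg
      exact hqw q (hF2 i q hq hi))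
    hz T hT
  rw [← hD] at hmain
  have hg0' : (0 : ℝ) < g := by exact_mod_cast hg0
  have hK0' : (0 : ℝ) < K := by exact_mod_cast hK0
  have hsqrt : √(W * S * lam / g) ≤ √(W * (K : ℝ) ^ 3) * √(S * lam / L) := by
    rw [← Real.sqrt_mul (by positivity)]
    refine Real.sqrt_le_sqrt ?_
    have h2 : W * S * lam / g = W * (S * lam) * (1 / g) := by ring
    have h3 : W * (K : ℝ) ^ 3 * (S * lam / L) = W * (S * lam) * ((K : ℝ) ^ 3 / L) := by ring
    rw [h2, h3]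
    refine mul_le_mul_of_nonneg_left ?_ (by positivity)
    rw [div_le_div_iff₀ hg0' hL0]
    linarith
  have htau : (g.divisors.card : ℝ) ≤ C2 * 2 ^ ε * L ^ ε := by
    refine (hdiv2 g hg0).trans ?_
    rw [mul_assoc]
    refine mul_le_mul_of_nonneg_left ?_ hC2.le
    rw [← Real.mul_rpow (by norm_num) hL0.le]
    exact Real.rpow_le_rpow hg0'.le hg2L hε.le
  have htau2 : ((z ^ 2).divisors.card : ℝ) ^ 6 ≤ C1 ^ 6 * (z : ℝ) ^ ε := by
    have h1 := hdiv (z ^ 2) (Nat.one_le_iff_ne_zero.mpr (by positivity))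
    have h2 : (((z ^ 2 : ℕ) : ℝ) ^ (ε / 12)) ^ 6 = (z : ℝ) ^ ε := by
      push_cast
      rw [← Real.rpow_natCast (z : ℝ) 2, ← Real.rpow_mul hzR.le, ← Real.rpow_natCast _ 6,
        ← Real.rpow_mul hzR.le]
      congr 1
      push_cast
      ring
    calc ((z ^ 2).divisors.card : ℝ) ^ 6 ≤ (C1 * ((z ^ 2 : ℕ) : ℝ) ^ (ε / 12)) ^ 6 :=
          pow_le_pow_left₀ (Nat.cast_nonneg _) h1 6
      _ = C1 ^ 6 * (z : ℝ) ^ ε := by rw [mul_pow, h2]
  obtain ⟨R, hR⟩ : ∃ R : ℝ, R = √(S * lam / L) / (z : ℝ) ^ 2 := ⟨_, rfl⟩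
  obtain ⟨Q, hQ⟩ : ∃ Q : ℝ, Q = 4 * D * √(W * (K : ℝ) ^ 3) := ⟨_, rfl⟩
  have hR0 : 0 ≤ R := by rw [hR]; positivity
  have hQ0 : 0 ≤ Q := by rw [hQ]; positivity
  have hlast : 4 * D * √(W * S * lam / g) / (z : ℝ) ^ 2 ≤ Q * R := by
    have h1 : 4 * D * √(W * S * lam / g) ≤ 4 * D * (√(W * (K : ℝ) ^ 3) * √(S * lam / L)) :=
      mul_le_mul_of_nonneg_left hsqrt (by positivity)
    have h2 : Q * R = 4 * D * (√(W * (K : ℝ) ^ 3) * √(S * lam / L)) / (z : ℝ) ^ 2 := by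
      rw [hQ, hR]
      ring
    rw [h2]
    exact div_le_div_of_nonneg_right h1 (by positivity)
  rw [← hR, ← hQ]
  have hz' : 0 ≤ (z : ℝ) ^ ε := by positivity
  have hL' : 0 ≤ L ^ ε := by positivity
  calc (T.card : ℝ) ≤ ((z ^ 2).divisors.card : ℝ) ^ 6 * g.divisors.card *
        (1 + 4 * D * √(W * S * lam / g) / (z : ℝ) ^ 2) := hmain
    _ ≤ ((C1 ^ 6 * (z : ℝ) ^ ε) * (C2 * 2 ^ ε * L ^ ε)) * (1 + Q * R) := by
        refine mul_le_mul (mul_le_mul htau2 htau (Nat.cast_nonneg _) (by positivity))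
          (by linarith) (by positivity) (by positivity)
    _ ≤ ((C1 ^ 6 * (z : ℝ) ^ ε) * (C2 * 2 ^ ε * L ^ ε)) * ((1 + Q) * (1 + R)) := by
        refine mul_le_mul_of_nonneg_left ?_ (by positivity)
        nlinarith
    _ = _ := by ring

end Pool.Agent.H80.PT
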