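import Pool.Agent.H80.PT.Main
import Pool.Agent.H12.EH.Unif
import Pool.Agent.H12.EH.Dya

/-!
[H80 PT COR]  Almost all twists.

`badP A B X ε`: the squarefree `d ≤ X` with a prime factor `q` such that `η_d ≤ max(q^(3/2), (d q)^(1/2)) X^(-ε)`.  With `2^j ≤ q < 2^(j+1)`,
`Q = 2^j`, `D = X / Q`, `Y = max(1, max((2Q)^(3/2), (2XQ)^(1/2)) X^(-ε))` such a `d` is in `lowP A B X Y D`; `perQ` bounds this by
`C X^(1 - ε/4)`: for `Q < X^ε` from `low_unif` (`Y ≤ 3 X^(1/2 - ε/2)`), for `Q ≥ X^ε` from `mainP`, as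
`min(D Y^(2/3), D + √D Y) ≤ 4 X^(1 - ε/2)`.
-/

set_option autoImplicit false

namespace Pool.Agent.H80.PT

open Pool.Agent.H12.EH

/-- the squarefree `d ≤ X` with a prime factor `q` such that `η_d ≤ max(q^(3/2), (d q)^(1/2)) X^(-ε)` -/
def badP (A B : ℤ) (X ε : ℝ) : Set ℕ :=
  {d | ∃ q : ℕ, q.Prime ∧ q ∣ d ∧
    d ∈ low A B X (max ((q : ℝ) ^ (3 / 2 : ℝ)) (((d : ℝ) * q) ^ (1 / 2 : ℝ)) * X ^ (-ε))}

private theorem lowP_fin (A B : ℤ) (X Y D : ℝ) : (lowP A B X Y D).Finite :=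
  (low_fin A B X Y).subset (fun _ hd => hd.1)

/-- one dyadic range of `q` -/
private theorem perQ {A B : ℤ} (hD : 4 * A ^ 3 + 27 * B ^ 2 ≠ 0) (hr : nroots A B = 3) (ε : ℝ) (hε : 0 < ε)
    (hε4 : ε ≤ 1 / 4) : ∃ C : ℝ, 0 < C ∧ ∀ X Q : ℝ, 1 ≤ X → 1 ≤ Q → Q ≤ X →
      ((lowP A B X (max 1 (max ((2 * Q) ^ (3 / 2 : ℝ)) ((X * (2 * Q)) ^ (1 / 2 : ℝ)) * X ^ (-ε))) (X / Q)).ncard : ℝ) ≤
        C * X ^ (1 - ε / 4) := by
  obtain ⟨C1, hC1, h1⟩ := low_unif A B hD (ε / 4) (by positivity)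
  obtain ⟨C2, hC2, h2⟩ := mainP A B hD hr (ε / 4) (by positivity)
  refine ⟨3 * C1 + 5 * C2, by positivity, ?_⟩
  intro X Q hX hQ hQX
  have hX0 : 0 < X := by linarith
  have hQ0 : 0 < Q := by linarith
  have hXn : 0 < X ^ (-ε) := Real.rpow_pos_of_pos hX0 _
  have hS : 0 < X ^ (1 - ε / 4) := Real.rpow_pos_of_pos hX0 _
  have m2 : (2 : ℝ) ^ (1 / 2 : ℝ) ≤ 2 := by
    calc (2 : ℝ) ^ (1 / 2 : ℝ) ≤ (2 : ℝ) ^ (1 : ℝ) := Real.rpow_le_rpow_of_exponent_le (by norm_num) (by norm_num)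
      _ = 2 := Real.rpow_one 2
  have m3 : (2 : ℝ) ^ (3 / 2 : ℝ) ≤ 3 := by
    have e1 : ((2 : ℝ) ^ (3 / 2 : ℝ)) ^ 2 = 8 := by
      rw [← Real.rpow_natCast, ← Real.rpow_mul (by norm_num)]
      norm_num
    have e2 : 0 ≤ (2 : ℝ) ^ (3 / 2 : ℝ) := by positivity
    nlinarith
  obtain ⟨Y, hY⟩ : ∃ Y : ℝ, Y = max 1 (max ((2 * Q) ^ (3 / 2 : ℝ)) ((X * (2 * Q)) ^ (1 / 2 : ℝ)) * X ^ (-ε)) := ⟨_, rfl⟩
  rw [← hY]
  have hY1 : 1 ≤ Y := by rw [hY]; exact le_max_left _ _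
  have hY0 : 0 < Y := by linarith
  rcases lt_or_ge Q (X ^ ε) with hcase | hcase
  · -- small `q`
    have k1 : (2 * Q) ^ (3 / 2 : ℝ) * X ^ (-ε) ≤ 3 * X ^ (1 / 2 - ε / 2) := by
      have e1 : (2 * Q) ^ (3 / 2 : ℝ) ≤ 3 * X ^ (ε * (3 / 2)) := by
        rw [Real.mul_rpow (by norm_num) hQ0.le, Real.rpow_mul hX0.le]
        exact mul_le_mul m3 (Real.rpow_le_rpow hQ0.le hcase.le (by norm_num)) (by positivity) (by norm_num)
      calc (2 * Q) ^ (3 / 2 : ℝ) * X ^ (-ε) ≤ 3 * X ^ (ε * (3 / 2)) * X ^ (-ε) :=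
            mul_le_mul_of_nonneg_right e1 hXn.le
        _ = 3 * X ^ (ε * (3 / 2) + (-ε)) := by rw [mul_assoc, ← Real.rpow_add hX0]
        _ ≤ 3 * X ^ (1 / 2 - ε / 2) :=
            mul_le_mul_of_nonneg_left (Real.rpow_le_rpow_of_exponent_le hX (by linarith)) (by norm_num)
    have k2 : (X * (2 * Q)) ^ (1 / 2 : ℝ) * X ^ (-ε) ≤ 3 * X ^ (1 / 2 - ε / 2) := by
      have e1 : (X * (2 * Q)) ^ (1 / 2 : ℝ) ≤ 3 * (X ^ (1 / 2 : ℝ) * X ^ (ε * (1 / 2))) := by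
        rw [Real.mul_rpow hX0.le (by positivity), Real.mul_rpow (by norm_num) hQ0.le, Real.rpow_mul hX0.le]
        have e2 : Q ^ (1 / 2 : ℝ) ≤ (X ^ ε) ^ (1 / 2 : ℝ) := Real.rpow_le_rpow hQ0.le hcase.le (by norm_num)
        have e3 : (2 : ℝ) ^ (1 / 2 : ℝ) * Q ^ (1 / 2 : ℝ) ≤ 3 * (X ^ ε) ^ (1 / 2 : ℝ) :=
          mul_le_mul (by linarith) e2 (by positivity) (by norm_num)
        have e4 : 0 ≤ X ^ (1 / 2 : ℝ) := by positivity
        calc X ^ (1 / 2 : ℝ) * ((2 : ℝ) ^ (1 / 2 : ℝ) * Q ^ (1 / 2 : ℝ))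
            ≤ X ^ (1 / 2 : ℝ) * (3 * (X ^ ε) ^ (1 / 2 : ℝ)) := mul_le_mul_of_nonneg_left e3 e4
          _ = _ := by ring
      calc (X * (2 * Q)) ^ (1 / 2 : ℝ) * X ^ (-ε) ≤ 3 * (X ^ (1 / 2 : ℝ) * X ^ (ε * (1 / 2))) * X ^ (-ε) :=
            mul_le_mul_of_nonneg_right e1 hXn.le
        _ = 3 * X ^ (1 / 2 + ε * (1 / 2) + (-ε)) := by
            rw [Real.rpow_add hX0, Real.rpow_add hX0]
            ring
        _ = 3 * X ^ (1 / 2 - ε / 2) := by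
            congr 2
            ring
    have hY3 : Y ≤ 3 * X ^ (1 / 2 - ε / 2) := by
      rw [hY, max_mul_of_nonneg _ _ hXn.le]
      refine max_le ?_ (max_le k1 k2)
      have : 1 ≤ X ^ (1 / 2 - ε / 2) := Real.one_le_rpow hX (by linarith)
      linarith
    have hsb : lowP A B X Y (X / Q) ⊆ low A B X Y := fun _ hd => hd.1
    have h3 : ((lowP A B X Y (X / Q)).ncard : ℝ) ≤ ((low A B X Y).ncard : ℝ) := by
      exact_mod_cast Set.ncard_le_ncard hsb (low_fin A B X Y)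
    refine (h3.trans (h1 X Y hX hY1)).trans ?_
    calc C1 * X ^ (1 / 2 + ε / 4) * Y ≤ C1 * X ^ (1 / 2 + ε / 4) * (3 * X ^ (1 / 2 - ε / 2)) :=
          mul_le_mul_of_nonneg_left hY3 (by positivity)
      _ = 3 * C1 * X ^ (1 / 2 + ε / 4 + (1 / 2 - ε / 2)) := by rw [Real.rpow_add hX0 (1 / 2 + ε / 4)]; ring
      _ = 3 * C1 * X ^ (1 - ε / 4) := by congr 2; ring
      _ ≤ (3 * C1 + 5 * C2) * X ^ (1 - ε / 4) := by
          have : 0 ≤ 5 * C2 * X ^ (1 - ε / 4) := by positivity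
          linarith
  · -- large `q`
    have hD1 : 1 ≤ X / Q := by rwa [le_div_iff₀ hQ0, one_mul]
    have hD0 : 0 < X / Q := by linarith
    have hDX : X / Q ≤ X ^ (1 - ε / 2) := by
      rw [div_le_iff₀ hQ0]
      calc X = X ^ (1 - ε) * X ^ ε := by rw [← Real.rpow_add hX0]; ring_nf; rw [Real.rpow_one]
        _ ≤ X ^ (1 - ε / 2) * Q := by
            refine mul_le_mul (Real.rpow_le_rpow_of_exponent_le hX (by linarith)) hcase (by positivity) (by positivity)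
    have hT0 : 0 < X ^ (1 - ε / 2) := Real.rpow_pos_of_pos hX0 _
    have hmin : min (X / Q * Y ^ (2 / 3 : ℝ)) (X / Q + (X / Q) ^ (1 / 2 : ℝ) * Y) ≤ 4 * X ^ (1 - ε / 2) := by
      rcases le_total ((X * (2 * Q)) ^ (1 / 2 : ℝ)) ((2 * Q) ^ (3 / 2 : ℝ)) with hm | hm
      · refine (min_le_left _ _).trans ?_
        have hY2 : Y = max 1 ((2 * Q) ^ (3 / 2 : ℝ) * X ^ (-ε)) := by rw [hY, max_eq_left hm]
        have e1 : Y ^ (2 / 3 : ℝ) ≤ 1 + 2 * Q * X ^ (-(ε / 2)) := by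
          have e0 : 0 ≤ 2 * Q * X ^ (-(ε / 2)) := by positivity
          rcases le_total 1 ((2 * Q) ^ (3 / 2 : ℝ) * X ^ (-ε)) with h | h
          · rw [hY2, max_eq_right h, Real.mul_rpow (by positivity) hXn.le, ← Real.rpow_mul (by positivity),
              ← Real.rpow_mul hX0.le]
            have e2 : (3 / 2 : ℝ) * (2 / 3) = 1 := by norm_num
            rw [e2, Real.rpow_one]
            have e3 : X ^ (-ε * (2 / 3)) ≤ X ^ (-(ε / 2)) := Real.rpow_le_rpow_of_exponent_le hX (by linarith)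
            have := mul_le_mul_of_nonneg_left e3 (by positivity : 0 ≤ 2 * Q)
            linarith
          · rw [hY2, max_eq_left h, Real.one_rpow]
            linarith
        have e4 : X / Q * (1 + 2 * Q * X ^ (-(ε / 2))) = X / Q + 2 * X ^ (1 - ε / 2) := by
          have e5 : X ^ (1 - ε / 2) = X * X ^ (-(ε / 2)) := by
            rw [sub_eq_add_neg, Real.rpow_add hX0, Real.rpow_one]
          rw [e5]
          field_simp
        calc X / Q * Y ^ (2 / 3 : ℝ) ≤ X / Q * (1 + 2 * Q * X ^ (-(ε / 2))) := mul_le_mul_of_nonneg_left e1 hD0.le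
          _ = X / Q + 2 * X ^ (1 - ε / 2) := e4
          _ ≤ 4 * X ^ (1 - ε / 2) := by linarith
      · refine (min_le_right _ _).trans ?_
        have hY2 : Y ≤ 1 + (X * (2 * Q)) ^ (1 / 2 : ℝ) * X ^ (-ε) := by
          rw [hY, max_eq_right hm]
          have e0 : 0 ≤ (X * (2 * Q)) ^ (1 / 2 : ℝ) * X ^ (-ε) := by positivity
          exact max_le (by linarith) (by linarith)
        have e1 : (X / Q) ^ (1 / 2 : ℝ) ≤ X / Q := by
          calc (X / Q) ^ (1 / 2 : ℝ) ≤ (X / Q) ^ (1 : ℝ) := Real.rpow_le_rpow_of_exponent_le hD1 (by norm_num)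
            _ = X / Q := Real.rpow_one _
        have e2 : (X / Q) ^ (1 / 2 : ℝ) * ((X * (2 * Q)) ^ (1 / 2 : ℝ) * X ^ (-ε)) ≤ 2 * X ^ (1 - ε / 2) := by
          rw [← mul_assoc, ← Real.mul_rpow hD0.le (by positivity)]
          have e3 : X / Q * (X * (2 * Q)) = 2 * X ^ 2 := by field_simp
          rw [e3, Real.mul_rpow (by norm_num) (by positivity), ← Real.rpow_natCast X 2, ← Real.rpow_mul hX0.le, mul_assoc,
            ← Real.rpow_add hX0]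
          refine mul_le_mul m2 (Real.rpow_le_rpow_of_exponent_le hX ?_) (by positivity) (by norm_num)
          push_cast
          linarith
        have e5 : 0 ≤ (X / Q) ^ (1 / 2 : ℝ) := by positivity
        calc X / Q + (X / Q) ^ (1 / 2 : ℝ) * Y
            ≤ X / Q + (X / Q) ^ (1 / 2 : ℝ) * (1 + (X * (2 * Q)) ^ (1 / 2 : ℝ) * X ^ (-ε)) := by
              have := mul_le_mul_of_nonneg_left hY2 e5
              linarith
          _ = X / Q + (X / Q) ^ (1 / 2 : ℝ) + (X / Q) ^ (1 / 2 : ℝ) * ((X * (2 * Q)) ^ (1 / 2 : ℝ) * X ^ (-ε)) := by ring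
          _ ≤ 4 * X ^ (1 - ε / 2) := by linarith
    refine (h2 X Y (X / Q) hX hY1 hD1).trans ?_
    have e6 : X ^ (1 / 2 : ℝ) ≤ X ^ (1 - ε / 2) := Real.rpow_le_rpow_of_exponent_le hX (by linarith)
    calc C2 * X ^ (ε / 4) * (X ^ (1 / 2 : ℝ) + min (X / Q * Y ^ (2 / 3 : ℝ)) (X / Q + (X / Q) ^ (1 / 2 : ℝ) * Y))
        ≤ C2 * X ^ (ε / 4) * (5 * X ^ (1 - ε / 2)) := by
          refine mul_le_mul_of_nonneg_left ?_ (by positivity)
          linarith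
      _ = 5 * C2 * X ^ (ε / 4 + (1 - ε / 2)) := by rw [Real.rpow_add hX0 (ε / 4)]; ring
      _ = 5 * C2 * X ^ (1 - ε / 4) := by congr 2; ring
      _ ≤ (3 * C1 + 5 * C2) * X ^ (1 - ε / 4) := by
          have : 0 ≤ 3 * C1 * X ^ (1 - ε / 4) := by positivity
          linarith

private theorem cor_small {A B : ℤ} (hD : 4 * A ^ 3 + 27 * B ^ 2 ≠ 0) (hr : nroots A B = 3) (ε : ℝ) (hε : 0 < ε)
    (hε4 : ε ≤ 1 / 4) : ∃ C : ℝ, 0 < C ∧ ∀ X : ℝ, 1 ≤ X →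
      ((badP A B X ε).ncard : ℝ) ≤ C * X ^ (1 - ε / 8) := by
  classical
  obtain ⟨C1, hC1, h1⟩ := perQ hD hr ε hε hε4
  obtain ⟨C2, hC2, h2⟩ := log_pow_le 1 (ε / 8) (by positivity)
  refine ⟨2 * C2 * C1, by positivity, ?_⟩
  intro X hX
  have hX0 : 0 < X := by linarith
  have hXn : 0 < X ^ (-ε) := Real.rpow_pos_of_pos hX0 _
  obtain ⟨J, hJ⟩ : ∃ J : ℕ, J = Nat.log 2 ⌊X⌋₊ := ⟨_, rfl⟩
  have hfl : 1 ≤ ⌊X⌋₊ := Nat.le_floor (by simpa using hX)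
  have hJX : (2 : ℝ) ^ J ≤ X := by
    have e1 : 2 ^ J ≤ ⌊X⌋₊ := by
      rw [hJ]
      exact Nat.pow_log_le_self 2 (by omega)
    have e2 : ((2 ^ J : ℕ) : ℝ) ≤ (⌊X⌋₊ : ℝ) := by exact_mod_cast e1
    push_cast at e2
    exact e2.trans (Nat.floor_le hX0.le)
  obtain ⟨Z, hZ⟩ : ∃ Z : ℕ → Set ℕ, Z = fun j => lowP A B X
      (max 1 (max ((2 * (2 : ℝ) ^ j) ^ (3 / 2 : ℝ)) ((X * (2 * (2 : ℝ) ^ j)) ^ (1 / 2 : ℝ)) * X ^ (-ε)))
      (X / (2 : ℝ) ^ j) := ⟨_, rfl⟩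
  have hZfin : ∀ j, (Z j).Finite := by
    intro j
    rw [hZ]
    exact lowP_fin _ _ _ _ _
  have hsub : badP A B X ε ⊆ ((Finset.range (J + 1)).biUnion (fun j => (hZfin j).toFinset) : Finset ℕ) := by
    rintro d ⟨q, hq, hqd, hdX, hsq, P, hP, hPY⟩
    have hd0 : d ≠ 0 := hsq.ne_zero
    have hqd' : q ≤ d := Nat.le_of_dvd (Nat.pos_of_ne_zero hd0) hqd
    have hqR : (q : ℝ) ≤ (d : ℝ) := by exact_mod_cast hqd'
    have hqX : q ≤ ⌊X⌋₊ := Nat.le_floor (hqR.trans hdX)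
    have hq1 : q ≠ 0 := hq.ne_zero
    have hj1 : 2 ^ Nat.log 2 q ≤ q := Nat.pow_log_le_self 2 hq1
    have hj2 : q < 2 ^ (Nat.log 2 q + 1) := Nat.lt_pow_succ_log_self (by norm_num) q
    have hj1R : (2 : ℝ) ^ Nat.log 2 q ≤ (q : ℝ) := by exact_mod_cast hj1
    have hj2R : (q : ℝ) ≤ 2 * (2 : ℝ) ^ Nat.log 2 q := by
      have : (q : ℝ) < (2 : ℝ) ^ (Nat.log 2 q + 1) := by exact_mod_cast hj2
      rw [pow_succ] at this
      linarith
    rw [Finset.coe_biUnion]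
    refine Set.mem_biUnion (x := Nat.log 2 q) ?_ ?_
    · rw [Finset.mem_coe, Finset.mem_range, hJ]
      exact Nat.lt_succ_of_le (Nat.log_mono_right hqX)
    · rw [Set.Finite.coe_toFinset, hZ]
      refine ⟨⟨hdX, hsq, P, hP, ?_⟩, q, d / q, hq, ?_, (Nat.mul_div_cancel' hqd).symm⟩
      · refine hPY.trans (le_trans ?_ (le_max_right _ _))
        refine mul_le_mul_of_nonneg_right ?_ hXn.le
        refine max_le_max ?_ ?_
        · exact Real.rpow_le_rpow (Nat.cast_nonneg _) hj2R (by norm_num)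
        · refine Real.rpow_le_rpow (by positivity) ?_ (by norm_num)
          exact mul_le_mul hdX hj2R (Nat.cast_nonneg _) hX0.le
      · have e1 : ((d / q : ℕ) : ℝ) * (q : ℝ) = (d : ℝ) := by exact_mod_cast Nat.div_mul_cancel hqd
        have hqp : (0 : ℝ) < (q : ℝ) := by exact_mod_cast hq.pos
        have hp2 : (0 : ℝ) < (2 : ℝ) ^ Nat.log 2 q := by positivity
        rw [le_div_iff₀ hp2]
        calc ((d / q : ℕ) : ℝ) * (2 : ℝ) ^ Nat.log 2 q ≤ ((d / q : ℕ) : ℝ) * (q : ℝ) :=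
              mul_le_mul_of_nonneg_left hj1R (Nat.cast_nonneg _)
          _ = (d : ℝ) := e1
          _ ≤ X := hdX
  have h3 := Set.ncard_le_ncard hsub (Finset.finite_toSet _)
  rw [Set.ncard_coe_finset] at h3
  have h4 : ((badP A B X ε).ncard : ℝ) ≤ ∑ j ∈ Finset.range (J + 1), ((Z j).ncard : ℝ) := by
    have e1 := h3.trans Finset.card_biUnion_le
    have e2 : ∀ j, ((hZfin j).toFinset).card = (Z j).ncard := fun j => (Set.ncard_eq_toFinset_card _ (hZfin j)).symm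
    simp only [e2] at e1
    exact_mod_cast e1
  have h5 : ∀ j ∈ Finset.range (J + 1), ((Z j).ncard : ℝ) ≤ C1 * X ^ (1 - ε / 4) := by
    intro j hj
    rw [Finset.mem_range] at hj
    rw [hZ]
    refine h1 X ((2 : ℝ) ^ j) hX (one_le_pow₀ (by norm_num)) (le_trans ?_ hJX)
    exact pow_le_pow_right₀ (by norm_num) (by omega)
  have h6 := h4.trans (Finset.sum_le_sum h5)
  rw [Finset.sum_const, Finset.card_range, nsmul_eq_mul] at h6
  have h7 : ((J + 1 : ℕ) : ℝ) ≤ 2 * (Real.log X + 1) := by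
    have e1 : (J : ℝ) * Real.log 2 ≤ Real.log X := by
      rw [← Real.log_pow]
      exact Real.log_le_log (by positivity) hJX
    have e2 : (1 / 2 : ℝ) ≤ Real.log 2 := by
      have := Real.log_two_gt_d9
      linarith
    have e3 : (J : ℝ) * (1 / 2) ≤ (J : ℝ) * Real.log 2 := mul_le_mul_of_nonneg_left e2 (Nat.cast_nonneg _)
    push_cast
    linarith
  have h8 := h2 X hX
  rw [pow_one] at h8
  have hS : 0 < X ^ (1 - ε / 4) := Real.rpow_pos_of_pos hX0 _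
  calc ((badP A B X ε).ncard : ℝ) ≤ ((J + 1 : ℕ) : ℝ) * (C1 * X ^ (1 - ε / 4)) := h6
    _ ≤ (2 * (C2 * X ^ (ε / 8))) * (C1 * X ^ (1 - ε / 4)) := by
        refine mul_le_mul_of_nonneg_right ?_ (by positivity)
        linarith
    _ = 2 * C2 * C1 * X ^ (ε / 8 + (1 - ε / 4)) := by rw [Real.rpow_add hX0 (ε / 8)]; ring
    _ = 2 * C2 * C1 * X ^ (1 - ε / 8) := by congr 2; ring

/-- For almost all squarefree `d`, `η_d > max(q^(3/2), (d q)^(1/2)) X^(-ε)` for all prime factors `q` of `d`. -/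
theorem corP (A B : ℤ) (hD : 4 * A ^ 3 + 27 * B ^ 2 ≠ 0) (hr : nroots A B = 3) (ε : ℝ) (hε : 0 < ε) :
    ∃ δ C : ℝ, 0 < δ ∧ 0 < C ∧ ∀ X : ℝ, 1 ≤ X → ((badP A B X ε).ncard : ℝ) ≤ C * X ^ (1 - δ) := by
  obtain ⟨C, hC, h1⟩ := cor_small hD hr (min ε (1 / 4)) (lt_min hε (by norm_num)) (min_le_right _ _)
  refine ⟨min ε (1 / 4) / 8, C, by positivity, hC, fun X hX => ?_⟩
  refine le_trans ?_ (h1 X hX)
  have hsub : badP A B X ε ⊆ badP A B X (min ε (1 / 4)) := by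
    rintro d ⟨q, hq, hqd, hdX, hsq, P, hP, hPY⟩
    refine ⟨q, hq, hqd, hdX, hsq, P, hP, hPY.trans ?_⟩
    refine mul_le_mul_of_nonneg_left ?_ (le_max_of_le_left (by positivity))
    exact Real.rpow_le_rpow_of_exponent_le hX (by linarith [min_le_left ε (1 / 4 : ℝ)])
  have hfin : (badP A B X (min ε (1 / 4))).Finite := by
    refine (Set.finite_Iic ⌊X⌋₊).subset ?_
    rintro d ⟨q, hq, hqd, hdX, -⟩
    exact Nat.le_floor hdX
  exact_mod_cast Set.ncard_le_ncard hsub hfin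

end Pool.Agent.H80.PT
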