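import Pool.Agent.H12.EH.Main

/-!
# Twists by d = q m, q prime, m small (MP_c60b8d_nt): definitions

`Tw A B H d r s`: `r / s` in lowest terms, `|r|, s ≤ H`, is the abscissa of a point of `E_d`.
`Sp e o a z r s`: the pair `(r, s)` with the label `a` of the three forms `frm e (o.succ.succAbove i)` (these are `s` and the two
forms `r - e_u s`, `u ≠ o`) and `z² ∣ r - e_o s`.
-/

set_option autoImplicit false

namespace Pool.Agent.H80.PT

open Pool.Agent.H12.EH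

/-- `r / s` is the abscissa of a point of `E_d`, `|r|, s ≤ H` -/
def Tw (A B : ℤ) (H : ℝ) (d : ℕ) (r s : ℤ) : Prop :=
  IsCoprime r s ∧ 0 < s ∧ |(r : ℝ)| ≤ H ∧ (s : ℝ) ≤ H ∧ ∃ w : ℤ, w ≠ 0 ∧ s * Gf A B r s = d * w ^ 2

/-- the label `a` of the three other forms, and `z² ∣ r - e_o s` -/
def Sp (e : Fin 3 → ℤ) (o : Fin 3) (a : Fin 3 → ℤ) (z : ℕ) (r s : ℤ) (y : Fin 3 → ℤ) : Prop :=
  IsCoprime r s ∧ 0 < s ∧ (∀ i, 0 < y i) ∧ (∀ i, frm e (o.succ.succAbove i) r s = a i * y i ^ 2) ∧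
    (z : ℤ) ^ 2 ∣ r - e o * s

end Pool.Agent.H80.PT
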