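import Pool.Agent.H80.PT.Sz

/-!
[H80 PT FB]  The number of pairs of height at most `H` with a large prime part (NEW statement, 20:20).

`T` is a finite set of pairs with the data of `lbl`: `P ≤ |a_o|`, `|∏ a_i| ≤ K X`, `|∏_{i ≠ o} a_i| ≤ K D`.
Three values of `o`; `dya1` (fibers `(v, S, lam)`, `S lam ≤ C₁ H`); `dya2` for `|∏_{i ≠ o} a_i|`, `L = 2^k ≤ K D` (as in `om3`).
In such a class fix the label `(a (o.succ.succAbove i))_i`; the number of labels is at most `C L^(1+ε')` by `acnt3_labels`.  With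
`z = y o.succ`: `|r - e_o s| = |a_o| z²`; `|a_o| ≤ K X / L`, so `lam S ≤ lam s ≤ |r - e_o s| ≤ (K X / L) z²` (`Fib`), and
`P z² ≤ |a_o| z² = |r - e_o s| ≤ (1 + |e_o|) H`.  So `sz` with `R = K X / L`, `U = (1 + ∑ |e_i|) H / P ≥ 1` gives
`C L^(ε') U^(ε') (√U + √(K X) / L)` for one label and `C L^(2ε') U^(ε') (L √U + √(K X))` for the class.
Total: `C (log H + 1)² (log (K D) + 1) (K D)^(2ε') U^(ε') (K D √U + √(K X))`.
(`fbB` is now in FbB.lean, helper38.)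
-/

set_option autoImplicit false

namespace Pool.Agent.H80.PT

open Pool.Agent.H12.EH

/-- dyadic decomposition in the fiber and in the label product -/
private theorem fb_comb {A B : ℤ} {e : Fin 3 → ℤ} (hρ : Roots A B (fun v => (e v : ℂ))) : ∃ C : ℝ, 1 ≤ C ∧
    ∀ (H Q : ℝ), 1 ≤ H → 1 ≤ Q → ∀ (T : Finset (ℤ × ℤ)) (oo : ℤ × ℤ → Fin 3) (g : Fin 3 → ℤ × ℤ → ℕ) (M : ℝ), 0 ≤ M →
    (∀ p ∈ T, 0 < p.2 ∧ |(p.1 : ℝ)| ≤ H ∧ (p.2 : ℝ) ≤ H ∧ Gf A B p.1 p.2 ≠ 0) →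
    (∀ p ∈ T, 1 ≤ g (oo p) p ∧ ((g (oo p) p : ℕ) : ℝ) ≤ Q) →
    (∀ (o v : Fin 3) (S lam : ℝ) (k : ℕ), 1 ≤ S → 0 < lam → S * lam ≤ C * H → (2 : ℝ) ^ k ≤ Q → ∀ T' ⊆ T,
      (∀ p ∈ T', Fib (fun v => (e v : ℂ)) v S lam p.1 p.2 ∧ oo p = o ∧ 2 ^ k ≤ g o p ∧ g o p ≤ 2 * 2 ^ k) →
      (T'.card : ℝ) ≤ M) →
    (T.card : ℝ) ≤ 9 * C * (Real.log H + 1) ^ 2 * (Real.log Q + 1) * M := by
  classical
  obtain ⟨C1, hC1, hdya⟩ := dya1 hρ
  refine ⟨C1, hC1, ?_⟩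
  intro H Q hH hQ T oo g M hM0 hT hg hM
  have hQ0 : 0 < Q := by linarith
  set N : ℕ := ⌊Q⌋₊ with hN
  have hNQ : (N : ℝ) ≤ Q := Nat.floor_le hQ0.le
  have hfib : ∀ (v : Fin 3) (S lam : ℝ), 1 ≤ S → 0 < lam → S * lam ≤ C1 * H → ∀ T' ⊆ T,
      (∀ p ∈ T', Fib (fun v => (e v : ℂ)) v S lam p.1 p.2) →
      (T'.card : ℝ) ≤ 3 * ((Nat.log 2 N + 1) * M) := by
    intro v S lam hS hlam hSl T' hT' hF
    have hcl : ∀ o : Fin 3, (((T'.filter (fun p => oo p = o)).card : ℕ) : ℝ) ≤ (Nat.log 2 N + 1) * M := by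
      intro o
      apply dya2 _ (g o) N M hM0
      · intro p hp
        rw [Finset.mem_filter] at hp
        have h := hg p (hT' hp.1)
        rw [hp.2] at h
        exact ⟨h.1, Nat.le_floor h.2⟩
      · intro k hk T'' hT'' hT2
        have hLQ : (2 : ℝ) ^ k ≤ Q := by
          refine le_trans ?_ hNQ
          exact_mod_cast hk
        refine hM o v S lam k hS hlam hSl hLQ T'' (fun p hp => hT' (Finset.mem_filter.mp (hT'' hp)).1) ?_
        intro p hp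
        have hp1 := Finset.mem_filter.mp (hT'' hp)
        exact ⟨hF p hp1.1, hp1.2, (hT2 p hp).1, (hT2 p hp).2⟩
    have hmap : ∀ p ∈ T', oo p ∈ (Finset.univ : Finset (Fin 3)) := fun p _ => Finset.mem_univ _
    rw [Finset.card_eq_sum_card_fiberwise hmap]
    push_cast
    calc ∑ o : Fin 3, (((T'.filter (fun p => oo p = o)).card : ℕ) : ℝ)
        ≤ ∑ _o : Fin 3, (Nat.log 2 N + 1) * M := Finset.sum_le_sum (fun o _ => hcl o)
      _ = 3 * ((Nat.log 2 N + 1) * M) := by simp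
  have hmain := hdya H hH T (3 * ((Nat.log 2 N + 1) * M)) (by positivity) hT hfib
  refine hmain.trans ?_
  have hlQ : 0 ≤ Real.log Q := Real.log_nonneg hQ
  have g2 : ((Nat.log 2 N : ℕ) : ℝ) + 1 ≤ 3 * (Real.log Q + 1) := by
    have hl2 : (1 : ℝ) / 2 < Real.log 2 := by
      have := Real.log_two_gt_d9
      linarith
    have hN0 : N ≠ 0 := by
      rw [hN]
      have := Nat.floor_pos.mpr hQ
      omega
    have e1 : 2 ^ Nat.log 2 N ≤ N := Nat.pow_log_le_self 2 hN0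
    have e2 : (2 : ℝ) ^ Nat.log 2 N ≤ Q := by
      refine le_trans ?_ hNQ
      exact_mod_cast e1
    have e3 := Real.log_le_log (by positivity) e2
    rw [Real.log_pow] at e3
    have e4 : (0 : ℝ) ≤ ((Nat.log 2 N : ℕ) : ℝ) := by positivity
    nlinarith
  have g3 : 0 ≤ C1 * (Real.log H + 1) ^ 2 := by
    have : 0 ≤ C1 := by linarith
    positivity
  calc C1 * (Real.log H + 1) ^ 2 * (3 * ((Nat.log 2 N + 1) * M))
      ≤ C1 * (Real.log H + 1) ^ 2 * (3 * ((3 * (Real.log Q + 1)) * M)) := by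
        apply mul_le_mul_of_nonneg_left _ g3
        apply mul_le_mul_of_nonneg_left _ (by norm_num)
        exact mul_le_mul_of_nonneg_right g2 hM0
    _ = 9 * C1 * (Real.log H + 1) ^ 2 * (Real.log Q + 1) * M := by ring

/-- the form with the number `o + 1` -/
private theorem fb_frm (e : Fin 3 → ℤ) (o : Fin 3) (r s : ℤ) : frm e o.succ r s = r - e o * s := by
  fin_cases o <;> rfl

/-- the product of the four numbers -/
private theorem fb_prod (a : Fin 4 → ℤ) (o : Fin 3) :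
    |((∏ i, a i : ℤ) : ℝ)| = |((a o.succ : ℤ) : ℝ)| * |((∏ i : Fin 3, a (o.succ.succAbove i) : ℤ) : ℝ)| := by
  rw [Fin.prod_univ_succAbove _ o.succ, Int.cast_mul, abs_mul]

/-- one class of `fb` -/
private theorem fb_class {e : Fin 3 → ℤ} (he : ∀ i j, i ≠ j → e i ≠ e j) (ε : ℝ) (hε : 0 < ε) : ∃ C : ℝ, 0 < C ∧
    ∀ (H Z Q P E : ℝ), 1 ≤ H → 0 < Z → 1 ≤ P → P ≤ H → 1 ≤ E → (∀ i, 1 + |(e i : ℝ)| ≤ E) →
    ∀ (o v : Fin 3) (S lam : ℝ) (k : ℕ), 0 < S → 0 < lam → (2 : ℝ) ^ k ≤ Q →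
    ∀ (T : Finset (ℤ × ℤ)) (a y : ℤ × ℤ → Fin 4 → ℤ), (∀ p ∈ T, Fib (fun v => (e v : ℂ)) v S lam p.1 p.2 ∧
      IsCoprime p.1 p.2 ∧ 0 < p.2 ∧ |(p.1 : ℝ)| ≤ H ∧ (p.2 : ℝ) ≤ H ∧
      (∀ i, Squarefree (a p i)) ∧ (∀ i, 0 < y p i) ∧ (∀ i, frm e i p.1 p.2 = a p i * y p i ^ 2) ∧
      P ≤ |((a p o.succ : ℤ) : ℝ)| ∧ |((∏ i, a p i : ℤ) : ℝ)| ≤ Z ∧
      (2 : ℝ) ^ k ≤ |((∏ i : Fin 3, a p (o.succ.succAbove i) : ℤ) : ℝ)| ∧
      |((∏ i : Fin 3, a p (o.succ.succAbove i) : ℤ) : ℝ)| ≤ 2 * (2 : ℝ) ^ k) →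
    (T.card : ℝ) ≤ C * Q ^ (2 * ε) * (E * H / P) ^ ε * (Q * √(E * H / P) + √Z) := by
  classical
  obtain ⟨C1, hC1, h1⟩ := acnt3_labels ε hε
  obtain ⟨C2, hC2, h2⟩ := sz he ε hε
  refine ⟨C1 * C2, by positivity, ?_⟩
  intro H Z Q P E hH hZ hP hPH hE he2 o v S lam k hS hlam hkQ T a y hT
  set L : ℝ := (2 : ℝ) ^ k with hL
  have hL1 : 1 ≤ L := one_le_pow₀ (by norm_num)
  have hL0 : 0 < L := by linarith
  have hP0 : 0 < P := by linarith
  have hQ0 : 0 < Q := by linarith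
  set U : ℝ := E * H / P with hU
  have hU1 : 1 ≤ U := by
    rw [hU, le_div_iff₀ hP0]
    nlinarith
  have hU0 : 0 < U := by linarith
  set b : ℤ × ℤ → Fin 3 → ℤ := fun p i => a p (o.succ.succAbove i) with hb
  set F := T.image b with hF
  have hcard : (T.card : ℝ) = ∑ c ∈ F, ((T.filter (fun p => b p = c)).card : ℝ) := by
    rw [Finset.card_eq_sum_card_fiberwise (f := b) (t := F)
      (fun p hp => Finset.mem_image_of_mem b hp)]
    push_cast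
    rfl
  have hlab : (F.card : ℝ) ≤ C1 * L * L ^ ε := by
    refine h1 L hL1 F (fun c hc => ?_)
    obtain ⟨p, hp, rfl⟩ := Finset.mem_image.mp hc
    obtain ⟨-, -, -, -, -, h6, -, -, -, -, -, h12⟩ := hT p hp
    exact ⟨fun i => (h6 _).ne_zero, h12⟩
  have hone : ∀ c ∈ F, ((T.filter (fun p => b p = c)).card : ℝ) ≤
      C2 * L ^ ε * U ^ ε * (√U + √(Z / L / L)) := by
    intro c hc
    obtain ⟨p, hp, rfl⟩ := Finset.mem_image.mp hc
    obtain ⟨-, -, -, -, -, h6, -, -, -, -, h11, h12⟩ := hT p hp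
    refine h2 o v S lam L (Z / L) U hS hlam hL1 (by positivity) hU1 (b p) (fun i => h6 _) h11 h12 _ ?_
    intro q hq
    rw [Finset.mem_filter] at hq
    obtain ⟨hq1, hq2⟩ := hq
    obtain ⟨k1, k2, k3, k4, k5, k6, k7, k8, k9, k10, k11, k12⟩ := hT q hq1
    have hy0 : 0 < y q o.succ := k7 _
    have hfo : q.1 - e o * q.2 = a q o.succ * y q o.succ ^ 2 := by
      rw [← fb_frm, k8]
    have hz : (((y q o.succ).natAbs : ℕ) : ℝ) = (y q o.succ : ℝ) := by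
      rw [Nat.cast_natAbs, abs_of_pos hy0]
    have hzZ : (((y q o.succ).natAbs : ℕ) : ℤ) = y q o.succ := by
      rw [Int.natCast_natAbs, abs_of_pos hy0]
    have hreal : |(q.1 : ℝ) - e o * q.2| = |((a q o.succ : ℤ) : ℝ)| * (y q o.succ : ℝ) ^ 2 := by
      have h3 : ((q.1 - e o * q.2 : ℤ) : ℝ) = ((a q o.succ * y q o.succ ^ 2 : ℤ) : ℝ) := by rw [hfo]
      push_cast at h3
      rw [h3, abs_mul, abs_of_nonneg (sq_nonneg (y q o.succ : ℝ))]
    have hs0 : (0 : ℝ) < q.2 := by exact_mod_cast k3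
    refine ⟨k1, (y q o.succ).natAbs, fun i => y q (o.succ.succAbove i), Int.natAbs_pos.mpr hy0.ne', ?_, ?_, ?_⟩
    · -- `z² ≤ U`
      rw [hz, hU, le_div_iff₀ hP0]
      have h3 : |(q.1 : ℝ) - e o * q.2| ≤ E * H := by
        calc |(q.1 : ℝ) - e o * q.2| ≤ |(q.1 : ℝ)| + |(e o : ℝ) * q.2| := abs_sub _ _
          _ = |(q.1 : ℝ)| + |(e o : ℝ)| * q.2 := by rw [abs_mul, abs_of_pos hs0]
          _ ≤ H + |(e o : ℝ)| * H := by
            have := mul_le_mul_of_nonneg_left k5 (abs_nonneg (e o : ℝ))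
            linarith
          _ = (1 + |(e o : ℝ)|) * H := by ring
          _ ≤ E * H := mul_le_mul_of_nonneg_right (he2 o) (by linarith)
      have h4 : P * (y q o.succ : ℝ) ^ 2 ≤ |((a q o.succ : ℤ) : ℝ)| * (y q o.succ : ℝ) ^ 2 :=
        mul_le_mul_of_nonneg_right k9 (sq_nonneg _)
      rw [← hreal] at h4
      linarith
    · -- `S lam ≤ R z²`
      rw [hz]
      have h3 : lam * (q.2 : ℝ) ≤ |(q.1 : ℝ) - e o * q.2| := by
        have h4 := k1.2.2.1 o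
        have h5 : ‖(q.1 : ℂ) - (fun v => (e v : ℂ)) o * q.2‖ = |(q.1 : ℝ) - e o * q.2| := by
          have h6 : (q.1 : ℂ) - (fun v => (e v : ℂ)) o * q.2 = (((q.1 : ℝ) - e o * q.2 : ℝ) : ℂ) := by
            push_cast
            rfl
          rw [h6, Complex.norm_real, Real.norm_eq_abs]
        rw [h5] at h4
        exact h4
      have h4 : S * lam ≤ lam * (q.2 : ℝ) := by
        have := mul_le_mul_of_nonneg_left k1.1 hlam.le
        linarith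
      have h5 : |((a q o.succ : ℤ) : ℝ)| ≤ Z / L := by
        rw [le_div_iff₀ hL0]
        rw [fb_prod (a q) o] at k10
        exact (mul_le_mul_of_nonneg_left k11 (abs_nonneg _)).trans k10
      have h6 : |((a q o.succ : ℤ) : ℝ)| * (y q o.succ : ℝ) ^ 2 ≤ Z / L * (y q o.succ : ℝ) ^ 2 :=
        mul_le_mul_of_nonneg_right h5 (sq_nonneg _)
      rw [← hreal] at h6
      linarith
    · refine ⟨k2, k3, fun i => k7 _, fun i => ?_, ?_⟩
      · rw [k8, ← hq2]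
      · rw [hzZ, hfo]
        exact Dvd.intro_left _ rfl
  rw [hcard]
  refine (Finset.sum_le_sum hone).trans ?_
  rw [Finset.sum_const, nsmul_eq_mul]
  have hsq : L * √(Z / L / L) = √Z := by
    have h3 : Z / L / L = Z / L ^ 2 := by
      rw [div_div, sq]
    rw [h3, Real.sqrt_div hZ.le, Real.sqrt_sq hL0.le]
    field_simp
  have hpow : L ^ ε * L ^ ε = L ^ (2 * ε) := by
    rw [← Real.rpow_add hL0]
    ring_nf
  have hLQ : L ^ (2 * ε) ≤ Q ^ (2 * ε) := Real.rpow_le_rpow hL0.le hkQ (by positivity)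
  calc (F.card : ℝ) * (C2 * L ^ ε * U ^ ε * (√U + √(Z / L / L)))
      ≤ (C1 * L * L ^ ε) * (C2 * L ^ ε * U ^ ε * (√U + √(Z / L / L))) :=
        mul_le_mul_of_nonneg_right hlab (by positivity)
    _ = C1 * C2 * (L ^ ε * L ^ ε) * U ^ ε * (L * √U + L * √(Z / L / L)) := by ring
    _ = C1 * C2 * L ^ (2 * ε) * U ^ ε * (L * √U + √Z) := by rw [hpow, hsq]
    _ ≤ C1 * C2 * Q ^ (2 * ε) * U ^ ε * (Q * √U + √Z) := by
      gcongr

theorem fb {A B : ℤ} {e : Fin 3 → ℤ} (hρ : Roots A B (fun v => (e v : ℂ))) (K : ℝ) (hK : 1 ≤ K) (ε : ℝ) (hε : 0 < ε) :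
    ∃ C : ℝ, 0 < C ∧ ∀ (H X D P : ℝ), 1 ≤ H → 1 ≤ X → 1 ≤ D → 1 ≤ P → P ≤ H → ∀ T : Finset (ℤ × ℤ),
    (∀ p ∈ T, IsCoprime p.1 p.2 ∧ 0 < p.2 ∧ |(p.1 : ℝ)| ≤ H ∧ (p.2 : ℝ) ≤ H ∧ Gf A B p.1 p.2 ≠ 0 ∧
      ∃ (o : Fin 3) (a y : Fin 4 → ℤ), (∀ i, Squarefree (a i)) ∧ (∀ i, 0 < y i) ∧
        (∀ i, frm e i p.1 p.2 = a i * y i ^ 2) ∧ P ≤ |((a o.succ : ℤ) : ℝ)| ∧ |((∏ i, a i : ℤ) : ℝ)| ≤ K * X ∧
        |((∏ i : Fin 3, a (o.succ.succAbove i) : ℤ) : ℝ)| ≤ K * D) →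
    (T.card : ℝ) ≤ C * (H * D) ^ ε * (D * √(H / P) + √X) := by
  classical
  have he : ∀ i j, i ≠ j → e i ≠ e j := by
    intro i j hij h
    apply hρ.ne i j hij
    simp only [h]
  have hε3 : 0 < ε / 3 := by positivity
  obtain ⟨C1, hC1, hcomb⟩ := fb_comb hρ
  obtain ⟨C2, hC2, hcl⟩ := fb_class he (ε / 3) hε3
  obtain ⟨C4, hC4, hlog2⟩ := log_pow_le 2 (ε / 3) hε3
  obtain ⟨C5, hC5, hlog1⟩ := log_pow_le 1 (ε / 3) hε3
  have hKp : 0 < K := by linarith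
  have hC1p : 0 < C1 := by linarith
  set E : ℝ := 1 + ∑ i, |(e i : ℝ)| with hE
  have hE1 : 1 ≤ E := by
    have : 0 ≤ ∑ i, |(e i : ℝ)| := Finset.sum_nonneg (fun i _ => abs_nonneg _)
    linarith
  have hEp : 0 < E := by linarith
  have hEi : ∀ i, 1 + |(e i : ℝ)| ≤ E := by
    intro i
    have := Finset.single_le_sum (f := fun i => |(e i : ℝ)|) (fun i _ => abs_nonneg _) (Finset.mem_univ i)
    rw [hE]
    linarith
  refine ⟨9 * C1 * C4 * C5 * K ^ (ε / 3) * (C2 * K ^ (2 * (ε / 3)) * E ^ (ε / 3)) * (K * √E + √K), by positivity, ?_⟩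
  intro H X D P hH hX hD hP hPH T hT
  have hH0 : 0 < H := by linarith
  have hX0 : 0 < X := by linarith
  have hD0 : 0 < D := by linarith
  have hP0 : 0 < P := by linarith
  have hQ1 : 1 ≤ K * D := one_le_mul_of_one_le_of_one_le hK hD
  choose! oo a y hay using fun p (hp : p ∈ T) => (hT p hp).2.2.2.2.2
  set g : Fin 3 → ℤ × ℤ → ℕ := fun o p => (∏ i : Fin 3, a p (o.succ.succAbove i)).natAbs with hg
  have hgc : ∀ o p, ((g o p : ℕ) : ℝ) = |((∏ i : Fin 3, a p (o.succ.succAbove i) : ℤ) : ℝ)| := by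
    intro o p
    rw [hg, Nat.cast_natAbs, Int.cast_abs]
  set M : ℝ := C2 * (K * D) ^ (2 * (ε / 3)) * (E * H / P) ^ (ε / 3) * (K * D * √(E * H / P) + √(K * X)) with hM
  have hM0 : 0 ≤ M := by positivity
  have hmain := hcomb H (K * D) hH hQ1 T oo g M hM0
    (fun p hp => ⟨(hT p hp).2.1, (hT p hp).2.2.1, (hT p hp).2.2.2.1, (hT p hp).2.2.2.2.1⟩)
    (fun p hp => by
      obtain ⟨h1, -, -, -, -, h6⟩ := hay p hp
      refine ⟨?_, ?_⟩
      · apply Nat.one_le_iff_ne_zero.mpr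
        rw [hg]
        show (∏ i : Fin 3, a p ((oo p).succ.succAbove i)).natAbs ≠ 0
        rw [Int.natAbs_ne_zero]
        exact Finset.prod_ne_zero_iff.mpr (fun i _ => (h1 _).ne_zero)
      · rw [hgc]
        exact h6)
    (fun o v S lam k hS hlam hSl hk T' hT' hT2 => by
      refine hcl H (K * X) (K * D) P E hH (by positivity) hP hPH hE1 hEi o v S lam k (by linarith) hlam hk T' a y ?_
      intro p hp
      obtain ⟨t1, t2, t3, t4⟩ := hT2 p hp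
      have hpT := hT' hp
      obtain ⟨h1, h2, h3, h4, h5, -⟩ := hay p hpT
      refine ⟨t1, (hT p hpT).1, (hT p hpT).2.1, (hT p hpT).2.2.1, (hT p hpT).2.2.2.1, h1, h2, h3, ?_, h5, ?_, ?_⟩
      · rw [← t2]
        exact h4
      · rw [← hgc]
        exact_mod_cast t3
      · rw [← hgc]
        exact_mod_cast t4)
  refine hmain.trans ?_
  have g1 := hlog2 H hH
  have g2 : Real.log (K * D) + 1 ≤ C5 * (K ^ (ε / 3) * D ^ (ε / 3)) := by
    have := hlog1 (K * D) hQ1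
    rw [pow_one, Real.mul_rpow hKp.le hD0.le] at this
    exact this
  have g2' : 0 ≤ Real.log (K * D) + 1 := by
    have := Real.log_nonneg hQ1
    linarith
  have g3 : (E * H / P) ^ (ε / 3) ≤ E ^ (ε / 3) * H ^ (ε / 3) := by
    rw [← Real.mul_rpow hEp.le hH0.le]
    apply Real.rpow_le_rpow (by positivity) _ hε3.le
    rw [div_le_iff₀ hP0]
    nlinarith [mul_pos hEp hH0]
  have g4 : K * D * √(E * H / P) + √(K * X) ≤ (K * √E + √K) * (D * √(H / P) + √X) := by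
    have e1 : √(E * H / P) = √E * √(H / P) := by
      rw [mul_div_assoc, Real.sqrt_mul hEp.le]
    have e2 : √(K * X) = √K * √X := Real.sqrt_mul hKp.le _
    rw [e1, e2]
    have p1 : 0 ≤ K * √E * √X := by positivity
    have p2 : 0 ≤ √K * (D * √(H / P)) := by positivity
    nlinarith
  have g5 : (K * D) ^ (2 * (ε / 3)) = K ^ (2 * (ε / 3)) * D ^ (2 * (ε / 3)) := Real.mul_rpow hKp.le hD0.le
  have g6 : H ^ (ε / 3) * H ^ (ε / 3) ≤ H ^ ε := by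
    rw [← Real.rpow_add hH0]
    apply Real.rpow_le_rpow_of_exponent_le hH
    linarith
  have g7 : D ^ (ε / 3) * D ^ (2 * (ε / 3)) = D ^ ε := by
    rw [← Real.rpow_add hD0]
    congr 1
    ring
  have hlH : 0 ≤ (Real.log H + 1) ^ 2 := sq_nonneg _
  calc 9 * C1 * (Real.log H + 1) ^ 2 * (Real.log (K * D) + 1) * M
      ≤ 9 * C1 * (C4 * H ^ (ε / 3)) * (C5 * (K ^ (ε / 3) * D ^ (ε / 3))) *
        (C2 * (K ^ (2 * (ε / 3)) * D ^ (2 * (ε / 3))) * (E ^ (ε / 3) * H ^ (ε / 3)) *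
          ((K * √E + √K) * (D * √(H / P) + √X))) := by
        rw [hM, g5]
        gcongr
    _ = 9 * C1 * C4 * C5 * K ^ (ε / 3) * (C2 * K ^ (2 * (ε / 3)) * E ^ (ε / 3)) * (K * √E + √K) *
        ((H ^ (ε / 3) * H ^ (ε / 3)) * (D ^ (ε / 3) * D ^ (2 * (ε / 3)))) * (D * √(H / P) + √X) := by ring
    _ ≤ 9 * C1 * C4 * C5 * K ^ (ε / 3) * (C2 * K ^ (2 * (ε / 3)) * E ^ (ε / 3)) * (K * √E + √K) *
        (H ^ ε * D ^ ε) * (D * √(H / P) + √X) := by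
        rw [g7]
        gcongr
    _ = _ := by rw [Real.mul_rpow hH0.le hD0.le]

end Pool.Agent.H80.PT
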