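import Pool.Agent.H80.PT.Defs
import Pool.Agent.H12.EH.Om3

/-!
[H80 PT FBB]  The second bound: labels only.

As `fb`, without `z` and `P`: three values of `o`, `dya1` (fibers `(v, S, lam)`, `S lam ≤ C₁ H`), `dya2` for
`|∏_{i ≠ o} a_i|`, `L = 2^k ≤ K D`, and `acnt3` (Pool/Agent/H12/EH/Acnt3.lean) for `o.succ` (exactly as in `om3`): a class has
at most `C L^(ε') (L + √(S lam L)) ≤ C (K D)^(ε') (K D + √(C₁ H K D))` elements.
-/

set_option autoImplicit false

namespace Pool.Agent.H80.PT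

open Pool.Agent.H12.EH

theorem fbB {A B : ℤ} {e : Fin 3 → ℤ} (hρ : Roots A B (fun v => (e v : ℂ))) (K : ℝ) (hK : 1 ≤ K) (ε : ℝ) (hε : 0 < ε) :
    ∃ C : ℝ, 0 < C ∧ ∀ (H D : ℝ), 1 ≤ H → 1 ≤ D → ∀ T : Finset (ℤ × ℤ),
    (∀ p ∈ T, IsCoprime p.1 p.2 ∧ 0 < p.2 ∧ |(p.1 : ℝ)| ≤ H ∧ (p.2 : ℝ) ≤ H ∧ Gf A B p.1 p.2 ≠ 0 ∧
      ∃ (o : Fin 3) (a y : Fin 4 → ℤ), (∀ i, Squarefree (a i)) ∧ (∀ i, 0 < y i) ∧
        (∀ i, frm e i p.1 p.2 = a i * y i ^ 2) ∧ |((∏ i : Fin 3, a (o.succ.succAbove i) : ℤ) : ℝ)| ≤ K * D) →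
    (T.card : ℝ) ≤ C * (H * D) ^ ε * (D + √(H * D)) := by
  classical
  obtain ⟨C1, hC1, hdya⟩ := dya1 hρ
  obtain ⟨C2, hC2, hacnt⟩ := acnt3 hρ (ε / 2) (by positivity)
  obtain ⟨C4, hC4, hlog⟩ := log_pow_le 3 (ε / 2) (by positivity)
  have hKp : 0 < K := by linarith
  have hlK : 0 ≤ Real.log K := Real.log_nonneg hK
  have hC1p : 0 < C1 := by linarith
  refine ⟨C1 * 3 * (2 + 2 * Real.log K) * C4 * C2 * K ^ (ε / 2) * (K + √C1 * √K), by positivity, ?_⟩
  intro H D hH hD T hTT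
  have hD0 : 0 < D := by linarith
  have hH0 : 0 < H := by linarith
  have hY1 : 1 ≤ H * D := one_le_mul_of_one_le_of_one_le hH hD
  have hY0 : 0 < H * D := by linarith
  have hHY : H ≤ H * D := le_mul_of_one_le_right hH0.le hD
  have hDY : D ≤ H * D := le_mul_of_one_le_left hD0.le hH
  set Q : ℝ := K * D with hQ
  have hQ1 : 1 ≤ Q := one_le_mul_of_one_le_of_one_le hK hD
  have hQ0 : 0 < Q := by linarith
  set N : ℕ := ⌊Q⌋₊ with hN
  have hNQ : (N : ℝ) ≤ Q := Nat.floor_le hQ0.le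
  set M : ℝ := C2 * Q ^ (ε / 2) * (Q + √(C1 * H * Q)) with hM
  have hM0 : 0 ≤ M := by positivity
  have hfac : ∀ p : ℤ × ℤ, ∃ (o : Fin 3) (a y : Fin 4 → ℤ), p ∈ T →
      ((∀ i, Squarefree (a i)) ∧ (∀ i, 0 < y i) ∧ (∀ i, frm e i p.1 p.2 = a i * y i ^ 2) ∧
      |((∏ i : Fin 3, a (o.succ.succAbove i) : ℤ) : ℝ)| ≤ K * D) := by
    intro p
    by_cases hp : p ∈ T
    · obtain ⟨-, -, -, -, -, o, a, y, h1, h2, h3, h4⟩ := hTT p hp
      exact ⟨o, a, y, fun _ => ⟨h1, h2, h3, h4⟩⟩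
    · exact ⟨0, 0, 0, fun h => absurd h hp⟩
  choose oo a y hay using hfac
  -- the product of the other three
  set g : Fin 3 → ℤ × ℤ → ℕ := fun o p => (∏ i : Fin 3, a p (o.succ.succAbove i)).natAbs with hg
  have hg1 : ∀ p ∈ T, 1 ≤ g (oo p) p ∧ g (oo p) p ≤ N := by
    intro p hp
    obtain ⟨h1, h2, h3, h4⟩ := hay p hp
    have hne : ∀ i, a p i ≠ 0 := fun i => (h1 i).ne_zero
    have hg0 : g (oo p) p ≠ 0 := by
      rw [hg]
      show (∏ i : Fin 3, a p ((oo p).succ.succAbove i)).natAbs ≠ 0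
      rw [Int.natAbs_ne_zero]
      exact Finset.prod_ne_zero_iff.mpr (fun i _ => hne _)
    refine ⟨Nat.one_le_iff_ne_zero.mpr hg0, ?_⟩
    rw [hN]
    apply Nat.le_floor
    rw [hg]
    simp only
    rw [Nat.cast_natAbs, Int.cast_abs]
    exact h4
  -- one fiber
  have hfib : ∀ (v : Fin 3) (S lam : ℝ), 1 ≤ S → 0 < lam → S * lam ≤ C1 * H → ∀ T' ⊆ T,
      (∀ p ∈ T', Fib (fun v => (e v : ℂ)) v S lam p.1 p.2) →
      (T'.card : ℝ) ≤ 3 * ((Nat.log 2 N + 1) * M) := by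
    intro v S lam hS hlam hSl T' hT' hF
    have hcl : ∀ o : Fin 3, (((T'.filter (fun p => oo p = o)).card : ℕ) : ℝ) ≤ (Nat.log 2 N + 1) * M := by
      intro o
      apply dya2 _ (g o) N M hM0
      · intro p hp
        rw [Finset.mem_filter] at hp
        have := hg1 p (hT' hp.1)
        rwa [hp.2] at this
      · intro k hk T'' hT'' hT2
        have hL1 : (1 : ℝ) ≤ (2 : ℝ) ^ k := one_le_pow₀ (by norm_num)
        have hLQ : (2 : ℝ) ^ k ≤ Q := by
          refine le_trans ?_ hNQ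
          exact_mod_cast hk
        have := hacnt o.succ v S lam ((2 : ℝ) ^ k) (by linarith) hlam hL1 T'' ?_
        · refine this.trans ?_
          rw [hM]
          have h1 : ((2 : ℝ) ^ k) ^ (ε / 2) ≤ Q ^ (ε / 2) :=
            Real.rpow_le_rpow (by positivity) hLQ (by positivity)
          have h2 : √(S * lam * (2 : ℝ) ^ k) ≤ √(C1 * H * Q) := by
            apply Real.sqrt_le_sqrt
            gcongr
          gcongr
        · intro p hp
          have hp1 := hT'' hp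
          rw [Finset.mem_filter] at hp1
          obtain ⟨hp1, hpo⟩ := hp1
          have hpT := hT' hp1
          obtain ⟨h1, h2, h3, h4⟩ := hay p hpT
          obtain ⟨o1, o2, -⟩ := hTT p hpT
          refine ⟨o1, o2, hF p hp1, fun i => a p (o.succ.succAbove i), fun i => y p (o.succ.succAbove i),
            fun i => h1 _, fun i => h2 _, fun i => h3 _, ?_, ?_⟩
          · have := (hT2 p hp).1
            have h5 : ((g o p : ℕ) : ℝ) = |((∏ i, a p (o.succ.succAbove i) : ℤ) : ℝ)| := by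
              rw [hg, Nat.cast_natAbs, Int.cast_abs]
            rw [← h5]
            exact_mod_cast this
          · have := (hT2 p hp).2
            have h5 : ((g o p : ℕ) : ℝ) = |((∏ i, a p (o.succ.succAbove i) : ℤ) : ℝ)| := by
              rw [hg, Nat.cast_natAbs, Int.cast_abs]
            rw [← h5]
            exact_mod_cast this
    have hmap : ∀ p ∈ T', oo p ∈ (Finset.univ : Finset (Fin 3)) := fun p _ => Finset.mem_univ _
    rw [Finset.card_eq_sum_card_fiberwise hmap]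
    push_cast
    calc ∑ o : Fin 3, (((T'.filter (fun p => oo p = o)).card : ℕ) : ℝ)
        ≤ ∑ _o : Fin 3, (Nat.log 2 N + 1) * M := Finset.sum_le_sum (fun o _ => hcl o)
      _ = 3 * ((Nat.log 2 N + 1) * M) := by simp
  have hne : ∀ p ∈ T, 0 < p.2 ∧ |(p.1 : ℝ)| ≤ H ∧ (p.2 : ℝ) ≤ H ∧ Gf A B p.1 p.2 ≠ 0 := by
    intro p hp
    obtain ⟨h1, h2, h3, h4, h5, -⟩ := hTT p hp
    exact ⟨h2, h3, h4, h5⟩
  have hmain := hdya H hH T (3 * ((Nat.log 2 N + 1) * M)) (by positivity) hne hfib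
  refine hmain.trans ?_
  -- estimates
  have hlY : 0 ≤ Real.log (H * D) := Real.log_nonneg hY1
  have hlH : 0 ≤ Real.log H := Real.log_nonneg hH
  have g1 : Real.log H + 1 ≤ Real.log (H * D) + 1 := by
    have := Real.log_le_log hH0 hHY
    linarith
  have g1' : 0 ≤ Real.log H + 1 := by linarith
  have g2 : ((Nat.log 2 N : ℕ) : ℝ) + 1 ≤ (2 + 2 * Real.log K) * (Real.log (H * D) + 1) := by
    have hl2 : (1 : ℝ) / 2 < Real.log 2 := by
      have := Real.log_two_gt_d9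
      linarith
    have hN0 : N ≠ 0 := by
      rw [hN]
      have := Nat.floor_pos.mpr hQ1
      omega
    have e1 : 2 ^ Nat.log 2 N ≤ N := Nat.pow_log_le_self 2 hN0
    have e2 : (2 : ℝ) ^ Nat.log 2 N ≤ Q := by
      refine le_trans ?_ hNQ
      exact_mod_cast e1
    have e3 := Real.log_le_log (by positivity) e2
    rw [Real.log_pow, hQ, Real.log_mul hKp.ne' hD0.ne'] at e3
    have e5 : Real.log D ≤ Real.log (H * D) := Real.log_le_log hD0 hDY
    have e4 : (0 : ℝ) ≤ ((Nat.log 2 N : ℕ) : ℝ) := by positivity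
    have e6 : ((Nat.log 2 N : ℕ) : ℝ) ≤ 2 * (Real.log K + Real.log D) := by nlinarith
    have e7 : 0 ≤ Real.log K * Real.log (H * D) := mul_nonneg hlK hlY
    nlinarith
  have g3 : Q ^ (ε / 2) ≤ K ^ (ε / 2) * (H * D) ^ (ε / 2) := by
    rw [← Real.mul_rpow hKp.le hY0.le]
    apply Real.rpow_le_rpow hQ0.le _ (by positivity)
    rw [hQ]
    gcongr
  have g4 : Q + √(C1 * H * Q) ≤ (K + √C1 * √K) * (D + √(H * D)) := by
    have e3 : √(C1 * H * Q) = √C1 * √K * √(H * D) := by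
      rw [hQ, show C1 * H * (K * D) = C1 * (K * (H * D)) by ring, Real.sqrt_mul hC1p.le,
        Real.sqrt_mul hKp.le, mul_assoc]
    rw [e3, hQ]
    have p1 : 0 ≤ K * √(H * D) := by positivity
    have p2 : 0 ≤ √C1 * √K * D := by positivity
    nlinarith
  have g5 := hlog (H * D) hY1
  have hlY1 : 0 ≤ Real.log (H * D) + 1 := by linarith
  calc C1 * (Real.log H + 1) ^ 2 * (3 * ((Nat.log 2 N + 1) * M))
      ≤ C1 * (Real.log (H * D) + 1) ^ 2 *
          (3 * (((2 + 2 * Real.log K) * (Real.log (H * D) + 1)) * M)) := by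
        gcongr
    _ = C1 * 3 * (2 + 2 * Real.log K) * (Real.log (H * D) + 1) ^ 3 * C2 * Q ^ (ε / 2) *
        (Q + √(C1 * H * Q)) := by
        rw [hM]
        ring
    _ ≤ C1 * 3 * (2 + 2 * Real.log K) * (C4 * (H * D) ^ (ε / 2)) * C2 *
        (K ^ (ε / 2) * (H * D) ^ (ε / 2)) * ((K + √C1 * √K) * (D + √(H * D))) := by
        gcongr
    _ = C1 * 3 * (2 + 2 * Real.log K) * C4 * C2 * K ^ (ε / 2) * (K + √C1 * √K) *
        ((H * D) ^ (ε / 2) * (H * D) ^ (ε / 2)) * (D + √(H * D)) := by ring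
    _ = C1 * 3 * (2 + 2 * Real.log K) * C4 * C2 * K ^ (ε / 2) * (K + √C1 * √K) * (H * D) ^ ε *
        (D + √(H * D)) := by
        rw [← Real.rpow_add hY0]
        norm_num

end Pool.Agent.H80.PT
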