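import Pool.Agent.H80.PT.Defs

/-!
[H80 PT LBL]  The label of a pair for `d = q m`.

As in the proof of `fac3` (Pool/Agent/H12/EH/Fac.lean): `∏ frm e i r s = d w²`, `frm e i r s = a_i y_i²` (`sqf_dec`), `Fac_core`
with `n = 4` and `Δ = ∏ |e_i - e_j|` gives `∏ |a_i| ≤ Δ⁴ d`.  `q ∣ a_i` for some `i`: in natural numbers
`(∏ |a_i|) (∏ y_i)² = d |w|²`; the exponent of `q` in `d` is 1 (squarefree), so the exponent of `q` in `∏ |a_i|` is odd, hence
`q ∣ ∏ |a_i|`, `q ∣ a_i` for some `i : Fin 4`; `i ≠ 0` because `a_0 ∣ frm e 0 r s = s` and `q ∤ s`; so `i = o.succ`.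
`q ≤ |a_i|` since `a_i ≠ 0`.  `q ∏_{j ≠ i} |a_j| ≤ |a_i| ∏_{j ≠ i} |a_j| ≤ K q m`
(`Fin.prod_univ_succAbove`), divide by `q`.
-/

set_option autoImplicit false

namespace Pool.Agent.H80.PT

open Pool.Agent.H12.EH

private theorem lbl_abs {n : ℕ} (a : Fin n → ℤ) : |((∏ i, a i : ℤ) : ℝ)| = ((∏ i, (a i).natAbs : ℕ) : ℝ) := by
  push_cast
  rw [Finset.abs_prod]
  apply Finset.prod_congr rfl
  intro i _
  rw [Nat.cast_natAbs]
  push_cast
  rfl

/-- the prime `q` divides one of the `a_i` -/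
private theorem lbl_dvd {n : ℕ} {F a y : Fin n → ℤ} {d : ℕ} {w : ℤ} (hF : ∀ i, F i = a i * y i ^ 2)
    (ha : ∀ i, Squarefree (a i)) (hy : ∀ i, y i ≠ 0) (hw : w ≠ 0) (hd : Squarefree d)
    (hp : ∏ i, F i = d * w ^ 2) {q : ℕ} (hq : q.Prime) (hqd : q ∣ d) : ∃ i, (q : ℤ) ∣ a i := by
  have hd0 : d ≠ 0 := hd.ne_zero
  have ha0 : ∀ i, (a i).natAbs ≠ 0 := fun i => by
    rw [Int.natAbs_ne_zero]
    exact (ha i).ne_zero
  have hP0 : ∏ i, (a i).natAbs ≠ 0 := Finset.prod_ne_zero_iff.mpr (fun i _ => ha0 i)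
  have hQ0 : ∏ i, (y i).natAbs ≠ 0 := Finset.prod_ne_zero_iff.mpr (fun i _ => by
    rw [Int.natAbs_ne_zero]
    exact hy i)
  have hw0 : w.natAbs ≠ 0 := by rwa [Int.natAbs_ne_zero]
  have heq : (∏ i, (a i).natAbs) * (∏ i, (y i).natAbs) ^ 2 = d * w.natAbs ^ 2 := by
    have h1 := congrArg Int.natAbs hp
    rw [Int.natAbs_mul, Int.natAbs_pow, Int.natAbs_natCast] at h1
    rw [← h1, Finset.prod_congr rfl (fun i _ => hF i), Finset.prod_mul_distrib, Finset.prod_pow,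
      Int.natAbs_mul, Int.natAbs_pow]
    congr 1
    · exact (map_prod Int.natAbsHom a Finset.univ).symm
    · congr 1
      exact (map_prod Int.natAbsHom y Finset.univ).symm
  have h2 := congrArg (fun m => m.factorization q) heq
  rw [Nat.factorization_mul hP0 (pow_ne_zero 2 hQ0), Nat.factorization_mul hd0 (pow_ne_zero 2 hw0),
    Nat.factorization_pow, Nat.factorization_pow] at h2
  simp only [Finsupp.coe_add, Pi.add_apply, Finsupp.coe_smul, Pi.smul_apply, smul_eq_mul] at h2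
  have h3 : d.factorization q = 1 := by
    have h4 := hd.natFactorization_le_one q
    have h5 : 1 ≤ d.factorization q := (hq.dvd_iff_one_le_factorization hd0).mp hqd
    omega
  have h6 : (∏ i, (a i).natAbs).factorization q ≠ 0 := by omega
  have h7 : q ∣ ∏ i, (a i).natAbs := Nat.dvd_of_factorization_pos h6
  obtain ⟨i, -, hi⟩ := (Prime.dvd_finsetProd_iff hq.prime _).1 h7
  exact ⟨i, Int.natCast_dvd.mpr hi⟩

theorem lbl {A B : ℤ} {e : Fin 3 → ℤ} (hρ : Roots A B (fun v => (e v : ℂ))) : ∃ K : ℝ, 1 ≤ K ∧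
    ∀ (H : ℝ) (d : ℕ) (r s : ℤ) (q m : ℕ), Squarefree d → q.Prime → d = q * m → Tw A B H d r s → ¬ (q : ℤ) ∣ s →
      ∃ (o : Fin 3) (a y : Fin 4 → ℤ), (∀ i, Squarefree (a i)) ∧ (∀ i, 0 < y i) ∧
        (∀ i, frm e i r s = a i * y i ^ 2) ∧ (q : ℝ) ≤ |((a o.succ : ℤ) : ℝ)| ∧ |((∏ i, a i : ℤ) : ℝ)| ≤ K * d ∧
        |((∏ i : Fin 3, a (o.succ.succAbove i) : ℤ) : ℝ)| ≤ K * m := by
  have hGf : ∀ r s : ℤ, Gf A B r s = (r - e 0 * s) * (r - e 1 * s) * (r - e 2 * s) := by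
    intro r s
    have h := Gf_prod hρ r s
    exact_mod_cast h
  have hne : ∀ u v : Fin 3, u ≠ v → (e u - e v).natAbs ≠ 0 := by
    intro u v huv h
    rw [Int.natAbs_eq_zero] at h
    apply hρ.ne u v huv
    have : e u = e v := by linarith
    simp only [this]
  set Δ : ℕ := (e 0 - e 1).natAbs * (e 0 - e 2).natAbs * (e 1 - e 2).natAbs with hΔ
  have h01 := hne 0 1 (by decide)
  have h02 := hne 0 2 (by decide)
  have h12 := hne 1 2 (by decide)
  have hΔ0 : 0 < Δ := by positivity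
  have hΔ1 : (1 : ℝ) ≤ Δ := by exact_mod_cast hΔ0
  have d01 : (e 0 - e 1).natAbs ∣ Δ := ⟨(e 0 - e 2).natAbs * (e 1 - e 2).natAbs, by rw [hΔ]; ring⟩
  have d02 : (e 0 - e 2).natAbs ∣ Δ := ⟨(e 0 - e 1).natAbs * (e 1 - e 2).natAbs, by rw [hΔ]; ring⟩
  have d12 : (e 1 - e 2).natAbs ∣ Δ := ⟨(e 0 - e 1).natAbs * (e 0 - e 2).natAbs, by rw [hΔ]; ring⟩
  refine ⟨(Δ : ℝ) ^ 4, one_le_pow₀ hΔ1, ?_⟩
  rintro H d r s q m hd hq hdqm ⟨hc, hs, -, -, w, hw, hdw⟩ hqs
  have hd0 : (0 : ℤ) < d := by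
    have := hd.ne_zero
    positivity
  have hfr : ∏ i, frm e i r s = d * w ^ 2 := by
    rw [← hdw, hGf, Fin.prod_univ_four]
    simp only [frm, Matrix.cons_val]
    ring
  have hnz : ∀ i, frm e i r s ≠ 0 := by
    have h1 : ∏ i, frm e i r s ≠ 0 := by
      rw [hfr]
      positivity
    intro i
    exact (Finset.prod_ne_zero_iff.mp h1) i (Finset.mem_univ i)
  choose a y ha hy hay using fun i => sqf_dec _ (hnz i)
  have g01 := (Fac_gcd2 hc (e 0) (e 1)).trans d01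
  have g02 := (Fac_gcd2 hc (e 0) (e 2)).trans d02
  have g12 := (Fac_gcd2 hc (e 1) (e 2)).trans d12
  have gs : ∀ v, Int.gcd s (r - e v * s) ∣ Δ := by
    intro v
    rw [Int.isCoprime_iff_gcd_eq_one.mp (Fac_lin hc (e v))]
    exact one_dvd _
  have key := Fac_core 4 Δ hΔ0 (fun i => frm e i r s) a y d w hay ha (fun i => (hy i).ne')
    hw hd
    (by
      intro i j hij
      fin_cases i <;> fin_cases j <;> simp only [frm, Matrix.cons_val, Fin.mk_one, Fin.zero_eta,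
        Fin.reduceFinMk, ne_eq, not_true_eq_false] at hij ⊢ <;>
      first
        | exact gs _
        | exact g01
        | exact g02
        | exact g12
        | (rw [Int.gcd_comm]; exact gs _)
        | (rw [Int.gcd_comm]; exact g01)
        | (rw [Int.gcd_comm]; exact g02)
        | (rw [Int.gcd_comm]; exact g12))
    hfr
  obtain ⟨i, hi⟩ := lbl_dvd hay ha (fun i => (hy i).ne') hw hd hfr hq ⟨m, hdqm⟩
  have hi0 : i ≠ 0 := by
    rintro rfl
    apply hqs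
    have h1 := hay 0
    have h2 : frm e 0 r s = s := by
      simp [frm]
    rw [h2] at h1
    rw [h1]
    exact hi.mul_right _
  obtain ⟨o, rfl⟩ := Fin.exists_succ_eq.2 hi0
  have hpos : ∀ j, 1 ≤ (a j).natAbs := fun j => Int.natAbs_pos.mpr (ha j).ne_zero
  have hq1 : q ≤ (a o.succ).natAbs := Nat.le_of_dvd (hpos _) (Int.natCast_dvd.mp hi)
  have hsplit : ∏ j, (a j).natAbs = (a o.succ).natAbs * ∏ j : Fin 3, (a (o.succ.succAbove j)).natAbs :=
    Fin.prod_univ_succAbove _ _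
  have habs : |((a o.succ : ℤ) : ℝ)| = ((a o.succ).natAbs : ℝ) := by
    rw [Nat.cast_natAbs]
    push_cast
    rfl
  refine ⟨o, a, y, ha, hy, hay, ?_, ?_, ?_⟩
  · rw [habs]
    exact_mod_cast hq1
  · rw [lbl_abs a]
    have h2 : ((∏ i, (a i).natAbs : ℕ) : ℝ) ≤ ((Δ ^ 4 * d : ℕ) : ℝ) := by exact_mod_cast key
    refine h2.trans (le_of_eq ?_)
    push_cast
    ring
  · rw [lbl_abs (fun i : Fin 3 => a (o.succ.succAbove i))]
    have h1 : q * ∏ j : Fin 3, (a (o.succ.succAbove j)).natAbs ≤ q * (Δ ^ 4 * m) := by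
      calc q * ∏ j : Fin 3, (a (o.succ.succAbove j)).natAbs
          ≤ (a o.succ).natAbs * ∏ j : Fin 3, (a (o.succ.succAbove j)).natAbs := Nat.mul_le_mul_right _ hq1
        _ = ∏ j, (a j).natAbs := hsplit.symm
        _ ≤ Δ ^ 4 * d := key
        _ = q * (Δ ^ 4 * m) := by
            rw [hdqm]
            ring
    have h2 := Nat.le_of_mul_le_mul_left h1 hq.pos
    have h3 : ((∏ j : Fin 3, (a (o.succ.succAbove j)).natAbs : ℕ) : ℝ) ≤ ((Δ ^ 4 * m : ℕ) : ℝ) := by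
      exact_mod_cast h2
    refine h3.trans (le_of_eq ?_)
    push_cast
    ring

end Pool.Agent.H80.PT
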