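import Pool.Agent.H80.PT.Lbl

/-!
[H80 PT LBLF]  The label of a pair, with a factorization of `d`.

As `lbl` (Lbl.lean).  `(∏ |a_i|) (∏ y_i)² = d |w|²`; every prime `p ∣ d` has exponent 1 in `d`, so it divides `∏ |a_i|` (`lbl_dvd` in Lbl.lean),
so it divides some `a_i`.  Choose for each prime factor `p` of `d` such an index `j p`, and put `b i = ∏ p ∈ d.primeFactors with j p = i, p`.
`∏ i, b i = ∏ p ∈ d.primeFactors, p = d` (`Finset.prod_fiberwise`, `Nat.prod_primeFactors_of_squarefree`) and `b i ∣ |a_i|` (a product of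
different primes which divide `a_i`: `Finset.prod_primes_dvd` or pairwise coprime).
-/

set_option autoImplicit false

namespace Pool.Agent.H80.PT

open Pool.Agent.H12.EH

private theorem lblF_abs {n : ℕ} (a : Fin n → ℤ) : |((∏ i, a i : ℤ) : ℝ)| = ((∏ i, (a i).natAbs : ℕ) : ℝ) := by
  push_cast
  rw [Finset.abs_prod]
  apply Finset.prod_congr rfl
  intro i _
  rw [Nat.cast_natAbs]
  push_cast
  rfl

/-- the prime `q` divides one of the `a_i` -/
private theorem lblF_dvd {n : ℕ} {F a y : Fin n → ℤ} {d : ℕ} {w : ℤ} (hF : ∀ i, F i = a i * y i ^ 2)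
    (ha : ∀ i, Squarefree (a i)) (hy : ∀ i, y i ≠ 0) (hw : w ≠ 0) (hd : Squarefree d)
    (hp : ∏ i, F i = d * w ^ 2) {q : ℕ} (hq : q.Prime) (hqd : q ∣ d) : ∃ i, (q : ℤ) ∣ a i := by
  have hd0 : d ≠ 0 := hd.ne_zero
  have ha0 : ∀ i, (a i).natAbs ≠ 0 := fun i => by
    rw [Int.natAbs_ne_zero]
    exact (ha i).ne_zero
  have hP0 : ∏ i, (a i).natAbs ≠ 0 := Finset.prod_ne_zero_iff.mpr (fun i _ => ha0 i)
  have hQ0 : ∏ i, (y i).natAbs ≠ 0 := Finset.prod_ne_zero_iff.mpr (fun i _ => by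
    rw [Int.natAbs_ne_zero]
    exact hy i)
  have hw0 : w.natAbs ≠ 0 := by rwa [Int.natAbs_ne_zero]
  have heq : (∏ i, (a i).natAbs) * (∏ i, (y i).natAbs) ^ 2 = d * w.natAbs ^ 2 := by
    have h1 := congrArg Int.natAbs hp
    rw [Int.natAbs_mul, Int.natAbs_pow, Int.natAbs_natCast] at h1
    rw [← h1, Finset.prod_congr rfl (fun i _ => hF i), Finset.prod_mul_distrib, Finset.prod_pow,
      Int.natAbs_mul, Int.natAbs_pow]
    congr 1
    · exact (map_prod Int.natAbsHom a Finset.univ).symm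
    · congr 1
      exact (map_prod Int.natAbsHom y Finset.univ).symm
  have h2 := congrArg (fun m => m.factorization q) heq
  rw [Nat.factorization_mul hP0 (pow_ne_zero 2 hQ0), Nat.factorization_mul hd0 (pow_ne_zero 2 hw0),
    Nat.factorization_pow, Nat.factorization_pow] at h2
  simp only [Finsupp.coe_add, Pi.add_apply, Finsupp.coe_smul, Pi.smul_apply, smul_eq_mul] at h2
  have h3 : d.factorization q = 1 := by
    have h4 := hd.natFactorization_le_one q
    have h5 : 1 ≤ d.factorization q := (hq.dvd_iff_one_le_factorization hd0).mp hqd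
    omega
  have h6 : (∏ i, (a i).natAbs).factorization q ≠ 0 := by omega
  have h7 : q ∣ ∏ i, (a i).natAbs := Nat.dvd_of_factorization_pos h6
  obtain ⟨i, -, hi⟩ := (Prime.dvd_finsetProd_iff hq.prime _).1 h7
  exact ⟨i, Int.natCast_dvd.mpr hi⟩

theorem lblF {A B : ℤ} {e : Fin 3 → ℤ} (hρ : Roots A B (fun v => (e v : ℂ))) : ∃ K : ℝ, 1 ≤ K ∧
    ∀ (H : ℝ) (d : ℕ) (r s : ℤ), Squarefree d → Tw A B H d r s →
      ∃ (a y : Fin 4 → ℤ) (b : Fin 4 → ℕ), (∀ i, Squarefree (a i)) ∧ (∀ i, 0 < y i) ∧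
        (∀ i, frm e i r s = a i * y i ^ 2) ∧ |((∏ i, a i : ℤ) : ℝ)| ≤ K * d ∧ ∏ i, b i = d ∧ ∀ i, (b i : ℤ) ∣ a i := by
  have hGf : ∀ r s : ℤ, Gf A B r s = (r - e 0 * s) * (r - e 1 * s) * (r - e 2 * s) := by
    intro r s
    have h := Gf_prod hρ r s
    exact_mod_cast h
  have hne : ∀ u v : Fin 3, u ≠ v → (e u - e v).natAbs ≠ 0 := by
    intro u v huv h
    rw [Int.natAbs_eq_zero] at h
    apply hρ.ne u v huv
    have : e u = e v := by linarith
    simp only [this]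
  set Δ : ℕ := (e 0 - e 1).natAbs * (e 0 - e 2).natAbs * (e 1 - e 2).natAbs with hΔ
  have h01 := hne 0 1 (by decide)
  have h02 := hne 0 2 (by decide)
  have h12 := hne 1 2 (by decide)
  have hΔ0 : 0 < Δ := by positivity
  have hΔ1 : (1 : ℝ) ≤ Δ := by exact_mod_cast hΔ0
  have d01 : (e 0 - e 1).natAbs ∣ Δ := ⟨(e 0 - e 2).natAbs * (e 1 - e 2).natAbs, by rw [hΔ]; ring⟩
  have d02 : (e 0 - e 2).natAbs ∣ Δ := ⟨(e 0 - e 1).natAbs * (e 1 - e 2).natAbs, by rw [hΔ]; ring⟩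
  have d12 : (e 1 - e 2).natAbs ∣ Δ := ⟨(e 0 - e 1).natAbs * (e 0 - e 2).natAbs, by rw [hΔ]; ring⟩
  refine ⟨(Δ : ℝ) ^ 4, one_le_pow₀ hΔ1, ?_⟩
  rintro H d r s hd ⟨hc, hs, -, -, w, hw, hdw⟩
  have hd0 : (0 : ℤ) < d := by
    have := hd.ne_zero
    positivity
  have hfr : ∏ i, frm e i r s = d * w ^ 2 := by
    rw [← hdw, hGf, Fin.prod_univ_four]
    simp only [frm, Matrix.cons_val]
    ring
  have hnz : ∀ i, frm e i r s ≠ 0 := by
    have h1 : ∏ i, frm e i r s ≠ 0 := by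
      rw [hfr]
      positivity
    intro i
    exact (Finset.prod_ne_zero_iff.mp h1) i (Finset.mem_univ i)
  choose a y ha hy hay using fun i => sqf_dec _ (hnz i)
  have g01 := (Fac_gcd2 hc (e 0) (e 1)).trans d01
  have g02 := (Fac_gcd2 hc (e 0) (e 2)).trans d02
  have g12 := (Fac_gcd2 hc (e 1) (e 2)).trans d12
  have gs : ∀ v, Int.gcd s (r - e v * s) ∣ Δ := by
    intro v
    rw [Int.isCoprime_iff_gcd_eq_one.mp (Fac_lin hc (e v))]
    exact one_dvd _
  have key := Fac_core 4 Δ hΔ0 (fun i => frm e i r s) a y d w hay ha (fun i => (hy i).ne')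
    hw hd
    (by
      intro i j hij
      fin_cases i <;> fin_cases j <;> simp only [frm, Matrix.cons_val, Fin.mk_one, Fin.zero_eta,
        Fin.reduceFinMk, ne_eq, not_true_eq_false] at hij ⊢ <;>
      first
        | exact gs _
        | exact g01
        | exact g02
        | exact g12
        | (rw [Int.gcd_comm]; exact gs _)
        | (rw [Int.gcd_comm]; exact g01)
        | (rw [Int.gcd_comm]; exact g02)
        | (rw [Int.gcd_comm]; exact g12))
    hfr
  have hex : ∀ p : ℕ, ∃ i : Fin 4, p ∈ d.primeFactors → (p : ℤ) ∣ a i := by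
    intro p
    by_cases hp : p ∈ d.primeFactors
    · obtain ⟨i, hi⟩ := lblF_dvd hay ha (fun i => (hy i).ne') hw hd hfr (Nat.prime_of_mem_primeFactors hp)
        (Nat.dvd_of_mem_primeFactors hp)
      exact ⟨i, fun _ => hi⟩
    · exact ⟨0, fun h => absurd h hp⟩
  choose j hj using hex
  refine ⟨a, y, fun i => ∏ p ∈ d.primeFactors.filter (fun p => j p = i), p, ha, hy, hay, ?_, ?_, ?_⟩
  · rw [lblF_abs a]
    have h2 : ((∏ i, (a i).natAbs : ℕ) : ℝ) ≤ ((Δ ^ 4 * d : ℕ) : ℝ) := by exact_mod_cast key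
    refine h2.trans (le_of_eq ?_)
    push_cast
    ring
  · rw [Finset.prod_fiberwise]
    exact Nat.prod_primeFactors_of_squarefree hd
  · intro i
    rw [Int.natCast_dvd]
    refine Finset.prod_primes_dvd _ (fun p hp => ?_) (fun p hp => ?_)
    · exact (Nat.prime_of_mem_primeFactors (Finset.mem_filter.1 hp).1).prime
    · obtain ⟨hp1, hp2⟩ := Finset.mem_filter.1 hp
      rw [← hp2]
      exact Int.natCast_dvd.1 (hj p hp1)

end Pool.Agent.H80.PT
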