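import Pool.Agent.H80.PT.Mv
import Pool.Agent.H80.PT.Lbl
import Pool.Agent.H80.PT.Fb
import Pool.Agent.H80.PT.FbB
import Pool.Agent.H12.EH.Main

/-!
[H80 PT MAIN]  The theorem.

`lowP A B X Y D` is the set in question.  It is contained in `low A B X Y` (`low_card`: at most `2 X` elements).
`e` from `nroots_cases`.  Two bounds:
(1) `C X^ε (√X + D Y^(2/3))`.  If `D Y^(2/3) > X` this is trivial.  Otherwise `P = Y^(2/3)`, `Y ≤ X^(3/2)`, `D ≤ X`.  The `d = q m`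
with `q ≤ P`, `m ≤ D` are at most `P D` (image of `Icc 1 ⌊P⌋ × Icc 1 ⌊D⌋`).  For the other ones take the pair of `tw_of_low`, move it by `mv` (for
the prime `q` of `d`), and take the label of `lbl`; `d ↦ (r, s)` is injective (`sqf_unique`, as in `red`).  `fb` with `H = K₂ C Y²`, `K` of
`lbl`, gives `C (H D)^(ε') (D √(H/P) + √X)`, `√(H / P) = √(K₂ C) Y^(2/3)` and `(H D)^(ε') ≤ C X^(4 ε')`.
(2) `C X^ε (D + √D Y)`.  If this is `> X` it is trivial, otherwise `D, Y ≤ X`; the same with all `q` and `fbB`.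
The minimum of the two bounds is at most the right-hand side.
-/

set_option autoImplicit false

namespace Pool.Agent.H80.PT

open Pool.Agent.H12.EH

/-- the `d = q m ∈ low A B X Y` with `q` prime, `m ≤ D` -/
def lowP (A B : ℤ) (X Y D : ℝ) : Set ℕ :=
  {d | d ∈ low A B X Y ∧ ∃ q m : ℕ, q.Prime ∧ (m : ℝ) ≤ D ∧ d = q * m}

/-- the pairs for the `d` with `q ≥ P` -/
private theorem main_red {A B : ℤ} (hD : 4 * A ^ 3 + 27 * B ^ 2 ≠ 0) {e : Fin 3 → ℤ}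
    (hρ : Roots A B (fun v => (e v : ℂ))) : ∃ K : ℝ, 1 ≤ K ∧ ∀ X Y D P : ℝ, 1 ≤ X → 1 ≤ Y → 1 ≤ D →
    ∃ T : Finset (ℤ × ℤ), (∀ p ∈ T, IsCoprime p.1 p.2 ∧ 0 < p.2 ∧ |(p.1 : ℝ)| ≤ K * Y ^ 2 ∧ (p.2 : ℝ) ≤ K * Y ^ 2 ∧
      Gf A B p.1 p.2 ≠ 0 ∧
      ∃ (o : Fin 3) (a y : Fin 4 → ℤ), (∀ i, Squarefree (a i)) ∧ (∀ i, 0 < y i) ∧
        (∀ i, frm e i p.1 p.2 = a i * y i ^ 2) ∧ P ≤ |((a o.succ : ℤ) : ℝ)| ∧ |((∏ i, a i : ℤ) : ℝ)| ≤ K * X ∧
        |((∏ i : Fin 3, a (o.succ.succAbove i) : ℤ) : ℝ)| ≤ K * D) ∧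
      (({d | d ∈ low A B X Y ∧ ∃ q m : ℕ, q.Prime ∧ (m : ℝ) ≤ D ∧ d = q * m ∧ P ≤ (q : ℝ)} : Set ℕ).ncard : ℝ) ≤
        T.card := by
  classical
  obtain ⟨C, hC, htw⟩ := tw_of_low A B hD
  obtain ⟨K₂, hK₂, hmv⟩ := mv hρ
  obtain ⟨K, hK, hlbl⟩ := lbl hρ
  refine ⟨max (K₂ * C) K, le_max_of_le_right hK, ?_⟩
  intro X Y D P hX hY hDD
  obtain ⟨M, hM⟩ : ∃ M : ℝ, M = max (K₂ * C) K := ⟨_, rfl⟩
  rw [← hM]
  have hM1 : K₂ * C ≤ M := by rw [hM]; exact le_max_left _ _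
  have hM2 : K ≤ M := by rw [hM]; exact le_max_right _ _
  obtain ⟨Z, hZ⟩ : ∃ Z : Set ℕ, Z = {d | d ∈ low A B X Y ∧ ∃ q m : ℕ, q.Prime ∧ (m : ℝ) ≤ D ∧ d = q * m ∧ P ≤ (q : ℝ)} :=
    ⟨_, rfl⟩
  rw [← hZ]
  have hZfin : Z.Finite := by
    refine (low_fin A B X Y).subset ?_
    rw [hZ]
    rintro d ⟨h, -⟩
    exact h
  have key : ∀ d ∈ Z, ∃ p : ℤ × ℤ, (IsCoprime p.1 p.2 ∧ 0 < p.2 ∧ |(p.1 : ℝ)| ≤ M * Y ^ 2 ∧ (p.2 : ℝ) ≤ M * Y ^ 2 ∧
      Gf A B p.1 p.2 ≠ 0 ∧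
      ∃ (o : Fin 3) (a y : Fin 4 → ℤ), (∀ i, Squarefree (a i)) ∧ (∀ i, 0 < y i) ∧
        (∀ i, frm e i p.1 p.2 = a i * y i ^ 2) ∧ P ≤ |((a o.succ : ℤ) : ℝ)| ∧ |((∏ i, a i : ℤ) : ℝ)| ≤ M * X ∧
        |((∏ i : Fin 3, a (o.succ.succAbove i) : ℤ) : ℝ)| ≤ M * D) ∧
      ∃ w : ℤ, w ≠ 0 ∧ p.2 * Gf A B p.1 p.2 = d * w ^ 2 := by
    intro d hd
    rw [hZ] at hd
    obtain ⟨hlow, q, m, hq, hm, hdq, hPq⟩ := hd
    obtain ⟨r0, s0, ht0⟩ := htw X Y (by linarith) d hlow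
    obtain ⟨r, s, ht, hqs⟩ := hmv (C * Y ^ 2) d r0 s0 q hlow.2.1 hq ht0
    obtain ⟨o, a, y, h1, h2, h3, h4, h5, h6⟩ := hlbl _ d r s q m hlow.2.1 hq hdq ht hqs
    obtain ⟨t1, t2, t3, t4, w, hw, t5⟩ := ht
    have hY2 : 0 ≤ Y ^ 2 := sq_nonneg Y
    have hH : K₂ * (C * Y ^ 2) ≤ M * Y ^ 2 := by
      rw [← mul_assoc]
      exact mul_le_mul_of_nonneg_right hM1 hY2
    have hGne : Gf A B r s ≠ 0 := by
      intro h0
      rw [h0, mul_zero] at t5
      have h7 : (d : ℤ) ≠ 0 := by exact_mod_cast hlow.2.1.ne_zero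
      exact (mul_ne_zero h7 (pow_ne_zero 2 hw)) t5.symm
    refine ⟨(r, s), ⟨t1, t2, t3.trans hH, t4.trans hH, hGne, o, a, y, h1, h2, h3, hPq.trans h4, ?_, ?_⟩, w, hw, t5⟩
    · refine h5.trans ?_
      have h7 : (d : ℝ) ≤ X := hlow.1
      exact mul_le_mul hM2 h7 (Nat.cast_nonneg _) (by linarith)
    · refine h6.trans ?_
      exact mul_le_mul hM2 hm (Nat.cast_nonneg _) (by linarith)
  choose! f hf w hw0 hw using key
  refine ⟨hZfin.toFinset.image f, ?_, ?_⟩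
  · intro p hp
    rw [Finset.mem_image] at hp
    obtain ⟨d, hd, rfl⟩ := hp
    rw [Set.Finite.mem_toFinset] at hd
    exact hf d hd
  · have h1 : (hZfin.toFinset.image f).card = hZfin.toFinset.card := by
      apply Finset.card_image_of_injOn
      intro d hd d' hd' hdd
      rw [Set.Finite.coe_toFinset] at hd hd'
      have g1 := hw d hd
      have g2 := hw d' hd'
      rw [hdd, g2] at g1
      have hsd : Squarefree d := by
        rw [hZ] at hd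
        exact hd.1.2.1
      have hsd' : Squarefree d' := by
        rw [hZ] at hd'
        exact hd'.1.2.1
      apply sqf_unique hsd hsd' (Int.natAbs_ne_zero.mpr (hw0 d' hd')) (a := (w d).natAbs)
      have h3 : (d : ℤ) * (w d) ^ 2 = d' * (w d') ^ 2 := g1.symm
      have h4 := congrArg Int.natAbs h3
      rw [Int.natAbs_mul, Int.natAbs_mul, Int.natAbs_pow, Int.natAbs_pow, Int.natAbs_natCast, Int.natAbs_natCast] at h4
      exact h4
    rw [h1, Set.ncard_eq_toFinset_card Z hZfin]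

theorem mainP (A B : ℤ) (hD : 4 * A ^ 3 + 27 * B ^ 2 ≠ 0) (hr : nroots A B = 3) (ε : ℝ) (hε : 0 < ε) :
    ∃ C : ℝ, 0 < C ∧ ∀ X Y D : ℝ, 1 ≤ X → 1 ≤ Y → 1 ≤ D →
      ((lowP A B X Y D).ncard : ℝ) ≤
        C * X ^ ε * (X ^ (1 / 2 : ℝ) + min (D * Y ^ (2 / 3 : ℝ)) (D + D ^ (1 / 2 : ℝ) * Y)) := by
  classical
  obtain ⟨e, he, hρ⟩ : ∃ e : Fin 3 → ℤ, (∀ i j, i ≠ j → e i ≠ e j) ∧ Roots A B (fun v => (e v : ℂ)) := by
    rcases nroots_cases A B hD with ⟨hn, _⟩ | ⟨hn, _⟩ | ⟨_, h⟩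
    · omega
    · omega
    · exact h
  obtain ⟨K, hK, hred⟩ := main_red hD hρ
  obtain ⟨C1, hC1, hfb⟩ := fb hρ K hK (ε / 4) (by positivity)
  obtain ⟨C2, hC2, hfbB⟩ := fbB hρ K hK (ε / 4) (by positivity)
  have hK0 : 0 < K := by linarith
  have hKe : 1 ≤ K ^ (ε / 4) := Real.one_le_rpow hK (by positivity)
  have hsK : 1 ≤ √K := Real.one_le_sqrt.mpr hK
  have hsub : ∀ X Y D : ℝ, lowP A B X Y D ⊆ low A B X Y := fun X Y D d hd => hd.1
  have hlow : ∀ X Y D : ℝ, 1 ≤ X → ((lowP A B X Y D).ncard : ℝ) ≤ 2 * X := by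
    intro X Y D hX
    refine le_trans ?_ (low_card A B X Y hX)
    exact_mod_cast Set.ncard_le_ncard (hsub X Y D) (low_fin A B X Y)
  -- the first bound
  obtain ⟨c1, hc1⟩ : ∃ c : ℝ, c = 2 + C1 * K ^ (ε / 4) * √K := ⟨_, rfl⟩
  obtain ⟨c2, hc2⟩ : ∃ c : ℝ, c = 2 + C2 * K ^ (ε / 4) * √K := ⟨_, rfl⟩
  have hc1p : 0 < c1 := by rw [hc1]; positivity
  have hc2p : 0 < c2 := by rw [hc2]; positivity
  have b1 : ∀ X Y D : ℝ, 1 ≤ X → 1 ≤ Y → 1 ≤ D → ((lowP A B X Y D).ncard : ℝ) ≤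
      c1 * X ^ ε * (X ^ (1 / 2 : ℝ) + D * Y ^ (2 / 3 : ℝ)) := by
    intro X Y D hX hY hD1
    have hX0 : 0 < X := by linarith
    have hY0 : 0 < Y := by linarith
    have hD0 : 0 < D := by linarith
    have hXe : 1 ≤ X ^ ε := Real.one_le_rpow hX hε.le
    have hYe : 1 ≤ Y ^ (2 / 3 : ℝ) := Real.one_le_rpow hY (by norm_num)
    have hX2 : 0 ≤ X ^ (1 / 2 : ℝ) := by positivity
    obtain ⟨P, hP⟩ : ∃ P : ℝ, P = Y ^ (2 / 3 : ℝ) := ⟨_, rfl⟩
    rw [← hP] at hYe ⊢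
    have hP0 : 0 < P := by linarith
    rcases lt_or_ge X (D * P) with hcase | hcase
    · -- trivial
      refine (hlow X Y D hX).trans ?_
      have h1 : 2 * X ≤ 2 * (X ^ (1 / 2 : ℝ) + D * P) := by linarith
      refine h1.trans ?_
      refine mul_le_mul_of_nonneg_right ?_ (by positivity)
      have h2 : 2 ≤ c1 := by
        rw [hc1]
        have : 0 ≤ C1 * K ^ (ε / 4) * √K := by positivity
        linarith
      nlinarith
    · have hDX : D ≤ X := by nlinarith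
      have hPX : P ≤ X := by nlinarith
      have hYX : Y ^ 2 ≤ X ^ 3 := by
        have h1 : P ^ 3 = Y ^ 2 := by
          rw [hP, ← Real.rpow_natCast, ← Real.rpow_mul hY0.le, ← Real.rpow_natCast]
          norm_num
        rw [← h1]
        exact pow_le_pow_left₀ hP0.le hPX 3
      obtain ⟨T, hT, hTc⟩ := hred X Y D P hX hY hD1
      have hH1 : 1 ≤ K * Y ^ 2 := by
        have := one_le_pow₀ hY (n := 2)
        nlinarith
      have hPH : P ≤ K * Y ^ 2 := by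
        have h1 : P ≤ Y ^ 2 := by
          rw [hP, ← Real.rpow_natCast]
          exact Real.rpow_le_rpow_of_exponent_le hY (by norm_num)
        have h2 : 0 ≤ Y ^ 2 := sq_nonneg Y
        nlinarith
      have h3 := hfb (K * Y ^ 2) X D P hH1 hX hD1 hYe hPH T hT
      have hsub2 : lowP A B X Y D ⊆ ({d | d ∈ low A B X Y ∧ ∃ q m : ℕ, q.Prime ∧ (m : ℝ) ≤ D ∧ d = q * m ∧
          P ≤ (q : ℝ)} : Set ℕ) ∪ ((((Finset.Icc 1 ⌊P⌋₊) ×ˢ (Finset.Icc 1 ⌊D⌋₊)).image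
            (fun z : ℕ × ℕ => z.1 * z.2) : Finset ℕ) : Set ℕ) := by
        rintro d ⟨hd, q, m, hq, hm, hdq⟩
        by_cases hPq : P ≤ (q : ℝ)
        · exact Or.inl ⟨hd, q, m, hq, hm, hdq, hPq⟩
        · refine Or.inr ?_
          rw [Finset.mem_coe, Finset.mem_image]
          have hm0 : m ≠ 0 := by
            rintro rfl
            exact hd.2.1.ne_zero (by rw [hdq, mul_zero])
          refine ⟨(q, m), ?_, hdq.symm⟩
          rw [Finset.mem_product, Finset.mem_Icc, Finset.mem_Icc]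
          exact ⟨⟨hq.one_lt.le, Nat.le_floor (not_le.mp hPq).le⟩, ⟨Nat.one_le_iff_ne_zero.mpr hm0, Nat.le_floor hm⟩⟩
      have hfin1 : ({d | d ∈ low A B X Y ∧ ∃ q m : ℕ, q.Prime ∧ (m : ℝ) ≤ D ∧ d = q * m ∧
          P ≤ (q : ℝ)} : Set ℕ).Finite := (low_fin A B X Y).subset (fun d hd => hd.1)
      have h4 := (Set.ncard_le_ncard hsub2 (hfin1.union (Finset.finite_toSet _))).trans (Set.ncard_union_le _ _)
      rw [Set.ncard_coe_finset] at h4
      have h5 : (((Finset.Icc 1 ⌊P⌋₊) ×ˢ (Finset.Icc 1 ⌊D⌋₊)).image (fun z : ℕ × ℕ => z.1 * z.2)).card ≤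
          ⌊P⌋₊ * ⌊D⌋₊ := by
        refine Finset.card_image_le.trans ?_
        rw [Finset.card_product, Nat.card_Icc, Nat.card_Icc]
        simp
      have h6 : ((⌊P⌋₊ * ⌊D⌋₊ : ℕ) : ℝ) ≤ D * P := by
        push_cast
        rw [mul_comm D P]
        exact mul_le_mul (Nat.floor_le hP0.le) (Nat.floor_le hD0.le) (Nat.cast_nonneg _) hP0.le
      have h7 : ((lowP A B X Y D).ncard : ℝ) ≤ D * P + T.card := by
        have h8 : ((lowP A B X Y D).ncard : ℝ) ≤ (({d | d ∈ low A B X Y ∧ ∃ q m : ℕ, q.Prime ∧ (m : ℝ) ≤ D ∧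
            d = q * m ∧ P ≤ (q : ℝ)} : Set ℕ).ncard : ℝ) + ((⌊P⌋₊ * ⌊D⌋₊ : ℕ) : ℝ) := by
          exact_mod_cast h4.trans (Nat.add_le_add_left h5 _)
        linarith
      -- the size
      have h9 : √(K * Y ^ 2 / P) = √K * P := by
        have g1 : K * Y ^ 2 / P = K * P ^ 2 := by
          have h1 : P ^ 3 = Y ^ 2 := by
            rw [hP, ← Real.rpow_natCast, ← Real.rpow_mul hY0.le, ← Real.rpow_natCast]
            norm_num
          rw [← h1]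
          field_simp
        rw [g1, Real.sqrt_mul hK0.le, Real.sqrt_sq hP0.le]
      have h10 : √X = X ^ (1 / 2 : ℝ) := Real.sqrt_eq_rpow X
      have h11 : (K * Y ^ 2 * D) ^ (ε / 4) ≤ K ^ (ε / 4) * X ^ ε := by
        have g1 : K * Y ^ 2 * D ≤ K * X ^ 4 := by
          have g2 : Y ^ 2 * D ≤ X ^ 3 * X := mul_le_mul hYX hDX hD0.le (by positivity)
          calc K * Y ^ 2 * D = K * (Y ^ 2 * D) := by ring
            _ ≤ K * (X ^ 3 * X) := mul_le_mul_of_nonneg_left g2 hK0.le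
            _ = K * X ^ 4 := by ring
        refine (Real.rpow_le_rpow (by positivity) g1 (by positivity)).trans (le_of_eq ?_)
        rw [Real.mul_rpow hK0.le (by positivity), ← Real.rpow_natCast X 4, ← Real.rpow_mul hX0.le]
        congr 2
        push_cast
        ring
      rw [h9, h10] at h3
      have h12 : (T.card : ℝ) ≤ C1 * K ^ (ε / 4) * √K * X ^ ε * (X ^ (1 / 2 : ℝ) + D * P) := by
        refine h3.trans ?_
        calc C1 * (K * Y ^ 2 * D) ^ (ε / 4) * (D * (√K * P) + X ^ (1 / 2 : ℝ))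
            ≤ C1 * (K ^ (ε / 4) * X ^ ε) * (√K * (X ^ (1 / 2 : ℝ) + D * P)) := by
              refine mul_le_mul (mul_le_mul_of_nonneg_left h11 hC1.le) ?_ (by positivity) (by positivity)
              nlinarith
          _ = _ := by ring
      have h13 : D * P ≤ 2 * X ^ ε * (X ^ (1 / 2 : ℝ) + D * P) := by
        have g1 : 0 ≤ D * P := by positivity
        nlinarith [mul_nonneg (sub_nonneg.mpr hXe) (add_nonneg hX2 g1)]
      calc ((lowP A B X Y D).ncard : ℝ) ≤ D * P + T.card := h7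
        _ ≤ 2 * X ^ ε * (X ^ (1 / 2 : ℝ) + D * P) +
            C1 * K ^ (ε / 4) * √K * X ^ ε * (X ^ (1 / 2 : ℝ) + D * P) := add_le_add h13 h12
        _ = _ := by rw [hc1]; ring
  have b2 : ∀ X Y D : ℝ, 1 ≤ X → 1 ≤ Y → 1 ≤ D → ((lowP A B X Y D).ncard : ℝ) ≤
      c2 * X ^ ε * (X ^ (1 / 2 : ℝ) + (D + D ^ (1 / 2 : ℝ) * Y)) := by
    intro X Y D hX hY hD1
    have hX0 : 0 < X := by linarith
    have hY0 : 0 < Y := by linarith
    have hD0 : 0 < D := by linarith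
    have hXe : 1 ≤ X ^ ε := Real.one_le_rpow hX hε.le
    have hX2 : 0 ≤ X ^ (1 / 2 : ℝ) := by positivity
    have hDe : 1 ≤ D ^ (1 / 2 : ℝ) := Real.one_le_rpow hD1 (by norm_num)
    rcases lt_or_ge X (D + D ^ (1 / 2 : ℝ) * Y) with hcase | hcase
    · refine (hlow X Y D hX).trans ?_
      have h1 : 2 * X ≤ 2 * (X ^ (1 / 2 : ℝ) + (D + D ^ (1 / 2 : ℝ) * Y)) := by linarith
      refine h1.trans ?_
      refine mul_le_mul_of_nonneg_right ?_ (by positivity)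
      have h2 : 2 ≤ c2 := by
        rw [hc2]
        have : 0 ≤ C2 * K ^ (ε / 4) * √K := by positivity
        linarith
      nlinarith
    · have hDX : D ≤ X := by
        have : 0 ≤ D ^ (1 / 2 : ℝ) * Y := by positivity
        linarith
      have hYX : Y ≤ X := by nlinarith
      obtain ⟨T, hT, hTc⟩ := hred X Y D 0 hX hY hD1
      have hH1 : 1 ≤ K * Y ^ 2 := by
        have := one_le_pow₀ hY (n := 2)
        nlinarith
      have h3 := hfbB (K * Y ^ 2) D hH1 hD1 T (by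
        intro p hp
        obtain ⟨p1, p2, p3, p4, p5, o, a, y, q1, q2, q3, q4, q5, q6⟩ := hT p hp
        exact ⟨p1, p2, p3, p4, p5, o, a, y, q1, q2, q3, q6⟩)
      have hsub2 : lowP A B X Y D ⊆ ({d | d ∈ low A B X Y ∧ ∃ q m : ℕ, q.Prime ∧ (m : ℝ) ≤ D ∧ d = q * m ∧
          (0 : ℝ) ≤ (q : ℝ)} : Set ℕ) := by
        rintro d ⟨hd, q, m, hq, hm, hdq⟩
        exact ⟨hd, q, m, hq, hm, hdq, Nat.cast_nonneg _⟩
      have hfin1 : ({d | d ∈ low A B X Y ∧ ∃ q m : ℕ, q.Prime ∧ (m : ℝ) ≤ D ∧ d = q * m ∧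
          (0 : ℝ) ≤ (q : ℝ)} : Set ℕ).Finite := (low_fin A B X Y).subset (fun d hd => hd.1)
      have h4 : ((lowP A B X Y D).ncard : ℝ) ≤ T.card := by
        refine le_trans ?_ hTc
        exact_mod_cast Set.ncard_le_ncard hsub2 hfin1
      have h9 : √(K * Y ^ 2 * D) = √K * (D ^ (1 / 2 : ℝ) * Y) := by
        rw [Real.sqrt_mul (by positivity), Real.sqrt_mul hK0.le, Real.sqrt_sq hY0.le, Real.sqrt_eq_rpow D]
        ring
      have h11 : (K * Y ^ 2 * D) ^ (ε / 4) ≤ K ^ (ε / 4) * X ^ ε := by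
        have g1 : K * Y ^ 2 * D ≤ K * X ^ 4 := by
          have g3 : Y ^ 2 ≤ X ^ 2 := pow_le_pow_left₀ hY0.le hYX 2
          have g4 : X ^ 2 ≤ X ^ 3 := pow_le_pow_right₀ hX (by norm_num)
          have g2 : Y ^ 2 * D ≤ X ^ 3 * X := mul_le_mul (g3.trans g4) hDX hD0.le (by positivity)
          calc K * Y ^ 2 * D = K * (Y ^ 2 * D) := by ring
            _ ≤ K * (X ^ 3 * X) := mul_le_mul_of_nonneg_left g2 hK0.le
            _ = K * X ^ 4 := by ring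
        refine (Real.rpow_le_rpow (by positivity) g1 (by positivity)).trans (le_of_eq ?_)
        rw [Real.mul_rpow hK0.le (by positivity), ← Real.rpow_natCast X 4, ← Real.rpow_mul hX0.le]
        congr 2
        push_cast
        ring
      rw [h9] at h3
      have h12 : (T.card : ℝ) ≤ C2 * K ^ (ε / 4) * √K * X ^ ε * (D + D ^ (1 / 2 : ℝ) * Y) := by
        refine h3.trans ?_
        have g5 : 0 ≤ D ^ (1 / 2 : ℝ) * Y := by positivity
        calc C2 * (K * Y ^ 2 * D) ^ (ε / 4) * (D + √K * (D ^ (1 / 2 : ℝ) * Y))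
            ≤ C2 * (K ^ (ε / 4) * X ^ ε) * (√K * (D + D ^ (1 / 2 : ℝ) * Y)) := by
              refine mul_le_mul (mul_le_mul_of_nonneg_left h11 hC2.le) ?_ (by positivity) (by positivity)
              nlinarith
          _ = _ := by ring
      refine (h4.trans h12).trans ?_
      have g5 : 0 ≤ D + D ^ (1 / 2 : ℝ) * Y := by positivity
      refine mul_le_mul (mul_le_mul_of_nonneg_right ?_ (by positivity)) (by linarith) g5 (by positivity)
      rw [hc2]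
      linarith
  refine ⟨c1 + c2, by positivity, ?_⟩
  intro X Y D hX hY hD1
  have hX0 : 0 < X := by linarith
  have hY0 : 0 < Y := by linarith
  have hD0 : 0 < D := by linarith
  have t1 : 0 ≤ D * Y ^ (2 / 3 : ℝ) := by positivity
  have t2 : 0 ≤ D + D ^ (1 / 2 : ℝ) * Y := by positivity
  have t3 : 0 ≤ X ^ (1 / 2 : ℝ) := by positivity
  have t4 : 0 ≤ X ^ ε := by positivity
  rcases min_choice (D * Y ^ (2 / 3 : ℝ)) (D + D ^ (1 / 2 : ℝ) * Y) with h | h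
  · rw [h]
    refine (b1 X Y D hX hY hD1).trans ?_
    refine mul_le_mul_of_nonneg_right (mul_le_mul_of_nonneg_right ?_ t4) (by linarith)
    linarith
  · rw [h]
    refine (b2 X Y D hX hY hD1).trans ?_
    refine mul_le_mul_of_nonneg_right (mul_le_mul_of_nonneg_right ?_ t4) (by linarith)
    linarith

end Pool.Agent.H80.PT
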