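import Pool.Agent.H80.PT.MvF
import Pool.Agent.H80.PT.LblF
import Pool.Agent.H80.PT.Fb
import Pool.Agent.H80.PT.FbB
import Pool.Agent.H12.EH.Main

/-!
[H80 PT MAINF]  The theorem for all `d` such that every factorization of `d` in four factors has a factor `≥ d / D`.

`e` from `nroots_cases`.  The pair `(r, s)` of `tw_of_low`, its label and the factorization `b` of `d` by `lblF`, `b_i` with `d ≤ D b_i`.
If `i = o.succ` the pair is good (`|a_i| ≥ b_i`, so the product of the three others is at most `K d / b_i ≤ K D`); if `i = 0` the pair is moved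
by `mvF`, `|a'_1| ≥ b_0 / K₂`.  `d ↦ pair` is injective (`sqf_unique`, as in `red`).  Two bounds:
(1) `C X^ε (√X + D Y^(2/3))`.  If `D Y^(2/3) > X` this is trivial.  Otherwise `P = Y^(2/3)`, `Y ≤ X^(3/2)`, `D ≤ X`.  The `d = b m`
with `b ≤ M P`, `m ≤ D` are at most `M P D`.  `fb` with `H = M Y²` gives `C (H D)^(ε') (D √(H/P) + √X)`.
(2) `C X^ε (D + √D Y)`.  If this is `> X` it is trivial, otherwise `D, Y ≤ X`; the same with `P = 0` and `fbB`.
-/

set_option autoImplicit false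

namespace Pool.Agent.H80.PT

open Pool.Agent.H12.EH

/-- the `d ∈ low A B X Y` such that every factorization of `d` in four factors has a factor `≥ d / D` -/
def lowF (A B : ℤ) (X Y D : ℝ) : Set ℕ :=
  {d | d ∈ low A B X Y ∧ ∀ b : Fin 4 → ℕ, ∏ i, b i = d → ∃ i, (d : ℝ) ≤ D * b i}

/-- the good pair of `d` -/
private theorem good {A B : ℤ} (hD : 4 * A ^ 3 + 27 * B ^ 2 ≠ 0) {e : Fin 3 → ℤ}
    (hρ : Roots A B (fun v => (e v : ℂ))) : ∃ K : ℝ, 1 ≤ K ∧ ∀ X Y D P : ℝ, 1 ≤ X → 1 ≤ Y → 1 ≤ D → 0 ≤ P →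
    ∀ d ∈ lowF A B X Y D, (∀ b m : ℕ, d = b * m → (m : ℝ) ≤ D → K * P < b) →
    ∃ r s : ℤ, Tw A B (K * Y ^ 2) d r s ∧
      ∃ (o : Fin 3) (a y : Fin 4 → ℤ), (∀ i, Squarefree (a i)) ∧ (∀ i, 0 < y i) ∧
        (∀ i, frm e i r s = a i * y i ^ 2) ∧ P ≤ |((a o.succ : ℤ) : ℝ)| ∧ |((∏ i, a i : ℤ) : ℝ)| ≤ K * X ∧
        |((∏ i : Fin 3, a (o.succ.succAbove i) : ℤ) : ℝ)| ≤ K * D := by
  classical
  obtain ⟨C, hC, htw⟩ := tw_of_low A B hD
  obtain ⟨K₂, hK₂, hmv⟩ := mvF hρ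
  obtain ⟨K, hK, hlbl⟩ := lblF hρ
  obtain ⟨M, hM⟩ : ∃ M : ℝ, M = K₂ * C + K * K₂ := ⟨_, rfl⟩
  have hK₂0 : 0 < K₂ := by linarith
  have hK0 : 0 < K := by linarith
  have hC0 : 0 < C := by linarith
  have hKK : 1 ≤ K * K₂ := one_le_mul_of_one_le_of_one_le hK hK₂
  have hKC : 1 ≤ K₂ * C := one_le_mul_of_one_le_of_one_le hK₂ hC
  have hM1 : K₂ * C ≤ M := by rw [hM]; linarith
  have hM2 : K * K₂ ≤ M := by rw [hM]; linarith
  have hM3 : K ≤ M := by nlinarith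
  have hM4 : K₂ ≤ M := by nlinarith
  have hM5 : C ≤ M := by nlinarith
  have hM0 : 0 < M := by linarith
  refine ⟨M, by linarith, ?_⟩
  intro X Y D P hX hY hDD hP d hd hsm
  obtain ⟨hlow, hfac⟩ := hd
  obtain ⟨r, s, ht⟩ := htw X Y (by linarith) d hlow
  obtain ⟨a, y, b, h1, h2, h3, h4, h5, h6⟩ := hlbl _ d r s hlow.2.1 ht
  obtain ⟨i, hi⟩ := hfac b h5
  have hY2 : 0 ≤ Y ^ 2 := sq_nonneg Y
  have hdX : (d : ℝ) ≤ X := hlow.1
  have hd0 : d ≠ 0 := hlow.2.1.ne_zero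
  have hbd : b i ∣ d := h5 ▸ Finset.dvd_prod_of_mem b (Finset.mem_univ i)
  have hb0 : b i ≠ 0 := fun h => hd0 (Nat.eq_zero_of_zero_dvd (h ▸ hbd))
  have hbR : (0 : ℝ) < (b i : ℝ) := by exact_mod_cast Nat.pos_of_ne_zero hb0
  have hbP : M * P < (b i : ℝ) := by
    obtain ⟨m, hm⟩ := hbd
    refine hsm (b i) m hm ?_
    have e1 : (d : ℝ) = b i * m := by exact_mod_cast hm
    rw [e1, mul_comm] at hi
    exact le_of_mul_le_mul_right hi hbR
  have hba : (b i : ℝ) ≤ |((a i : ℤ) : ℝ)| := by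
    have e1 : b i ≤ (a i).natAbs :=
      Nat.le_of_dvd (Int.natAbs_pos.mpr (h1 i).ne_zero) (Int.natCast_dvd.mp (h6 i))
    have e2 : ((b i : ℕ) : ℝ) ≤ ((a i).natAbs : ℝ) := by exact_mod_cast e1
    refine e2.trans (le_of_eq ?_)
    rw [Nat.cast_natAbs]
    push_cast
    rfl
  -- splitting off one factor
  have hsplit : ∀ (a' : Fin 4 → ℤ) (o : Fin 3) (t : ℝ), 0 < t → |((∏ i, a' i : ℤ) : ℝ)| ≤ K * d →
      (b i : ℝ) ≤ t * |((a' o.succ : ℤ) : ℝ)| →
      |((∏ j : Fin 3, a' (o.succ.succAbove j) : ℤ) : ℝ)| ≤ K * t * D := by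
    intro a' o t ht h7 h8
    rw [Fin.prod_univ_succAbove _ o.succ] at h7
    push_cast at h7 ⊢
    rw [abs_mul] at h7
    obtain ⟨u, hu⟩ : ∃ u : ℝ, u = |((a' o.succ : ℤ) : ℝ)| := ⟨_, rfl⟩
    obtain ⟨v, hv⟩ : ∃ v : ℝ, v = |∏ j : Fin 3, ((a' (o.succ.succAbove j) : ℤ) : ℝ)| := ⟨_, rfl⟩
    rw [← hu, ← hv] at h7
    rw [← hu] at h8
    rw [← hv]
    have hv0 : 0 ≤ v := by rw [hv]; exact abs_nonneg _
    have e1 : b i * v ≤ b i * (K * t * D) := by
      calc (b i : ℝ) * v ≤ t * u * v := mul_le_mul_of_nonneg_right h8 hv0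
        _ = t * (u * v) := by ring
        _ ≤ t * (K * d) := mul_le_mul_of_nonneg_left h7 ht.le
        _ ≤ t * (K * (D * b i)) :=
            mul_le_mul_of_nonneg_left (mul_le_mul_of_nonneg_left hi hK0.le) ht.le
        _ = b i * (K * t * D) := by ring
    exact le_of_mul_le_mul_left e1 hbR
  have hTwm : ∀ {H H' : ℝ} {r s : ℤ}, H ≤ H' → Tw A B H d r s → Tw A B H' d r s := by
    rintro H H' r s hH ⟨t1, t2, t3, t4, t5⟩
    exact ⟨t1, t2, t3.trans hH, t4.trans hH, t5⟩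
  by_cases hi0 : i = 0
  · subst hi0
    obtain ⟨r', s', ht', hmv'⟩ := hmv _ d r s hlow.2.1 ht
    obtain ⟨a', y', b', g1, g2, g3, g4, g5, g6⟩ := hlbl _ d r' s' hlow.2.1 ht'
    have e1 : s = a 0 * y 0 ^ 2 := by
      rw [← h3 0]
      rfl
    have e2 : r' - e 0 * s' = a' (0 : Fin 3).succ * y' (0 : Fin 3).succ ^ 2 := by
      rw [← g3 (0 : Fin 3).succ]
      exact (frm_succ e 0 r' s').symm
    have e3 := hmv' (a 0) (a' (0 : Fin 3).succ) (y 0) (y' (0 : Fin 3).succ) (h1 0) (g1 _) (h2 0).ne' (g2 _).ne' e1 e2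
    refine ⟨r', s', hTwm ?_ ht', 0, a', y', g1, g2, g3, ?_, ?_, ?_⟩
    · rw [← mul_assoc]
      exact mul_le_mul_of_nonneg_right hM1 hY2
    · have e4 : K₂ * P ≤ K₂ * |((a' (0 : Fin 3).succ : ℤ) : ℝ)| := by
        have e5 : K₂ * P ≤ M * P := mul_le_mul_of_nonneg_right hM4 hP
        linarith
      exact le_of_mul_le_mul_left e4 hK₂0
    · exact g4.trans (mul_le_mul hM3 hdX (Nat.cast_nonneg _) hM0.le)
    · refine (hsplit a' 0 K₂ hK₂0 g4 (hba.trans e3)).trans ?_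
      exact mul_le_mul_of_nonneg_right hM2 (by linarith)
  · obtain ⟨o, rfl⟩ := Fin.exists_succ_eq.2 hi0
    refine ⟨r, s, hTwm ?_ ht, o, a, y, h1, h2, h3, ?_, ?_, ?_⟩
    · exact mul_le_mul_of_nonneg_right hM5 hY2
    · have e5 : P ≤ M * P := le_mul_of_one_le_left hP (by linarith)
      linarith
    · exact h4.trans (mul_le_mul hM3 hdX (Nat.cast_nonneg _) hM0.le)
    · refine (hsplit a o 1 one_pos h4 (by rw [one_mul]; exact hba)).trans ?_
      rw [mul_one]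
      exact mul_le_mul_of_nonneg_right hM3 (by linarith)

/-- the pairs for the `d` with large factors -/
private theorem main_redF {A B : ℤ} (hD : 4 * A ^ 3 + 27 * B ^ 2 ≠ 0) {e : Fin 3 → ℤ}
    (hρ : Roots A B (fun v => (e v : ℂ))) : ∃ K : ℝ, 1 ≤ K ∧ ∀ X Y D P : ℝ, 1 ≤ X → 1 ≤ Y → 1 ≤ D → 0 ≤ P →
    ∃ T : Finset (ℤ × ℤ), (∀ p ∈ T, IsCoprime p.1 p.2 ∧ 0 < p.2 ∧ |(p.1 : ℝ)| ≤ K * Y ^ 2 ∧ (p.2 : ℝ) ≤ K * Y ^ 2 ∧
      Gf A B p.1 p.2 ≠ 0 ∧
      ∃ (o : Fin 3) (a y : Fin 4 → ℤ), (∀ i, Squarefree (a i)) ∧ (∀ i, 0 < y i) ∧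
        (∀ i, frm e i p.1 p.2 = a i * y i ^ 2) ∧ P ≤ |((a o.succ : ℤ) : ℝ)| ∧ |((∏ i, a i : ℤ) : ℝ)| ≤ K * X ∧
        |((∏ i : Fin 3, a (o.succ.succAbove i) : ℤ) : ℝ)| ≤ K * D) ∧
      (({d | d ∈ lowF A B X Y D ∧ ∀ b m : ℕ, d = b * m → (m : ℝ) ≤ D → K * P < b} : Set ℕ).ncard : ℝ) ≤
        T.card := by
  classical
  obtain ⟨K, hK, hgood⟩ := good hD hρ
  refine ⟨K, hK, ?_⟩
  intro X Y D P hX hY hDD hP
  obtain ⟨Z, hZ⟩ : ∃ Z : Set ℕ, Z = {d | d ∈ lowF A B X Y D ∧ ∀ b m : ℕ, d = b * m → (m : ℝ) ≤ D → K * P < b} :=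
    ⟨_, rfl⟩
  rw [← hZ]
  have hZfin : Z.Finite := by
    refine (low_fin A B X Y).subset ?_
    rw [hZ]
    rintro d ⟨h, -⟩
    exact h.1
  have key : ∀ d ∈ Z, ∃ p : ℤ × ℤ, (IsCoprime p.1 p.2 ∧ 0 < p.2 ∧ |(p.1 : ℝ)| ≤ K * Y ^ 2 ∧ (p.2 : ℝ) ≤ K * Y ^ 2 ∧
      Gf A B p.1 p.2 ≠ 0 ∧
      ∃ (o : Fin 3) (a y : Fin 4 → ℤ), (∀ i, Squarefree (a i)) ∧ (∀ i, 0 < y i) ∧
        (∀ i, frm e i p.1 p.2 = a i * y i ^ 2) ∧ P ≤ |((a o.succ : ℤ) : ℝ)| ∧ |((∏ i, a i : ℤ) : ℝ)| ≤ K * X ∧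
        |((∏ i : Fin 3, a (o.succ.succAbove i) : ℤ) : ℝ)| ≤ K * D) ∧
      ∃ w : ℤ, w ≠ 0 ∧ p.2 * Gf A B p.1 p.2 = d * w ^ 2 := by
    intro d hd
    rw [hZ] at hd
    obtain ⟨hlow, hsm⟩ := hd
    obtain ⟨r, s, ⟨t1, t2, t3, t4, w, hw, t5⟩, hlab⟩ := hgood X Y D P hX hY hDD hP d hlow hsm
    have hGne : Gf A B r s ≠ 0 := by
      intro h0
      rw [h0, mul_zero] at t5
      have h7 : (d : ℤ) ≠ 0 := by exact_mod_cast hlow.1.2.1.ne_zero
      exact (mul_ne_zero h7 (pow_ne_zero 2 hw)) t5.symm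
    exact ⟨(r, s), ⟨t1, t2, t3, t4, hGne, hlab⟩, w, hw, t5⟩
  choose! f hf w hw0 hw using key
  refine ⟨hZfin.toFinset.image f, ?_, ?_⟩
  · intro p hp
    rw [Finset.mem_image] at hp
    obtain ⟨d, hd, rfl⟩ := hp
    rw [Set.Finite.mem_toFinset] at hd
    exact hf d hd
  · have h1 : (hZfin.toFinset.image f).card = hZfin.toFinset.card := by
      apply Finset.card_image_of_injOn
      intro d hd d' hd' hdd
      rw [Set.Finite.coe_toFinset] at hd hd'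
      have g1 := hw d hd
      have g2 := hw d' hd'
      rw [hdd, g2] at g1
      have hsd : Squarefree d := by
        rw [hZ] at hd
        exact hd.1.1.2.1
      have hsd' : Squarefree d' := by
        rw [hZ] at hd'
        exact hd'.1.1.2.1
      apply sqf_unique hsd hsd' (Int.natAbs_ne_zero.mpr (hw0 d' hd')) (a := (w d).natAbs)
      have h3 : (d : ℤ) * (w d) ^ 2 = d' * (w d') ^ 2 := g1.symm
      have h4 := congrArg Int.natAbs h3
      rw [Int.natAbs_mul, Int.natAbs_mul, Int.natAbs_pow, Int.natAbs_pow, Int.natAbs_natCast, Int.natAbs_natCast] at h4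
      exact h4
    rw [h1, Set.ncard_eq_toFinset_card Z hZfin]

theorem mainF (A B : ℤ) (hD : 4 * A ^ 3 + 27 * B ^ 2 ≠ 0) (hr : nroots A B = 3) (ε : ℝ) (hε : 0 < ε) :
    ∃ C : ℝ, 0 < C ∧ ∀ X Y D : ℝ, 1 ≤ X → 1 ≤ Y → 1 ≤ D →
      ((lowF A B X Y D).ncard : ℝ) ≤
        C * X ^ ε * (X ^ (1 / 2 : ℝ) + min (D * Y ^ (2 / 3 : ℝ)) (D + D ^ (1 / 2 : ℝ) * Y)) := by
  classical
  obtain ⟨e, he, hρ⟩ : ∃ e : Fin 3 → ℤ, (∀ i j, i ≠ j → e i ≠ e j) ∧ Roots A B (fun v => (e v : ℂ)) := by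
    rcases nroots_cases A B hD with ⟨hn, _⟩ | ⟨hn, _⟩ | ⟨_, h⟩
    · omega
    · omega
    · exact h
  obtain ⟨K, hK, hred⟩ := main_redF hD hρ
  obtain ⟨C1, hC1, hfb⟩ := fb hρ K hK (ε / 4) (by positivity)
  obtain ⟨C2, hC2, hfbB⟩ := fbB hρ K hK (ε / 4) (by positivity)
  have hK0 : 0 < K := by linarith
  have hKe : 1 ≤ K ^ (ε / 4) := Real.one_le_rpow hK (by positivity)
  have hsK : 1 ≤ √K := Real.one_le_sqrt.mpr hK
  have hsub : ∀ X Y D : ℝ, lowF A B X Y D ⊆ low A B X Y := fun X Y D d hd => hd.1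
  have hlow : ∀ X Y D : ℝ, 1 ≤ X → ((lowF A B X Y D).ncard : ℝ) ≤ 2 * X := by
    intro X Y D hX
    refine le_trans ?_ (low_card A B X Y hX)
    exact_mod_cast Set.ncard_le_ncard (hsub X Y D) (low_fin A B X Y)
  -- the first bound
  obtain ⟨c1, hc1⟩ : ∃ c : ℝ, c = (2 + K) + C1 * K ^ (ε / 4) * √K := ⟨_, rfl⟩
  obtain ⟨c2, hc2⟩ : ∃ c : ℝ, c = 2 + C2 * K ^ (ε / 4) * √K := ⟨_, rfl⟩
  have hc1p : 0 < c1 := by rw [hc1]; positivity
  have hc2p : 0 < c2 := by rw [hc2]; positivity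
  have b1 : ∀ X Y D : ℝ, 1 ≤ X → 1 ≤ Y → 1 ≤ D → ((lowF A B X Y D).ncard : ℝ) ≤
      c1 * X ^ ε * (X ^ (1 / 2 : ℝ) + D * Y ^ (2 / 3 : ℝ)) := by
    intro X Y D hX hY hD1
    have hX0 : 0 < X := by linarith
    have hY0 : 0 < Y := by linarith
    have hD0 : 0 < D := by linarith
    have hXe : 1 ≤ X ^ ε := Real.one_le_rpow hX hε.le
    have hYe : 1 ≤ Y ^ (2 / 3 : ℝ) := Real.one_le_rpow hY (by norm_num)
    have hX2 : 0 ≤ X ^ (1 / 2 : ℝ) := by positivity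
    obtain ⟨P, hP⟩ : ∃ P : ℝ, P = Y ^ (2 / 3 : ℝ) := ⟨_, rfl⟩
    rw [← hP] at hYe ⊢
    have hP0 : 0 < P := by linarith
    rcases lt_or_ge X (D * P) with hcase | hcase
    · -- trivial
      refine (hlow X Y D hX).trans ?_
      have h1 : 2 * X ≤ 2 * (X ^ (1 / 2 : ℝ) + D * P) := by linarith
      refine h1.trans ?_
      refine mul_le_mul_of_nonneg_right ?_ (by positivity)
      have h2 : 2 ≤ c1 := by
        rw [hc1]
        have : 0 ≤ C1 * K ^ (ε / 4) * √K := by positivity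
        linarith
      nlinarith
    · have hDX : D ≤ X := by nlinarith
      have hPX : P ≤ X := by nlinarith
      have hYX : Y ^ 2 ≤ X ^ 3 := by
        have h1 : P ^ 3 = Y ^ 2 := by
          rw [hP, ← Real.rpow_natCast, ← Real.rpow_mul hY0.le, ← Real.rpow_natCast]
          norm_num
        rw [← h1]
        exact pow_le_pow_left₀ hP0.le hPX 3
      obtain ⟨T, hT, hTc⟩ := hred X Y D P hX hY hD1 hP0.le
      have hH1 : 1 ≤ K * Y ^ 2 := by
        have := one_le_pow₀ hY (n := 2)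
        nlinarith
      have hPH : P ≤ K * Y ^ 2 := by
        have h1 : P ≤ Y ^ 2 := by
          rw [hP, ← Real.rpow_natCast]
          exact Real.rpow_le_rpow_of_exponent_le hY (by norm_num)
        have h2 : 0 ≤ Y ^ 2 := sq_nonneg Y
        nlinarith
      have h3 := hfb (K * Y ^ 2) X D P hH1 hX hD1 hYe hPH T hT
      have hsub2 : lowF A B X Y D ⊆ ({d | d ∈ lowF A B X Y D ∧ ∀ b m : ℕ, d = b * m → (m : ℝ) ≤ D → K * P < b} :
          Set ℕ) ∪ ((((Finset.Icc 1 ⌊K * P⌋₊) ×ˢ (Finset.Icc 1 ⌊D⌋₊)).image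
            (fun z : ℕ × ℕ => z.1 * z.2) : Finset ℕ) : Set ℕ) := by
        intro d hd
        by_cases hPq : ∀ b m : ℕ, d = b * m → (m : ℝ) ≤ D → K * P < b
        · exact Or.inl ⟨hd, hPq⟩
        · refine Or.inr ?_
          push Not at hPq
          obtain ⟨b, m, hbm, hm, hb⟩ := hPq
          rw [Finset.mem_coe, Finset.mem_image]
          have hd0 : d ≠ 0 := hd.1.2.1.ne_zero
          have hm0 : m ≠ 0 := by
            rintro rfl
            exact hd0 (by rw [hbm, mul_zero])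
          have hb0 : b ≠ 0 := by
            rintro rfl
            exact hd0 (by rw [hbm, zero_mul])
          refine ⟨(b, m), ?_, hbm.symm⟩
          rw [Finset.mem_product, Finset.mem_Icc, Finset.mem_Icc]
          exact ⟨⟨Nat.one_le_iff_ne_zero.mpr hb0, Nat.le_floor hb⟩, ⟨Nat.one_le_iff_ne_zero.mpr hm0, Nat.le_floor hm⟩⟩
      have hfin1 : ({d | d ∈ lowF A B X Y D ∧ ∀ b m : ℕ, d = b * m → (m : ℝ) ≤ D → K * P < b} : Set ℕ).Finite :=
        (low_fin A B X Y).subset (fun d hd => hd.1.1)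
      have h4 := (Set.ncard_le_ncard hsub2 (hfin1.union (Finset.finite_toSet _))).trans (Set.ncard_union_le _ _)
      rw [Set.ncard_coe_finset] at h4
      have h5 : (((Finset.Icc 1 ⌊K * P⌋₊) ×ˢ (Finset.Icc 1 ⌊D⌋₊)).image (fun z : ℕ × ℕ => z.1 * z.2)).card ≤
          ⌊K * P⌋₊ * ⌊D⌋₊ := by
        refine Finset.card_image_le.trans ?_
        rw [Finset.card_product, Nat.card_Icc, Nat.card_Icc]
        simp
      have hKP : 0 ≤ K * P := by positivity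
      have h6 : ((⌊K * P⌋₊ * ⌊D⌋₊ : ℕ) : ℝ) ≤ K * (D * P) := by
        push_cast
        calc (⌊K * P⌋₊ : ℝ) * (⌊D⌋₊ : ℝ) ≤ (K * P) * D :=
              mul_le_mul (Nat.floor_le hKP) (Nat.floor_le hD0.le) (Nat.cast_nonneg _) hKP
          _ = K * (D * P) := by ring
      have h7 : ((lowF A B X Y D).ncard : ℝ) ≤ K * (D * P) + T.card := by
        have h8 : ((lowF A B X Y D).ncard : ℝ) ≤ (({d | d ∈ lowF A B X Y D ∧ ∀ b m : ℕ, d = b * m → (m : ℝ) ≤ D →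
            K * P < b} : Set ℕ).ncard : ℝ) + ((⌊K * P⌋₊ * ⌊D⌋₊ : ℕ) : ℝ) := by
          exact_mod_cast h4.trans (Nat.add_le_add_left h5 _)
        linarith
      -- the size
      have h9 : √(K * Y ^ 2 / P) = √K * P := by
        have g1 : K * Y ^ 2 / P = K * P ^ 2 := by
          have h1 : P ^ 3 = Y ^ 2 := by
            rw [hP, ← Real.rpow_natCast, ← Real.rpow_mul hY0.le, ← Real.rpow_natCast]
            norm_num
          rw [← h1]
          field_simp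
        rw [g1, Real.sqrt_mul hK0.le, Real.sqrt_sq hP0.le]
      have h10 : √X = X ^ (1 / 2 : ℝ) := Real.sqrt_eq_rpow X
      have h11 : (K * Y ^ 2 * D) ^ (ε / 4) ≤ K ^ (ε / 4) * X ^ ε := by
        have g1 : K * Y ^ 2 * D ≤ K * X ^ 4 := by
          have g2 : Y ^ 2 * D ≤ X ^ 3 * X := mul_le_mul hYX hDX hD0.le (by positivity)
          calc K * Y ^ 2 * D = K * (Y ^ 2 * D) := by ring
            _ ≤ K * (X ^ 3 * X) := mul_le_mul_of_nonneg_left g2 hK0.le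
            _ = K * X ^ 4 := by ring
        refine (Real.rpow_le_rpow (by positivity) g1 (by positivity)).trans (le_of_eq ?_)
        rw [Real.mul_rpow hK0.le (by positivity), ← Real.rpow_natCast X 4, ← Real.rpow_mul hX0.le]
        congr 2
        push_cast
        ring
      rw [h9, h10] at h3
      have h12 : (T.card : ℝ) ≤ C1 * K ^ (ε / 4) * √K * X ^ ε * (X ^ (1 / 2 : ℝ) + D * P) := by
        refine h3.trans ?_
        calc C1 * (K * Y ^ 2 * D) ^ (ε / 4) * (D * (√K * P) + X ^ (1 / 2 : ℝ))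
            ≤ C1 * (K ^ (ε / 4) * X ^ ε) * (√K * (X ^ (1 / 2 : ℝ) + D * P)) := by
              refine mul_le_mul (mul_le_mul_of_nonneg_left h11 hC1.le) ?_ (by positivity) (by positivity)
              nlinarith
          _ = _ := by ring
      have h13 : K * (D * P) ≤ (2 + K) * X ^ ε * (X ^ (1 / 2 : ℝ) + D * P) := by
        have g1 : 0 ≤ D * P := by positivity
        calc K * (D * P) ≤ (2 + K) * (X ^ (1 / 2 : ℝ) + D * P) :=
              mul_le_mul (by linarith) (by linarith) g1 (by positivity)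
          _ ≤ (2 + K) * (X ^ (1 / 2 : ℝ) + D * P) * X ^ ε := le_mul_of_one_le_right (by positivity) hXe
          _ = _ := by ring
      calc ((lowF A B X Y D).ncard : ℝ) ≤ K * (D * P) + T.card := h7
        _ ≤ (2 + K) * X ^ ε * (X ^ (1 / 2 : ℝ) + D * P) +
            C1 * K ^ (ε / 4) * √K * X ^ ε * (X ^ (1 / 2 : ℝ) + D * P) := add_le_add h13 h12
        _ = _ := by rw [hc1]; ring
  have b2 : ∀ X Y D : ℝ, 1 ≤ X → 1 ≤ Y → 1 ≤ D → ((lowF A B X Y D).ncard : ℝ) ≤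
      c2 * X ^ ε * (X ^ (1 / 2 : ℝ) + (D + D ^ (1 / 2 : ℝ) * Y)) := by
    intro X Y D hX hY hD1
    have hX0 : 0 < X := by linarith
    have hY0 : 0 < Y := by linarith
    have hD0 : 0 < D := by linarith
    have hXe : 1 ≤ X ^ ε := Real.one_le_rpow hX hε.le
    have hX2 : 0 ≤ X ^ (1 / 2 : ℝ) := by positivity
    have hDe : 1 ≤ D ^ (1 / 2 : ℝ) := Real.one_le_rpow hD1 (by norm_num)
    rcases lt_or_ge X (D + D ^ (1 / 2 : ℝ) * Y) with hcase | hcase
    · refine (hlow X Y D hX).trans ?_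
      have h1 : 2 * X ≤ 2 * (X ^ (1 / 2 : ℝ) + (D + D ^ (1 / 2 : ℝ) * Y)) := by linarith
      refine h1.trans ?_
      refine mul_le_mul_of_nonneg_right ?_ (by positivity)
      have h2 : 2 ≤ c2 := by
        rw [hc2]
        have : 0 ≤ C2 * K ^ (ε / 4) * √K := by positivity
        linarith
      nlinarith
    · have hDX : D ≤ X := by
        have : 0 ≤ D ^ (1 / 2 : ℝ) * Y := by positivity
        linarith
      have hYX : Y ≤ X := by nlinarith
      obtain ⟨T, hT, hTc⟩ := hred X Y D 0 hX hY hD1 le_rfl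
      have hH1 : 1 ≤ K * Y ^ 2 := by
        have := one_le_pow₀ hY (n := 2)
        nlinarith
      have h3 := hfbB (K * Y ^ 2) D hH1 hD1 T (by
        intro p hp
        obtain ⟨p1, p2, p3, p4, p5, o, a, y, q1, q2, q3, q4, q5, q6⟩ := hT p hp
        exact ⟨p1, p2, p3, p4, p5, o, a, y, q1, q2, q3, q6⟩)
      have hsub2 : lowF A B X Y D ⊆ ({d | d ∈ lowF A B X Y D ∧ ∀ b m : ℕ, d = b * m → (m : ℝ) ≤ D → K * 0 < b} :
          Set ℕ) := by
        intro d hd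
        refine ⟨hd, ?_⟩
        intro b m hbm _
        rw [mul_zero]
        have hb0 : b ≠ 0 := by
          rintro rfl
          exact hd.1.2.1.ne_zero (by rw [hbm, zero_mul])
        exact_mod_cast Nat.pos_of_ne_zero hb0
      have hfin1 : ({d | d ∈ lowF A B X Y D ∧ ∀ b m : ℕ, d = b * m → (m : ℝ) ≤ D → K * 0 < b} : Set ℕ).Finite :=
        (low_fin A B X Y).subset (fun d hd => hd.1.1)
      have h4 : ((lowF A B X Y D).ncard : ℝ) ≤ T.card := by
        refine le_trans ?_ hTc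
        exact_mod_cast Set.ncard_le_ncard hsub2 hfin1
      have h9 : √(K * Y ^ 2 * D) = √K * (D ^ (1 / 2 : ℝ) * Y) := by
        rw [Real.sqrt_mul (by positivity), Real.sqrt_mul hK0.le, Real.sqrt_sq hY0.le, Real.sqrt_eq_rpow D]
        ring
      have h11 : (K * Y ^ 2 * D) ^ (ε / 4) ≤ K ^ (ε / 4) * X ^ ε := by
        have g1 : K * Y ^ 2 * D ≤ K * X ^ 4 := by
          have g3 : Y ^ 2 ≤ X ^ 2 := pow_le_pow_left₀ hY0.le hYX 2
          have g4 : X ^ 2 ≤ X ^ 3 := pow_le_pow_right₀ hX (by norm_num)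
          have g2 : Y ^ 2 * D ≤ X ^ 3 * X := mul_le_mul (g3.trans g4) hDX hD0.le (by positivity)
          calc K * Y ^ 2 * D = K * (Y ^ 2 * D) := by ring
            _ ≤ K * (X ^ 3 * X) := mul_le_mul_of_nonneg_left g2 hK0.le
            _ = K * X ^ 4 := by ring
        refine (Real.rpow_le_rpow (by positivity) g1 (by positivity)).trans (le_of_eq ?_)
        rw [Real.mul_rpow hK0.le (by positivity), ← Real.rpow_natCast X 4, ← Real.rpow_mul hX0.le]
        congr 2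
        push_cast
        ring
      rw [h9] at h3
      have h12 : (T.card : ℝ) ≤ C2 * K ^ (ε / 4) * √K * X ^ ε * (D + D ^ (1 / 2 : ℝ) * Y) := by
        refine h3.trans ?_
        have g5 : 0 ≤ D ^ (1 / 2 : ℝ) * Y := by positivity
        calc C2 * (K * Y ^ 2 * D) ^ (ε / 4) * (D + √K * (D ^ (1 / 2 : ℝ) * Y))
            ≤ C2 * (K ^ (ε / 4) * X ^ ε) * (√K * (D + D ^ (1 / 2 : ℝ) * Y)) := by
              refine mul_le_mul (mul_le_mul_of_nonneg_left h11 hC2.le) ?_ (by positivity) (by positivity)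
              nlinarith
          _ = _ := by ring
      refine (h4.trans h12).trans ?_
      have g5 : 0 ≤ D + D ^ (1 / 2 : ℝ) * Y := by positivity
      refine mul_le_mul (mul_le_mul_of_nonneg_right ?_ (by positivity)) (by linarith) g5 (by positivity)
      rw [hc2]
      linarith
  refine ⟨c1 + c2, by positivity, ?_⟩
  intro X Y D hX hY hD1
  have hX0 : 0 < X := by linarith
  have hY0 : 0 < Y := by linarith
  have hD0 : 0 < D := by linarith
  have t1 : 0 ≤ D * Y ^ (2 / 3 : ℝ) := by positivity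
  have t2 : 0 ≤ D + D ^ (1 / 2 : ℝ) * Y := by positivity
  have t3 : 0 ≤ X ^ (1 / 2 : ℝ) := by positivity
  have t4 : 0 ≤ X ^ ε := by positivity
  rcases min_choice (D * Y ^ (2 / 3 : ℝ)) (D + D ^ (1 / 2 : ℝ) * Y) with h | h
  · rw [h]
    refine (b1 X Y D hX hY hD1).trans ?_
    refine mul_le_mul_of_nonneg_right (mul_le_mul_of_nonneg_right ?_ t4) (by linarith)
    linarith
  · rw [h]
    refine (b2 X Y D hX hY hD1).trans ?_
    refine mul_le_mul_of_nonneg_right (mul_le_mul_of_nonneg_right ?_ t4) (by linarith)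
    linarith

end Pool.Agent.H80.PT
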