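import Pool.Agent.H80.PT.Mv

/-!
[H80 PT MVF]  Translation by the 2-torsion point `(e_0, 0)` moves the label of `s` to the form `r - e_0 s`.

As in `mv` (Mv.lean): `δ = (e_0 - e_1)(e_0 - e_2)`, `s₁ = r - e_0 s ≠ 0`, `r₁ = e_0 s₁ + δ s`, `r₁ = r' g`, `s₁ = s' g`, `0 < s'`, `IsCoprime r' s'`
(`mv_norm`), `g ∣ δ` (`g` divides `s₁` and `δ s`, and `gcd(s, s₁) = 1`), and `g (r' - e_0 s') = r₁ - e_0 s₁ = δ s`.  `Tw A B (K H) d r' s'` as in `mv`.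
If `s = a y²`, `r' - e_0 s' = a' y'²` then `g a' y'² = δ a y²`.  A prime `p ∣ a` with `p ∤ g δ` has odd exponent on the right, so it divides `a'`;
so `a ∣ g δ a'` (`a` squarefree), and `|a| ≤ |g δ a'| ≤ δ² |a'|` (`a' ≠ 0`).
-/

set_option autoImplicit false

namespace Pool.Agent.H80.PT

open Pool.Agent.H12.EH

private theorem mvF_norm {r₁ s₁ : ℤ} (h : s₁ ≠ 0) : ∃ r' s' g : ℤ, IsCoprime r' s' ∧ 0 < s' ∧ g ≠ 0 ∧
    r₁ = r' * g ∧ s₁ = s' * g := by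
  have hg : 0 < Int.gcd r₁ s₁ := Int.gcd_pos_of_ne_zero_right _ h
  obtain ⟨g, m, n, hg0, hmn, hm, hn⟩ := Int.exists_gcd_one' hg
  have hc : IsCoprime m n := Int.isCoprime_iff_gcd_eq_one.mpr hmn
  have hgz : (g : ℤ) ≠ 0 := by positivity
  rcases lt_trichotomy n 0 with hn0 | hn0 | hn0
  · refine ⟨-m, -n, -(g : ℤ), hc.neg_neg, by omega, neg_ne_zero.mpr hgz, ?_, ?_⟩
    · rw [hm]; ring
    · rw [hn]; ring
  · exfalso
    apply h
    rw [hn, hn0, zero_mul]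
  · exact ⟨m, n, g, hc, hn0, hgz, hm, hn⟩

private theorem mvF_abs {a b g : ℤ} (hg : g ≠ 0) (h : a = b * g) : |(b : ℝ)| ≤ |(a : ℝ)| := by
  have h1 : (1 : ℝ) ≤ |(g : ℝ)| := by
    have := Int.one_le_abs hg
    exact_mod_cast this
  rw [h, Int.cast_mul, abs_mul]
  exact le_mul_of_one_le_right (abs_nonneg _) h1

/-- two square classes with proportional values -/
private theorem mvF_sq {δ g a a' y y' : ℤ} (hδ : δ ≠ 0) (hg : g ≠ 0) (hgδ : g ∣ δ) (ha : Squarefree a)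
    (ha' : a' ≠ 0) (hy' : y' ≠ 0) (h : g * (a' * y' ^ 2) = δ * (a * y ^ 2)) :
    |(a : ℝ)| ≤ |(δ : ℝ)| ^ 2 * |(a' : ℝ)| := by
  have h1 : (δ * a * y) ^ 2 = g * δ * a' * a * y' ^ 2 := by
    linear_combination (-(δ * a)) * h
  have h2 : y' ∣ δ * a * y := by
    rw [← Int.pow_dvd_pow_iff two_ne_zero, h1]
    exact Dvd.intro_left _ rfl
  obtain ⟨c, hc⟩ := h2
  have h3 : c ^ 2 = g * δ * a' * a := by
    rw [hc] at h1
    have h4 : y' ^ 2 * c ^ 2 = y' ^ 2 * (g * δ * a' * a) := by linear_combination h1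
    exact mul_left_cancel₀ (pow_ne_zero 2 hy') h4
  have h4 : a ∣ c := (ha.dvd_pow_iff_dvd two_ne_zero).mp ⟨g * δ * a', by rw [h3]; ring⟩
  have h5 : a ∣ g * δ * a' := by
    have h6 : a * a ∣ a * (g * δ * a') := by
      have h7 : a * (g * δ * a') = c ^ 2 := by rw [h3]; ring
      rw [h7, ← pow_two]
      exact pow_dvd_pow_of_dvd h4 2
    exact (mul_dvd_mul_iff_left ha.ne_zero).mp h6
  obtain ⟨k, hk⟩ := h5
  have hk0 : k ≠ 0 := by
    rintro rfl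
    rw [mul_zero] at hk
    exact (mul_ne_zero (mul_ne_zero hg hδ) ha') hk
  obtain ⟨l, hl⟩ := hgδ
  have hl0 : l ≠ 0 := by
    rintro rfl
    rw [mul_zero] at hl
    exact hδ hl
  have h6 : |(a : ℝ)| ≤ |((g * δ * a' : ℤ) : ℝ)| := mvF_abs hk0 hk
  have h7 : |(g : ℝ)| ≤ |(δ : ℝ)| := mvF_abs hl0 hl
  push_cast at h6
  rw [abs_mul, abs_mul] at h6
  have h8 : |(g : ℝ)| * |(δ : ℝ)| * |(a' : ℝ)| ≤ |(δ : ℝ)| * |(δ : ℝ)| * |(a' : ℝ)| :=
    mul_le_mul_of_nonneg_right (mul_le_mul_of_nonneg_right h7 (abs_nonneg _)) (abs_nonneg _)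
  rw [pow_two]
  exact h6.trans h8

theorem mvF {A B : ℤ} {e : Fin 3 → ℤ} (hρ : Roots A B (fun v => (e v : ℂ))) : ∃ K : ℝ, 1 ≤ K ∧
    ∀ (H : ℝ) (d : ℕ) (r s : ℤ), Squarefree d → Tw A B H d r s →
      ∃ r' s' : ℤ, Tw A B (K * H) d r' s' ∧ ∀ a a' y y' : ℤ, Squarefree a → Squarefree a' → y ≠ 0 → y' ≠ 0 →
        s = a * y ^ 2 → r' - e 0 * s' = a' * y' ^ 2 → |(a : ℝ)| ≤ K * |(a' : ℝ)| := by
  have hGf : ∀ r s : ℤ, Gf A B r s = (r - e 0 * s) * (r - e 1 * s) * (r - e 2 * s) := by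
    intro r s
    have h := Gf_prod hρ r s
    exact_mod_cast h
  have hne : ∀ u v : Fin 3, u ≠ v → e u - e v ≠ 0 := by
    intro u v huv h
    apply hρ.ne u v huv
    have : e u = e v := by linarith
    simp only [this]
  set δ : ℤ := (e 0 - e 1) * (e 0 - e 2) with hδ
  have hδ0 : δ ≠ 0 := mul_ne_zero (hne 0 1 (by decide)) (hne 0 2 (by decide))
  set a : ℝ := |(e 0 : ℝ)| with ha
  set b : ℝ := |(δ : ℝ)| with hb
  have ha0 : 0 ≤ a := abs_nonneg _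
  have hb0 : 0 ≤ b := abs_nonneg _
  have haa : 0 ≤ a * (1 + a) := mul_nonneg ha0 (by linarith)
  have hbb : 0 ≤ b ^ 2 := sq_nonneg b
  refine ⟨a * (1 + a) + b + (1 + a) + b ^ 2, by linarith, ?_⟩
  rintro H d r s hd ⟨hc, hs, hr1, hs1, w, hw, he⟩
  have hsR : (0 : ℝ) < s := by exact_mod_cast hs
  have hH : 0 < H := lt_of_lt_of_le hsR hs1
  set s₁ : ℤ := r - e 0 * s with hs₁
  set r₁ : ℤ := e 0 * s₁ + δ * s with hr₁
  have hd0 : (d : ℤ) ≠ 0 := by exact_mod_cast hd.ne_zero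
  have hs₁0 : s₁ ≠ 0 := by
    intro h0
    have h1 : s * Gf A B r s = 0 := by
      rw [hGf, ← hs₁, h0]
      ring
    rw [h1] at he
    exact (mul_ne_zero hd0 (pow_ne_zero 2 hw)) he.symm
  have hid : s₁ * Gf A B r₁ s₁ = δ ^ 2 * (s * Gf A B r s) := by
    rw [hGf, hGf, hr₁, hs₁, hδ]
    ring
  obtain ⟨r', s', g, hc', hs', hg, hrg, hsg⟩ := mvF_norm (r₁ := r₁) hs₁0
  have hgq : (g : ℚ) ≠ 0 := by exact_mod_cast hg
  have hid2 : g ^ 4 * (s' * Gf A B r' s') = d * (δ * w) ^ 2 := by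
    have h1 : g ^ 4 * (s' * Gf A B r' s') = s₁ * Gf A B r₁ s₁ := by
      rw [hrg, hsg]
      unfold Gf
      ring
    rw [h1, hid, he]
    ring
  have hq2 : ((s' * Gf A B r' s' : ℤ) : ℚ) = d * ((δ * w : ℤ) / (g : ℚ) ^ 2) ^ 2 := by
    have h1 : (g : ℚ) ^ 4 * ((s' * Gf A B r' s' : ℤ) : ℚ) = d * ((δ * w : ℤ) : ℚ) ^ 2 := by
      exact_mod_cast hid2
    field_simp
    linear_combination h1
  obtain ⟨n, hn⟩ := int_of_sq hd hq2
  have hn0 : n ≠ 0 := by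
    intro h0
    rw [h0, Int.cast_zero, div_eq_zero_iff] at hn
    rcases hn with hn | hn
    · exact (mul_ne_zero hδ0 hw) (by exact_mod_cast hn)
    · exact (pow_ne_zero 2 hgq) hn
  rw [hn] at hq2
  have hs₁R : |(s₁ : ℝ)| ≤ (1 + a) * H := by
    rw [hs₁]
    push_cast
    have h1 : |(r : ℝ) - e 0 * s| ≤ |(r : ℝ)| + |(e 0 : ℝ) * s| := abs_sub _ _
    rw [abs_mul, abs_of_pos hsR, ← ha] at h1
    have h2 := mul_le_mul_of_nonneg_left hs1 ha0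
    linarith
  have hr₁R : |(r₁ : ℝ)| ≤ (a * (1 + a) + b) * H := by
    rw [hr₁]
    push_cast
    have h1 : |(e 0 : ℝ) * s₁ + δ * s| ≤ |(e 0 : ℝ) * s₁| + |(δ : ℝ) * s| := abs_add_le _ _
    rw [abs_mul, abs_mul, abs_of_pos hsR, ← ha, ← hb] at h1
    have h2 := mul_le_mul_of_nonneg_left hs1 hb0
    have h3 := mul_le_mul_of_nonneg_left hs₁R ha0
    linarith
  have hbH : 0 ≤ b * H := mul_nonneg hb0 hH.le
  have hbbH : 0 ≤ b ^ 2 * H := mul_nonneg hbb hH.le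
  have haH : 0 ≤ a * H := mul_nonneg ha0 hH.le
  have haaH : 0 ≤ a * (1 + a) * H := mul_nonneg haa hH.le
  have hexp : (a * (1 + a) + b + (1 + a) + b ^ 2) * H =
      a * (1 + a) * H + b * H + (1 + a) * H + b ^ 2 * H := by ring
  refine ⟨r', s', ⟨hc', hs', ?_, ?_, n, hn0, by exact_mod_cast hq2⟩, ?_⟩
  · have h1 := mvF_abs hg hrg
    have h2 : (a * (1 + a) + b) * H = a * (1 + a) * H + b * H := by ring
    have h3 : (1 + a) * H = H + a * H := by ring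
    linarith
  · have h1 := mvF_abs hg hsg
    have h2 := le_abs_self (s' : ℝ)
    linarith
  · intro x x' y y' hx hx' _ hy' h1 h2
    have hcs : IsCoprime s s₁ := Fac_lin hc (e 0)
    have hgs : IsCoprime g s := (hcs.symm).of_isCoprime_of_dvd_left ⟨s', by rw [hsg]; ring⟩
    have h3 : g * (r' - e 0 * s') = δ * s := by
      have h4 : r' * g = e 0 * (s' * g) + δ * s := by rw [← hrg, ← hsg]
      linear_combination h4
    have hgδ : g ∣ δ := hgs.dvd_of_dvd_mul_right ⟨r' - e 0 * s', h3.symm⟩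
    rw [h2, h1] at h3
    have h5 := mvF_sq (y := y) hδ0 hg hgδ hx hx'.ne_zero hy' h3
    rw [← hb] at h5
    have h6 : 0 ≤ (a * (1 + a) + b + (1 + a)) * |(x' : ℝ)| :=
      mul_nonneg (by linarith) (abs_nonneg _)
    have h7 : (a * (1 + a) + b + (1 + a) + b ^ 2) * |(x' : ℝ)| =
        (a * (1 + a) + b + (1 + a)) * |(x' : ℝ)| + b ^ 2 * |(x' : ℝ)| := by ring
    linarith

end Pool.Agent.H80.PT
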