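import Pool.Agent.H80.PT.Cnt

/-!
[H80 PT SZ]  The sum over `z` (NEW statement, 20:20).

`T` with a function `z` on it, `lam S ≤ R z²`, `1 ≤ z`, `z² ≤ U`.  `dya2` (Pool/Agent/H12/EH/Dya.lean) with `g = z`, `N = ⌊√U⌋`:
it is enough to bound a class `2^k ≤ z ≤ 2 · 2^k`, `2^k ≤ √U`.  It is the union of at most `2^k + 1 ≤ 2 · 2^k` sets with a fixed `z`, each with at
most `C L^ε (2 · 2^k)^(ε') (1 + √(S lam / L) / 4^k)` elements by `cnt`.  If it is not empty then `√(S lam) ≤ √R · 2 · 2^k`.  So the class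
has at most `C' L^ε U^(ε') (2^k + √(R / L))` elements, and `dya2` costs a factor `log₂ √U + 1 ≤ C U^(ε')`.
-/

set_option autoImplicit false

namespace Pool.Agent.H80.PT

open Pool.Agent.H12.EH

/-- fibers over an interval `[K, 2 K]` of naturals -/
private theorem card_fib {ι : Type*} (T : Finset ι) (g : ι → ℕ) (K : ℕ) (hK : 1 ≤ K)
    (hg : ∀ i ∈ T, K ≤ g i ∧ g i ≤ 2 * K) (M : ℝ)
    (hM : ∀ z : ℕ, K ≤ z → z ≤ 2 * K → ((T.filter (fun i => g i = z)).card : ℝ) ≤ M) :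
    (T.card : ℝ) ≤ 2 * K * M := by
  classical
  have hM0 : 0 ≤ M := le_trans (Nat.cast_nonneg _) (hM K le_rfl (by omega))
  have hmap : ∀ i ∈ T, g i ∈ Finset.Icc K (2 * K) := by
    intro i hi
    rw [Finset.mem_Icc]
    exact hg i hi
  rw [Finset.card_eq_sum_card_fiberwise hmap]
  push_cast
  calc ∑ z ∈ Finset.Icc K (2 * K), ((T.filter (fun i => g i = z)).card : ℝ)
      ≤ ∑ z ∈ Finset.Icc K (2 * K), M := by
        apply Finset.sum_le_sum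
        intro z hz
        rw [Finset.mem_Icc] at hz
        exact hM z hz.1 hz.2
    _ = ((Finset.Icc K (2 * K)).card : ℝ) * M := by simp
    _ ≤ 2 * K * M := by
        apply mul_le_mul_of_nonneg_right _ hM0
        rw [Nat.card_Icc]
        have : 2 * K + 1 - K ≤ 2 * K := by omega
        exact_mod_cast this

/-- one dyadic class: the arithmetic -/
private theorem cls_bound {C ε s r U K z : ℝ} (hC : 0 < C) (hε : 0 < ε)
    (hr : 0 < r) (hK : 1 ≤ K) (hKU : K ≤ √U) (hz1 : K ≤ z) (hz2 : z ≤ 2 * K)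
    (h : s ≤ r * (2 * K) ^ 2) :
    C * z ^ ε * (1 + √s / z ^ 2) ≤ C * (2 : ℝ) ^ ε * √U ^ ε * (1 + 2 * √r / K) := by
  have hK0 : 0 < K := by linarith
  have hz0 : 0 < z := by linarith
  have h1 : z ^ ε ≤ (2 : ℝ) ^ ε * √U ^ ε := by
    rw [← Real.mul_rpow (by norm_num) (Real.sqrt_nonneg _)]
    apply Real.rpow_le_rpow hz0.le _ hε.le
    linarith
  have h2 : √s ≤ √r * (2 * K) := by
    rw [← Real.sqrt_sq (by positivity : 0 ≤ 2 * K), ← Real.sqrt_mul hr.le]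
    exact Real.sqrt_le_sqrt h
  have h3 : √s / z ^ 2 ≤ 2 * √r / K := by
    rw [div_le_div_iff₀ (by positivity) hK0]
    have h4 : K ^ 2 ≤ z ^ 2 := pow_le_pow_left₀ hK0.le hz1 2
    calc √s * K ≤ (√r * (2 * K)) * K := by gcongr
      _ = 2 * √r * K ^ 2 := by ring
      _ ≤ 2 * √r * z ^ 2 := by
        apply mul_le_mul_of_nonneg_left h4
        positivity
  have h5 : 0 ≤ √s / z ^ 2 := by positivity
  have h6 : 0 ≤ (2 : ℝ) ^ ε * √U ^ ε := by positivity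
  calc C * z ^ ε * (1 + √s / z ^ 2)
      ≤ C * ((2 : ℝ) ^ ε * √U ^ ε) * (1 + 2 * √r / K) := by
        gcongr
    _ = _ := by ring

theorem sz {e : Fin 3 → ℤ} (he : ∀ i j, i ≠ j → e i ≠ e j) (ε : ℝ) (hε : 0 < ε) : ∃ C : ℝ, 0 < C ∧
    ∀ (o v : Fin 3) (S lam L R U : ℝ), 0 < S → 0 < lam → 1 ≤ L → 0 < R → 1 ≤ U → ∀ (a : Fin 3 → ℤ),
    (∀ i, Squarefree (a i)) → L ≤ |((∏ i, a i : ℤ) : ℝ)| → |((∏ i, a i : ℤ) : ℝ)| ≤ 2 * L →
    ∀ T : Finset (ℤ × ℤ), (∀ p ∈ T, Fib (fun v => (e v : ℂ)) v S lam p.1 p.2 ∧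
      ∃ (z : ℕ) (y : Fin 3 → ℤ), 0 < z ∧ (z : ℝ) ^ 2 ≤ U ∧ S * lam ≤ R * (z : ℝ) ^ 2 ∧ Sp e o a z p.1 p.2 y) →
    (T.card : ℝ) ≤ C * L ^ ε * U ^ ε * (√U + √(R / L)) := by
  classical
  obtain ⟨C0, hC0, hcnt⟩ := cnt he ε hε
  obtain ⟨C1, hC1, hlog⟩ := log_pow_le 1 (ε / 2) (by positivity)
  refine ⟨C1 * (4 * C0 * (2 : ℝ) ^ ε), by positivity, ?_⟩
  intro o v S lam L R U hS hlam hL hR hU a ha hLa haL T hT
  have hL0 : 0 < L := by linarith
  have hr : 0 < R / L := by positivity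
  have hU0 : 0 < U := by linarith
  have hsU : 1 ≤ √U := Real.one_le_sqrt.mpr hU
  -- the function z
  have hz : ∀ p : ℤ × ℤ, ∃ z : ℕ, p ∈ T → ∃ y : Fin 3 → ℤ, 0 < z ∧ (z : ℝ) ^ 2 ≤ U ∧
      S * lam ≤ R * (z : ℝ) ^ 2 ∧ Sp e o a z p.1 p.2 y := by
    intro p
    by_cases hp : p ∈ T
    · obtain ⟨_, z, y, h⟩ := hT p hp
      exact ⟨z, fun _ => ⟨y, h⟩⟩
    · exact ⟨0, fun h => absurd h hp⟩
  choose g hg using hz
  set N : ℕ := ⌊√U⌋₊ with hN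
  have hgN : ∀ p ∈ T, 1 ≤ g p ∧ g p ≤ N := by
    intro p hp
    obtain ⟨y, h1, h2, h3, h4⟩ := hg p hp
    refine ⟨h1, ?_⟩
    rw [hN]
    apply Nat.le_floor
    exact Real.le_sqrt_of_sq_le h2
  set M : ℝ := 4 * (C0 * L ^ ε) * (2 : ℝ) ^ ε * √U ^ ε * (√U + √(R / L)) with hM
  have hM0 : 0 ≤ M := by positivity
  have hclass : ∀ k : ℕ, 2 ^ k ≤ N → ∀ T' ⊆ T, (∀ i ∈ T', 2 ^ k ≤ g i ∧ g i ≤ 2 * 2 ^ k) →
      (T'.card : ℝ) ≤ M := by
    intro k hk T' hT' hgk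
    rcases T'.eq_empty_or_nonempty with hE | ⟨p0, hp0⟩
    · rw [hE]
      simpa using hM0
    have hK1 : 1 ≤ (2 : ℝ) ^ k := one_le_pow₀ (by norm_num)
    have hKU : (2 : ℝ) ^ k ≤ √U := by
      have h1 : ((2 ^ k : ℕ) : ℝ) ≤ (N : ℝ) := by exact_mod_cast hk
      push_cast at h1
      exact h1.trans (Nat.floor_le (Real.sqrt_nonneg _))
    have hSl : S * lam / L ≤ R / L * (2 * (2 : ℝ) ^ k) ^ 2 := by
      obtain ⟨y, h1, h2, h3, h4⟩ := hg p0 (hT' hp0)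
      rw [div_mul_eq_mul_div]
      apply div_le_div_of_nonneg_right _ hL0.le
      refine h3.trans ?_
      apply mul_le_mul_of_nonneg_left _ hR.le
      apply pow_le_pow_left₀ (Nat.cast_nonneg _)
      have := (hgk p0 hp0).2
      exact_mod_cast this
    have hone : ∀ z : ℕ, 2 ^ k ≤ z → z ≤ 2 * 2 ^ k →
        ((T'.filter (fun i => g i = z)).card : ℝ) ≤
          (C0 * L ^ ε) * (2 : ℝ) ^ ε * √U ^ ε * (1 + 2 * √(R / L) / (2 : ℝ) ^ k) := by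
      intro z hz1 hz2
      have hz0 : 0 < z := lt_of_lt_of_le (by positivity) hz1
      have h1 := hcnt o v S lam L hS hlam hL a ha hLa haL z hz0 (T'.filter (fun i => g i = z)) (by
        intro p hp
        rw [Finset.mem_filter] at hp
        obtain ⟨hpT', hpz⟩ := hp
        obtain ⟨y, g1, g2, g3, g4⟩ := hg p (hT' hpT')
        rw [hpz] at g4
        exact ⟨(hT p (hT' hpT')).1, y, g4⟩)
      refine h1.trans ?_
      apply cls_bound (by positivity) hε hr hK1 hKU _ _ hSl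
      · exact_mod_cast hz1
      · exact_mod_cast hz2
    have h2 := card_fib T' g (2 ^ k) (Nat.one_le_two_pow) hgk _ hone
    push_cast at h2
    refine h2.trans ?_
    rw [hM]
    have hK0 : 0 < (2 : ℝ) ^ k := by positivity
    have h3 : 2 * (2 : ℝ) ^ k * ((C0 * L ^ ε) * (2 : ℝ) ^ ε * √U ^ ε * (1 + 2 * √(R / L) / (2 : ℝ) ^ k)) =
        (C0 * L ^ ε) * (2 : ℝ) ^ ε * √U ^ ε * (2 * (2 : ℝ) ^ k + 4 * √(R / L)) := by
      field_simp
      ring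
    rw [h3]
    have h4 : 2 * (2 : ℝ) ^ k + 4 * √(R / L) ≤ 4 * (√U + √(R / L)) := by
      have : 0 ≤ √U := Real.sqrt_nonneg _
      linarith
    calc (C0 * L ^ ε) * (2 : ℝ) ^ ε * √U ^ ε * (2 * (2 : ℝ) ^ k + 4 * √(R / L))
        ≤ (C0 * L ^ ε) * (2 : ℝ) ^ ε * √U ^ ε * (4 * (√U + √(R / L))) := by
          apply mul_le_mul_of_nonneg_left h4
          positivity
      _ = _ := by ring
  have hmain := dya2 T g N M hM0 hgN hclass
  -- the logarithm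
  have hlogN : ((Nat.log 2 N : ℕ) : ℝ) + 1 ≤ C1 * U ^ (ε / 2) := by
    refine le_trans ?_ (hlog U hU)
    rw [pow_one]
    have hN1 : 1 ≤ N := by
      rw [hN]
      exact Nat.le_floor (by exact_mod_cast hsU)
    have e1 : 2 ^ Nat.log 2 N ≤ N := Nat.pow_log_le_self 2 (by omega)
    have e2 : (2 : ℝ) ^ Nat.log 2 N ≤ √U := by
      have e3 : ((2 ^ Nat.log 2 N : ℕ) : ℝ) ≤ (N : ℝ) := by exact_mod_cast e1
      push_cast at e3
      exact e3.trans (Nat.floor_le (Real.sqrt_nonneg _))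
    have e4 := Real.log_le_log (by positivity) e2
    rw [Real.log_pow, Real.log_sqrt hU0.le] at e4
    have hl2 : (1 : ℝ) / 2 < Real.log 2 := by
      have := Real.log_two_gt_d9
      linarith
    have e5 : (0 : ℝ) ≤ (Nat.log 2 N : ℝ) := Nat.cast_nonneg _
    nlinarith
  have hsq : √U ^ ε = U ^ (ε / 2) := by
    rw [Real.sqrt_eq_rpow, ← Real.rpow_mul hU0.le]
    congr 1
    ring
  have hUU : U ^ (ε / 2) * U ^ (ε / 2) = U ^ ε := by
    rw [← Real.rpow_add hU0]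
    congr 1
    ring
  calc (T.card : ℝ) ≤ ((Nat.log 2 N : ℕ) + 1) * M := hmain
    _ ≤ C1 * U ^ (ε / 2) * M := mul_le_mul_of_nonneg_right hlogN hM0
    _ = C1 * (4 * C0 * (2 : ℝ) ^ ε) * L ^ ε * (U ^ (ε / 2) * U ^ (ε / 2)) * (√U + √(R / L)) := by
        rw [hM, hsq]
        ring
    _ = C1 * (4 * C0 * (2 : ℝ) ^ ε) * L ^ ε * U ^ ε * (√U + √(R / L)) := by rw [hUU]

end Pool.Agent.H80.PT
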